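import Pool.Agent.Lib.MP_610fe3_an.HF.Brk

/-!
# Hyperbolic factors: the abstract theorems from the modules
-/

open Set Filter Function
open scoped Topology Pointwise

namespace Pool.Agent.Lib.MP610fe3.HF

open TM N3 FT

universe u v w

/-- The three conclusions for an attractor `A`. -/
def Concl {X : Type*} [MetricSpace X] (f : X ≃ₜ X) (A : Set X) {Y : Type*} [MetricSpace Y]
    (g : Y → Y) (h : X → Y) : Prop :=
  (∀ x ∈ A, ∀ ε : ℝ, 0 < ε → ∃ K : Set X, IsCompact K ∧ IsConnected K ∧ K.Nontrivial ∧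
    K ⊆ A ∧ (∀ y ∈ K, y ∈ Sp f.symm ε x) ∧ ∀ y ∈ K, ∀ z ∈ K, h y = h z) ∧
  (∃ (l : ℕ) (t : Y) (Z : (ℤ → Bool) → X), 0 < l ∧ g^[l] t = t ∧ Continuous Z ∧ Injective Z ∧
    ∀ σ, Z σ ∈ A ∧ h (Z σ) = t ∧ f^[l] (Z σ) = Z (fun k => σ (k + 1))) ∧
  Dynamics.coverEntropy g (h '' A) < Dynamics.coverEntropy f A

/-- The theorem for hyperbolic factors. -/
def SpecAbsH : Prop := ∀ (X : Type u) [MetricSpace X] [CompactSpace X] (Y : Type v) [MetricSpace Y]
  [CompactSpace Y] (G : Type w) [Group G] [TopologicalSpace G] [IsTopologicalGroup G] [T2Space G]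
  [LocallyCompactSpace G] [MulAction G Y] [ContinuousSMul G Y] (f : X ≃ₜ X) (h : X → Y)
  (L : G ≃* G) (g : Y ≃ₜ Y) (S T : Subgroup G) (sp up : G → G) (U : Set X)
  (e C a c e' C' a' c' : ℝ), Base f e C a c → Base f.symm e' C' a' c' → Hyp L g S T sp up →
  Continuous h → (∀ x, h (f x) = g (h x)) → Trap f U → (frontier U).Nonempty →
  TransOn f (Att f U) → Concl f (Att f U) g h

theorem specAbsH (hDsp : SpecDsp.{v, w}) (hCor : SpecCor.{u, v, w}) (hDia : SpecDia.{u, v})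
    (hHrs : SpecHrs.{u, v}) (hDns : SpecDns.{u, v}) (hGap : SpecGap.{u, v}) :
    SpecAbsH.{u, v, w} := by
  intro X _ _ Y _ _ G _ _ _ _ _ _ _ f h L g S T sp up U e C a c e' C' a' c' B B' H hh hs hT hfr hTr
  obtain ⟨Q, -, c₀, hc₀, hg⟩ := hDsp Y G L g S T sp up H
  obtain ⟨E, c₁, hc₁, hEe, K, hCl, hKh⟩ := hCor X Y G f h L g S T sp up U e C a c e' C' a' c' B B' H
    hh hs hT hfr
  have hF : Fac f (Att f U) g h := ⟨hh.continuousOn, fun x _ => hs x⟩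
  obtain ⟨y, w, hD⟩ := hDia X f U e C a c Y g c₀ h E c₁ K B hT hc₀ hg hF hEe hc₁ hCl hKh
  exact ⟨hDns X f U e C a c Y g c₀ h E c₁ K B hT hTr hc₀ hg hF hEe hc₁ hCl hKh,
    hHrs X f U e C a c Y g c₀ h y w B hT hTr hc₀ hg hF hD,
    hGap X f U Y g c₀ h y w B.shad hT hTr hc₀ hg hF hD⟩

/-- Products of two nontrivial continua on which `h` is constant, in every open set. -/
def Prods {X : Type*} [MetricSpace X] (f : X ≃ₜ X) {Y : Type*} (h : X → Y) : Prop :=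
  ∀ V : Set X, IsOpen V → V.Nonempty → ∀ ε : ℝ, 0 < ε → ∃ (Ku Ks : Set X) (b : X × X → X),
    IsCompact Ku ∧ IsConnected Ku ∧ Ku.Nontrivial ∧ IsCompact Ks ∧ IsConnected Ks ∧
    Ks.Nontrivial ∧ ContinuousOn b (Ku ×ˢ Ks) ∧ InjOn b (Ku ×ˢ Ks) ∧
    (∀ p ∈ Ku ×ˢ Ks, b p ∈ V ∧ b p ∈ Sp f ε p.1 ∧ b p ∈ Sp f.symm ε p.2) ∧
    (∀ y ∈ Ku, ∀ y' ∈ Ku, y' ∈ Sp f.symm ε y) ∧ (∀ y ∈ Ks, ∀ y' ∈ Ks, y' ∈ Sp f ε y) ∧
    ∀ p ∈ Ku ×ˢ Ks, ∀ p' ∈ Ku ×ˢ Ks, h (b p) = h (b p')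

theorem topTransitive_symm {X : Type*} [MetricSpace X] {f : X ≃ₜ X} (h : TopTransitive f.symm) :
    TopTransitive f := by
  intro V W hV hW hVn hWn
  obtain ⟨n, _, ⟨x, hx, rfl⟩, hx'⟩ := h W V hW hV hWn hVn
  have h1 : LeftInverse (⇑f)^[n] (⇑f.symm)^[n] :=
    (f.right_inv : LeftInverse f f.symm).iterate n
  exact ⟨n, x, ⟨_, hx', h1 x⟩, hx⟩

/-- Collapsed continua in the unstable plaques of all transitive proper attractors. -/
def Coll {X : Type*} [MetricSpace X] (f : X ≃ₜ X) {Y : Type*} (h : X → Y) : Prop :=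
  ∀ U : Set X, Trap f U → U.Nonempty → (frontier U).Nonempty → TransOn f (Att f U) →
    ∀ x ∈ Att f U, ∀ ε : ℝ, 0 < ε → ∃ K : Set X, IsCompact K ∧ IsConnected K ∧ K.Nontrivial ∧
      K ⊆ Att f U ∧ (∀ y ∈ K, y ∈ Sp f.symm ε x) ∧ ∀ y ∈ K, ∀ z ∈ K, h y = h z

/-- One side. -/
theorem dense_side (hDen : SpecDen.{u, v}) (hBas : SpecBas.{u}) {X : Type u} [MetricSpace X]
    [CompactSpace X] [ConnectedSpace X] {f : X ≃ₜ X} {Y : Type v} [MetricSpace Y] {g : Y ≃ₜ Y}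
    {h : X → Y} {e C a c c' : ℝ} (B : Base f e C a c) (hc' : 0 < c') (hg : ExpConst g c')
    (hh : Continuous h) (hs : ∀ x, h (f x) = g (h x)) (hnt : ¬ TopTransitive f)
    (hcoll : Coll f h) (V : Set X) (hV : IsOpen V) (hVn : V.Nonempty) :
    ∃ x ∈ V, ∀ ε : ℝ, 0 < ε → ∃ K : Set X, IsCompact K ∧ IsConnected K ∧ K.Nontrivial ∧
      (∀ y ∈ K, y ∈ Sp f.symm ε x) ∧ ∀ y ∈ K, ∀ z ∈ K, h y = h z := by
  obtain ⟨U, hT, hne, hfr, hTr, z, hz, n, hn⟩ := hBas X f c B.c0 B.exp B.shad hnt V hV hVn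
  exact ⟨z, hz, hDen X f U e C a c Y g c' h B hT hc' hg hh hs (hcoll U hT hne hfr hTr) z ⟨n, hn⟩⟩

/-- The theorem on products. -/
theorem prods (hDen : SpecDen.{u, v}) (hBas : SpecBas.{u}) (hPro : SpecPro.{u, v}) {X : Type u}
    [MetricSpace X] [CompactSpace X] [ConnectedSpace X] {f : X ≃ₜ X} {Y : Type v} [MetricSpace Y]
    {g : Y ≃ₜ Y} {h : X → Y} {e C a c e' C' a' c₂ c' : ℝ} (B : Base f e C a c)
    (B' : Base f.symm e' C' a' c₂) (hc' : 0 < c') (hg : ExpConst g c') (hh : Continuous h)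
    (hs : ∀ x, h (f x) = g (h x)) (hnt : ¬ TopTransitive f) (h1 : Coll f h)
    (h2 : Coll f.symm h) : Prods f h := by
  have hs' : ∀ x, h (f.symm x) = g.symm (h x) := by
    intro x
    apply g.injective
    rw [← hs, f.apply_symm_apply, g.apply_symm_apply]
  have hg' : ExpConst g.symm c' := fun x y h1 h2 => hg x y (by simpa using h2) h1
  exact hPro X f e C a c Y g c' h B hc' hg hh hs (dense_side hDen hBas B hc' hg hh hs hnt h1)
    (dense_side hDen hBas B' hc' hg' hh hs' (fun h => hnt (topTransitive_symm h)) h2)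

/-- Products, for hyperbolic factors. -/
theorem prodsH (hAbs : SpecAbsH.{u, v, w}) (hDsp : SpecDsp.{v, w}) (hDen : SpecDen.{u, v})
    (hBas : SpecBas.{u}) (hPro : SpecPro.{u, v}) {X : Type u} [MetricSpace X] [CompactSpace X]
    [ConnectedSpace X] {f : X ≃ₜ X} {Y : Type v} [MetricSpace Y] [CompactSpace Y] {G : Type w}
    [Group G] [TopologicalSpace G] [IsTopologicalGroup G] [T2Space G] [LocallyCompactSpace G]
    [MulAction G Y] [ContinuousSMul G Y] {L : G ≃* G} {g : Y ≃ₜ Y} {S T : Subgroup G}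
    {sp up : G → G} {h : X → Y} {e C a c e' C' a' c₂ : ℝ} (B : Base f e C a c)
    (B' : Base f.symm e' C' a' c₂) (H : Hyp L g S T sp up) (hh : Continuous h)
    (hs : ∀ x, h (f x) = g (h x)) (hnt : ¬ TopTransitive f) : Prods f h := by
  obtain ⟨Q, -, c₀, hc₀, hg⟩ := hDsp Y G L g S T sp up H
  have hs' : ∀ x, h (f.symm x) = g.symm (h x) := by
    intro x
    apply g.injective
    rw [← hs, f.apply_symm_apply, g.apply_symm_apply]
  refine prods hDen hBas hPro B B' hc₀ hg hh hs hnt ?_ ?_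
  · intro U hT _ hfr hTr
    exact (hAbs X Y G f h L g S T sp up U e C a c e' C' a' c₂ B B' H hh hs hT hfr hTr).1
  · intro U hT _ hfr hTr
    exact (hAbs X Y G f.symm h L.symm g.symm T S (fun v => (up v⁻¹)⁻¹) (fun v => (sp v⁻¹)⁻¹) U
      e' C' a' c₂ e C a c B' B H.symm hh hs' hT hfr hTr).1

/-- Products, for group factors. -/
theorem prodsG (hAbs : SpecAbs.{u, v}) (hGex : SpecGex.{v}) (hDen : SpecDen.{u, v})
    (hBas : SpecBas.{u}) (hPro : SpecPro.{u, v}) {X : Type u} [MetricSpace X] [CompactSpace X]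
    [ConnectedSpace X] {f : X ≃ₜ X} {G : Type v} [MetricSpace G] [CompactSpace G] [Group G]
    [IsTopologicalGroup G] {L : G ≃ₜ G} {c₀ : ℝ} {h : X → G} {e C a c e' C' a' c₂ : ℝ}
    (B : Base f e C a c) (B' : Base f.symm e' C' a' c₂) (hmul : ∀ a b, L (a * b) = L a * L b)
    (hc₀ : 0 < c₀) (hexp : ∀ u : G, (∀ n : ℤ, dist (ev L n u) 1 ≤ c₀) → u = 1)
    (hh : Continuous h) (hs : ∀ x, h (f x) = L (h x)) (hnt : ¬ TopTransitive f) : Prods f h := by
  obtain ⟨c', hc', hg⟩ := hGex G L c₀ hmul hc₀ hexp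
  have hs' : ∀ x, h (f.symm x) = L.symm (h x) := by
    intro x
    apply L.injective
    rw [← hs, f.apply_symm_apply, L.apply_symm_apply]
  have hmul' : ∀ a b, L.symm (a * b) = L.symm a * L.symm b := by
    intro a b
    apply L.injective
    rw [hmul, L.apply_symm_apply, L.apply_symm_apply, L.apply_symm_apply]
  have hexp' : ∀ u : G, (∀ n : ℤ, dist (ev L.symm n u) 1 ≤ c₀) → u = 1 := by
    intro u hu
    refine hexp u fun n => ?_
    have h1 := hu (-n)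
    rwa [ev_symm, neg_neg] at h1
  refine prods hDen hBas hPro B B' hc' hg hh hs hnt ?_ ?_
  · intro U hT _ hfr hTr
    exact (hAbs X f U e C a c G L c₀ h B hT hfr hTr hmul hc₀ hexp
      ⟨hh.continuousOn, fun x _ => hs x⟩).1
  · intro U hT _ hfr hTr
    exact (hAbs X f.symm U e' C' a' c₂ G L.symm c₀ h B' hT hfr hTr hmul' hc₀ hexp'
      ⟨hh.continuousOn, fun x _ => hs' x⟩).1

end Pool.Agent.Lib.MP610fe3.HF
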