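import Pool.Agent.Lib.MP_610fe3_an.HF.Brk

/-!
# Hyperbolic factors: module BAS

The basins of the transitive attractors are dense.
-/

open Set Filter Function
open scoped Topology Pointwise

namespace Pool.Agent.Lib.MP610fe3.HF

open TM N3 FT

universe u v w

/-- BAS. -/
theorem specBas (hMnx : SpecMnx.{u}) (hMnu : SpecMnu.{u}) (hMnt : SpecMnt.{u}) :
    SpecBas.{u} := by
  intro X _ _ _ f c hc0 hc hsh hnt V hV hVn
  obtain ⟨x, hxV⟩ := hVn
  obtain ⟨y₀, hy₀O, hxy, hmin⟩ := hMnx X f c hc0 hc hsh x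
  have hTu : Trap f (univ : Set X) := ⟨isOpen_univ, fun _ _ => mem_univ _⟩
  obtain ⟨U', -, hT', hA⟩ := hMnu X f univ c y₀ hc0 hc hsh hTu (fun _ => mem_univ _) hy₀O hmin
  have hy : Reach f y₀ y₀ := reach_self_of_mem_Om hy₀O
  have hyA : y₀ ∈ Att f U' := by
    rw [hA]
    exact hy
  have hTr : TransOn f (Att f U') := by
    refine hMnt X f U' c hc0 hc hsh hT' fun x hx y hy' => ?_
    rw [hA] at hx hy'
    exact (hmin x hx).trans hy'
  have hfr : (frontier U').Nonempty := by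
    by_contra hne
    rw [not_nonempty_iff_eq_empty] at hne
    have h1 : IsClopen U' := isClopen_iff_frontier_eq_empty.2 hne
    have h2 : U' = univ := h1.eq_univ ⟨y₀, att_sub hyA⟩
    apply hnt
    intro V W hV hW hVn hWn
    obtain ⟨p, hp⟩ := hVn
    obtain ⟨q, hq⟩ := hWn
    have h3 : Att f U' = univ := by
      rw [h2]
      exact eq_univ_of_forall fun _ _ => mem_univ _
    rw [h3] at hTr
    obtain ⟨n, z, hz, hz'⟩ := hTr V W hV hW ⟨p, hp, mem_univ _⟩ ⟨q, hq, mem_univ _⟩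
    exact ⟨n, _, ⟨z, hz.1, rfl⟩, hz'⟩
  obtain ⟨r₁, hr₁, hb₁⟩ := Metric.isOpen_iff.1 hV x hxV
  obtain ⟨r₂, hr₂, hb₂⟩ := Metric.isOpen_iff.1 hT'.isOpen y₀ (att_sub hyA)
  have hε : 0 < min (r₁ / 2) (r₂ / 2) := by positivity
  obtain ⟨δ, hδ, H⟩ := chainShadow hsh hε
  obtain ⟨m, s, -, hs0, hsm, hsd⟩ := hxy δ hδ
  obtain ⟨z, hz1, hz2⟩ := H m s hsd
  rw [hs0, mem_Sp_symm] at hz1
  rw [hsm] at hz2
  have hzx : dist z x < r₁ := by
    have h1 := hz1 0
    simp only [Nat.cast_zero, neg_zero, ev_zero] at h1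
    have h2 : min (r₁ / 2) (r₂ / 2) ≤ r₁ / 2 := min_le_left _ _
    linarith
  have hzy : dist (ev f m z) y₀ < r₂ := by
    have h1 := hz2 0
    simp only [Nat.cast_zero, ev_zero] at h1
    have h2 : min (r₁ / 2) (r₂ / 2) ≤ r₂ / 2 := min_le_right _ _
    linarith
  exact ⟨U', hT', ⟨y₀, att_sub hyA⟩, hfr, hTr, z, hb₁ (Metric.mem_ball.2 hzx), m,
    hb₂ (Metric.mem_ball.2 hzy)⟩

end Pool.Agent.Lib.MP610fe3.HF
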