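import Pool.Agent.Lib.MP_610fe3_an.HF.Spec

/-!
# Hyperbolic factors: brackets depend continuously on the points
-/

open Set Filter Function
open scoped Topology Pointwise

namespace Pool.Agent.Lib.MP610fe3.HF

open TM N3 FT

variable {X : Type*} [MetricSpace X] {f : X ≃ₜ X} {U : Set X} {e C a : ℝ}

/-- Uniqueness of the bracket. -/
theorem bracket_unique (R : Rates f U e C a a a) {ε : ℝ} (hε : 2 * ε ≤ e) {x y b b' : X}
    (h1 : b ∈ Sp f ε x) (h2 : b ∈ Sp f.symm ε y) (h1' : b' ∈ Sp f ε x)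
    (h2' : b' ∈ Sp f.symm ε y) : b = b' :=
  EQ.uni R (Sp_mono (by linarith) (Sp_trans (Sp_comm h1') h1))
    (Sp_mono (by linarith) (Sp_trans (Sp_comm h2') h2))

/-- A selection of brackets is continuous. -/
theorem contOn_bracket [CompactSpace X] (R : Rates f U e C a a a) {ε : ℝ} (hε : 2 * ε ≤ e)
    {Z : Type*} [TopologicalSpace Z] {K : Set Z} {φ ψ b : Z → X} (hφ : ContinuousOn φ K)
    (hψ : ContinuousOn ψ K) (hb : ∀ z ∈ K, b z ∈ Sp f ε (φ z) ∧ b z ∈ Sp f.symm ε (ψ z)) :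
    ContinuousOn b K := by
  intro z hz
  refine (tendsto_iff_ultrafilter _ _ _).2 fun g hg => ?_
  have hgK : ∀ᶠ x in (g : Filter Z), x ∈ K := (le_inf_iff.1 hg).2 (mem_principal_self K)
  obtain ⟨y, -, hy⟩ := isCompact_univ.ultrafilter_le_nhds (g.map b) (by simp)
  have hφ' : Tendsto φ g (𝓝 (φ z)) := (hφ z hz).mono_left hg
  have hψ' : Tendsto ψ g (𝓝 (ψ z)) := (hψ z hz).mono_left hg
  have h1 : y ∈ Sp f ε (φ z) := (isClosed_rel f ε).mem_of_tendsto (hφ'.prodMk_nhds hy)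
    (hgK.mono fun x hx => (hb x hx).1)
  have h2 : y ∈ Sp f.symm ε (ψ z) := (isClosed_rel f.symm ε).mem_of_tendsto (hψ'.prodMk_nhds hy)
    (hgK.mono fun x hx => (hb x hx).2)
  rw [bracket_unique R hε (hb z hz).1 (hb z hz).2 h1 h2]
  exact hy

/-- A semiconjugacy commutes with all powers. -/
theorem sc_ev {f : X ≃ₜ X} {Y : Type*} [MetricSpace Y] {g : Y ≃ₜ Y} {h : X → Y}
    (hs : ∀ x, h (f x) = g (h x)) (n : ℤ) (x : X) : h (ev f n x) = ev g n (h x) := by
  have key : ∀ (n : ℕ) (x : X), h (ev f n x) = ev g n (h x) := by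
    intro n
    induction n with
    | zero => intro x; simp
    | succ n ih =>
      intro x
      rw [Nat.cast_succ, add_comm, ev_add, ev_add, ev_one, ev_one, hs, ih]
  rcases Int.eq_nat_or_neg n with ⟨n, rfl | rfl⟩
  · exact key n x
  · apply ev_injective (f := g) (n : ℤ)
    rw [← key, ev_ev_neg, ev_ev_neg]

end Pool.Agent.Lib.MP610fe3.HF
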