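import Pool.Agent.Lib.MP_610fe3_an.HF.Spec

/-! # Module CMP of HF: the choice of `q` and of the compact sets -/

open Set Filter Function
open scoped Topology Pointwise

namespace Pool.Agent.Lib.MP610fe3.HF

open TM N3 FT

universe u v w

namespace CmpM

section alg

variable {G : Type w} [Group G] {L : G ≃* G}

theorem lv_comm (m n : ℤ) (v : G) : lv L m (lv L n v) = lv L n (lv L m v) := by
  rw [← lv_add, ← lv_add, add_comm]

theorem pr_image {q : ℕ} {A : Set G} (m : ℤ) {k : ℕ} {P : G} (h : Pr L q (lv L m '' A) k P) :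
    ∃ P₁, Pr L q A k P₁ ∧ P = lv L m P₁ := by
  induction h with
  | zero => exact ⟨1, Pr.zero, by simp⟩
  | succ k P d _ hd ih =>
    obtain ⟨P₁, h1, rfl⟩ := ih
    obtain ⟨d₁, hd₁, rfl⟩ := hd
    refine ⟨_, Pr.succ k P₁ d₁ h1 hd₁, ?_⟩
    rw [lv_mul, lv_comm]

theorem pr_last {q : ℕ} {A : Set G} : ∀ (k : ℕ) (P : G), Pr L q A (k + 1) P →
    ∃ P' d, d ∈ A ∧ Pr L q A k P' ∧ P = lv L (-(q : ℤ)) P' * d := by
  intro k
  induction k with
  | zero =>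
    intro P h
    cases h with
    | succ k P d hP hd =>
      cases hP
      exact ⟨1, d, hd, Pr.zero, by simp⟩
  | succ k ih =>
    intro P h
    cases h with
    | succ k' P₁ d' hP hd =>
      obtain ⟨P₁', d, hd1, hP1, rfl⟩ := ih P₁ hP
      refine ⟨_, d, hd1, Pr.succ k P₁' d' hP1 hd, ?_⟩
      rw [lv_mul, ← lv_add, mul_assoc]
      congr 3
      push_cast
      ring

end alg

end CmpM

open CmpM

theorem specCmp : SpecCmp.{v, w} := by
  intro Y _ G _ _ _ _ _ _ L g S T sp up H D₀ K₀ hD₀ hD₀T hD₀1 hK₀ hK₀S hK₀1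
  have hScl : IsClosed (S : Set G) := by
    have : (S : Set G) = up ⁻¹' {1} := by
      ext v
      exact H.mem_S_iff v
    rw [this]
    exact isClosed_singleton.preimage H.cup
  have hTcl : IsClosed (T : Set G) := by
    have : (T : Set G) = sp ⁻¹' {1} := by
      ext v
      exact H.mem_T_iff v
    rw [this]
    exact isClosed_singleton.preimage H.csp
  obtain ⟨O₁, hO₁c, hO₁⟩ := exists_compact_mem_nhds (1 : G)
  have hO₁1 : (1 : G) ∈ O₁ := mem_of_mem_nhds hO₁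
  set DD : Set G := (D₀ * O₁) ∩ T with hDD
  have hDDc : IsCompact DD := (hD₀.mul hO₁c).inter_right hTcl
  have hDDT : DD ⊆ T := inter_subset_right
  have hDD1 : (1 : G) ∈ DD := ⟨⟨1, hD₀1, 1, hO₁1, mul_one 1⟩, T.one_mem⟩
  set OT : Set G := O₁ ∩ T with hOT
  have hOTc : IsCompact OT := hO₁c.inter_right hTcl
  set VV : Set G := OT * DD with hVV
  have hVVc : IsCompact VV := hOTc.mul hDDc
  have hVVT : VV ⊆ T := by
    rintro _ ⟨a, ha, b, hb, rfl⟩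
    exact T.mul_mem ha.2 (hDDT hb)
  -- the neighbourhood `O_s`
  obtain ⟨Os, hOs, hOsc, hOsp⟩ : ∃ Os ∈ 𝓝 (1 : G), IsCompact Os ∧
      ∀ V ∈ D₀, ∀ σ ∈ Os, V⁻¹ * up (V * σ) ∈ O₁ := by
    have hF : Continuous fun p : G × G => p.1⁻¹ * up (p.1 * p.2) :=
      (continuous_fst.inv).mul (H.cup.comp (continuous_fst.mul continuous_snd))
    have hW : IsOpen ((fun p : G × G => p.1⁻¹ * up (p.1 * p.2)) ⁻¹' interior O₁) :=
      isOpen_interior.preimage hF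
    obtain ⟨u, v, hu, hv, hDu, h1v, huv⟩ := generalized_tube_lemma hD₀
      (isCompact_singleton (x := (1 : G))) hW (by
        rintro ⟨V, σ⟩ ⟨hV, hσ⟩
        simp only [mem_singleton_iff] at hσ
        subst hσ
        show V⁻¹ * up (V * 1) ∈ interior O₁
        rw [mul_one, H.up_t (hD₀T hV), inv_mul_cancel]
        exact mem_interior_iff_mem_nhds.2 hO₁)
    obtain ⟨Os, hOs1, hOs2, hOs3⟩ := local_compact_nhds (hv.mem_nhds (h1v rfl))
    refine ⟨Os, hOs1, hOs3, fun V hV σ hσ => ?_⟩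
    have h1 : (V, σ) ∈ u ×ˢ v := ⟨hDu hV, hOs2 hσ⟩
    have h2 : (V, σ) ∈ (fun p : G × G => p.1⁻¹ * up (p.1 * p.2)) ⁻¹' interior O₁ := huv h1
    exact interior_subset h2
  have hOs1 : (1 : G) ∈ Os := mem_of_mem_nhds hOs
  -- the compact set `K₁`
  set K₁ : Set G := (fun p : G × G => (sp (p.1 * p.2⁻¹))⁻¹) '' (VV ×ˢ K₀) with hK₁
  have hK₁c : IsCompact K₁ := (hVVc.prod hK₀).image
    (H.csp.comp (continuous_fst.mul continuous_snd.inv)).inv
  have hK₁S : K₁ ⊆ S := by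
    rintro _ ⟨p, _, rfl⟩
    exact S.inv_mem (H.mem_s _)
  obtain ⟨N₁, hN₁⟩ := eventually_atTop.1 (H.conT VV hVVc hVVT O₁ hO₁)
  obtain ⟨N₂, hN₂⟩ := eventually_atTop.1 (H.conS K₁ hK₁c hK₁S Os hOs)
  set q : ℕ := max 1 (max N₁ N₂) with hq
  have hq1 : 1 ≤ q := le_max_left _ _
  have hqN₁ : N₁ ≤ q := (le_max_left _ _).trans (le_max_right _ _)
  have hqN₂ : N₂ ≤ q := (le_max_right _ _).trans (le_max_right _ _)
  have hprV : ∀ (k : ℕ) (P : G), Pr L q DD (k + 1) P → P ∈ VV := by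
    intro k
    induction k with
    | zero =>
      intro P h
      obtain ⟨P', d, hd, hP', rfl⟩ := pr_last 0 P h
      cases hP'
      rw [lv_one]
      exact ⟨1, ⟨hO₁1, T.one_mem⟩, d, hd, rfl⟩
    | succ k ih =>
      intro P h
      obtain ⟨P', d, hd, hP', rfl⟩ := pr_last (k + 1) P h
      have h1 := ih P' hP'
      exact ⟨_, ⟨hN₁ q hqN₁ P' h1, (H.lv_T _ _).1 (hVVT h1)⟩, d, hd, rfl⟩
  refine ⟨q, hq1, fun m => ⟨lv L m '' DD, lv L m '' Os, lv L m '' (K₁ ∪ (Os ∩ S)),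
    ⟨1, hDD1, lv_one _⟩, ⟨1, hOs1, lv_one _⟩, ?_, ?_, ?_, ?_⟩⟩
  · exact (hK₁c.union (hOsc.inter_right hScl)).image (H.continuous_lv m)
  · rintro _ ⟨s, hs, rfl⟩
    refine (H.lv_S _ _).1 ?_
    rcases hs with hs | hs
    · exact hK₁S hs
    · exact hs.2
  · rintro _ ⟨V, hV, rfl⟩ _ ⟨σ, hσ, rfl⟩
    rw [← lv_mul, (H.lv_sp m (V * σ)).2]
    refine ⟨_, ⟨⟨V, hV, _, hOsp V hV σ hσ, ?_⟩, H.mem_t _⟩, rfl⟩
    simp
  · rintro k P hP _ ⟨d₁, hd₁, rfl⟩ σ hσ _ ⟨σ₁, hσ₁, rfl⟩ hT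
    obtain ⟨P₁, hP₁, rfl⟩ := pr_image (m : ℤ) hP
    have hV := hprV k _ (Pr.succ k P₁ d₁ hP₁ hd₁)
    set V : G := lv L (-((q * k : ℕ) : ℤ)) d₁ * P₁ with hVdef
    set σ' : G := lv L (-(m : ℤ)) σ with hσ'
    have hσ'S : σ' ∈ S := (H.lv_S _ _).1 hσ
    have hσσ' : lv L m σ' = σ := lv_lv_neg _ _
    set s : G := lv L (-((q * k : ℕ) : ℤ)) σ' with hs
    have hsS : s ∈ S := (H.lv_S _ _).1 hσ'S
    have hsσ' : lv L ((q * k : ℕ) : ℤ) s = σ' := lv_lv_neg _ _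
    have hT' : s * (V * σ₁⁻¹) ∈ T := by
      rw [H.lv_T m]
      have e1 : lv L m (s * (V * σ₁⁻¹)) = lv L (-((q * k : ℕ) : ℤ)) (σ * lv L m d₁) *
          lv L m P₁ * (lv L m σ₁)⁻¹ := by
        rw [hVdef, hs]
        simp only [lv_mul, lv_inv]
        rw [lv_comm (m : ℤ) (-((q * k : ℕ) : ℤ)) σ', hσσ', lv_comm (m : ℤ) _ d₁]
        group
      rw [e1]
      exact hT
    have hsp : sp (V * σ₁⁻¹) = s⁻¹ :=
      (H.uniq (S.inv_mem hsS) hT' (by group)).1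
    have hsK : s ∈ K₁ := ⟨(V, σ₁), ⟨hV, hσ₁⟩, by
      show (sp (V * σ₁⁻¹))⁻¹ = s
      rw [hsp, inv_inv]⟩
    constructor
    · refine ⟨σ', ?_, hσσ'⟩
      rcases Nat.eq_zero_or_pos k with hk | hk
      · left
        rw [← hsσ', hk]
        simpa using hsK
      · right
        refine ⟨?_, hσ'S⟩
        rw [← hsσ']
        exact hN₂ (q * k) (hqN₂.trans (Nat.le_mul_of_pos_right q hk)) s hsK
    · refine ⟨lv L q σ', ?_, ?_⟩
      · have e2 : lv L q σ' = lv L ((q * (k + 1) : ℕ) : ℤ) s := by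
          rw [← hsσ', ← lv_add]
          congr 1
          push_cast
          ring
        rw [e2]
        exact hN₂ (q * (k + 1)) (hqN₂.trans (Nat.le_mul_of_pos_right q (Nat.succ_pos k))) s hsK
      · rw [lv_comm, hσσ']

end Pool.Agent.Lib.MP610fe3.HF
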