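import Pool.Agent.Lib.MP_610fe3_an.HF.Brk

/-!
# Hyperbolic factors: module COR

There is a continuum in an unstable plaque of the attractor on which `h` is constant.
-/

open Set Filter Function
open scoped Topology Pointwise

namespace Pool.Agent.Lib.MP610fe3.HF

open TM N3 FT

universe u v w

theorem Hyp.closed_S {G : Type*} [Group G] [TopologicalSpace G] [T2Space G] {Y : Type*}
    [MetricSpace Y] [MulAction G Y] {L : G ≃* G} {g : Y ≃ₜ Y} {S T : Subgroup G} {sp up : G → G}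
    (H : Hyp L g S T sp up) : IsClosed (S : Set G) := by
  have h1 : (S : Set G) = up ⁻¹' {1} := by
    ext v
    exact H.mem_S_iff v
  rw [h1]
  exact isClosed_singleton.preimage H.cup

theorem Hyp.closed_T {G : Type*} [Group G] [TopologicalSpace G] [T2Space G] {Y : Type*}
    [MetricSpace Y] [MulAction G Y] {L : G ≃* G} {g : Y ≃ₜ Y} {S T : Subgroup G} {sp up : G → G}
    (H : Hyp L g S T sp up) : IsClosed (T : Set G) := by
  have h1 : (T : Set G) = sp ⁻¹' {1} := by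
    ext v
    exact H.mem_T_iff v
  rw [h1]
  exact isClosed_singleton.preimage H.csp

/-- COR. -/
theorem specCor (hDsp : SpecDsp.{v, w}) (hHds : SpecHds.{u, v, w}) (hCmp : SpecCmp.{v, w})
    (hSml : SpecSml.{v, w}) (hF2u : SpecF2u.{u, v, w}) (hWkm : SpecWkm.{u, v, w})
    (hNop : SpecNop.{u, v}) (hHul : SpecHul.{u, v, w}) (hNgd : SpecNgd.{u, v, w})
    (hStb : SpecStb.{u, v, w}) : SpecCor.{u, v, w} := by
  intro X _ _ Y _ _ G _ _ _ _ _ _ _ f h L g S T sp up U e C a c e' C' a' c' B B' H hh hs hT hfr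
  have R := B.rates U
  have hC1 := R.C1
  have he := R.e0
  obtain ⟨Q, hY, -⟩ := hDsp Y G L g S T sp up H
  have hD : HD f h Q S T := hHds X Y G f g h Q S T hh hs hY
  obtain ⟨D₀, hD₀c, hD₀T, hD₀1, hF⟩ := hF2u X Y G f h U e C a c Q S T B hT H.closed_T hD
  obtain ⟨K₀, hK₀c, hK₀S, hK₀1, hF'⟩ := hF2u X Y G f.symm h (closure U)ᶜ e' C' a' c' Q T S B'
    hT.dual H.closed_S hD.symm
  obtain ⟨q, hq, hCq⟩ := hCmp Y G L g S T sp up H D₀ K₀ hD₀c hD₀T hD₀1 hK₀c hK₀S hK₀1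
  obtain ⟨ρQ, hρQ, hEQ⟩ := hD.un univ univ_mem
  set E : ℝ := min (e / 8) ρQ with hE
  have hE0 : 0 < E := by positivity
  have hE8 : E ≤ e / 8 := min_le_left _ _
  have hEρ : E ≤ ρQ := min_le_right _ _
  have hEe : E ≤ e := by linarith
  set c₁ : ℝ := E / (2 * C) with hc₁
  have hc₁0 : 0 < c₁ := by positivity
  have hCc₁ : C * c₁ ≤ E / 2 := by
    rw [hc₁]
    apply le_of_eq
    field_simp
  by_contra hnot
  have hno : ¬ ∃ K : Set X, TC.Cl f (Att f U) c₁ (2 * E) K ∧ ∀ x ∈ K, ∀ y ∈ K, h x = h y := by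
    rintro ⟨K, hK⟩
    exact hnot ⟨2 * E, c₁, hc₁0, by linarith, K, hK⟩
  obtain ⟨θ, hθ, m₀, hNo⟩ := hNop X f U e C a c Y h (2 * E) c₁ B hT hh hc₁0 (by linarith) hno
  set m : ℕ := q + m₀ with hm
  set U' : Set X := {x | ev f (-(m : ℤ)) x ∈ U} with hU'
  have hT' : Trap f U' := EQ.trap_iter hT m
  have hA' : Att f U' = Att f U := EQ.att_iter hT m
  obtain ⟨D, O', 𝒦, hD1, hO1, h𝒦c, h𝒦S, hcm1, hcm3⟩ := hCq m
  obtain ⟨hsm1, hsm2⟩ := hSml Y G L g S T sp up H Q 𝒦 hD.cpt h𝒦c h𝒦S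
  obtain ⟨Bs, hBs, hB1⟩ := hsm1 (θ / 2) (by positivity)
  obtain ⟨O, hO, hO2⟩ := hsm2 Bs hBs
  -- the size of the small plaques
  obtain ⟨r, hr, hlo₀⟩ := (hHul X Y G ⟨f, h, L, sp, up, U', Q ∩ T, Bs, D, E, 0, q⟩ S T Q 𝒦 e C a c
    B hD rfl hE0 hEe).2 O hO hO2
  obtain ⟨r', hr', O'', hO'', hw⟩ := hWkm X Y G f h L g S T sp up Q H hs hD.nhd (m : ℤ) r hr univ
    univ_mem
  obtain ⟨N, hN⟩ := hF r' hr' O'' hO''
  set M : Mach X Y G := ⟨f, h, L, sp, up, U', Q ∩ T, Bs, D, E, N, q⟩ with hM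
  have hMH : MH M g S T Q (lv L m '' K₀) 𝒦 O' (lv L m '' D₀) e C a (E / 2) r :=
    { hyp := H
      sc := hs
      trap := hT'
      rates := B.rates U'
      hd := hD
      t₁ := rfl
      q1 := hq
      E0 := hE0
      Ee := hEe
      EQ := by
        intro z y hy
        obtain ⟨v, -, hv1, hv2, hv3⟩ := hEQ z y (Sp_mono hEρ hy)
        exact ⟨v, ⟨hv1, hv2⟩, hv3⟩
      ε0 := by positivity
      εE := by
        show 2 * (E / 2) ≤ E
        linarith
      one_D := hD1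
      one_O := hO1
      one_K := ⟨1, hK₀1, lv_one _⟩
      K₀S := by
        rintro _ ⟨v, hv, rfl⟩
        exact (H.lv_S _ _).1 (hK₀S hv)
      cm1 := fun V hV σ hσ _ => hcm1 V hV σ hσ
      cm3 := hcm3
      hup := (hHul X Y G M S T Q 𝒦 e C a c B hD rfl hE0 hEe).1 U m₀ θ c₁ (E / 2) hNo (by
        intro z hz
        have h1 : ev f (-(m : ℤ)) (ev f q z) ∈ U := hz
        rwa [← ev_add, show -(m : ℤ) + (q : ℤ) = -(m₀ : ℤ) by rw [hm]; push_cast; ring] at h1)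
        hc₁0 hCc₁ hB1
      hlo := by
        intro σ hσ z y hy
        obtain ⟨K, hK1, hK2⟩ := hlo₀ σ hσ z y hy
        exact ⟨K, hK1, ⟨hK2.cpt, hK2.conn, hK2.mem, hK2.sub, hK2.disp⟩⟩
      hF2 := by
        intro x hx
        have hx₁ : ev f (-1) (ev f (-(m : ℤ)) x) ∉ U := by
          intro h1
          apply hx
          show ev f (-(m : ℤ)) (ev f (-1) x) ∈ U
          rw [← ev_add, add_comm, ev_add]
          exact h1
        obtain ⟨k, hk, y₁, hy₁, V, hV⟩ := hN _ hx₁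
        have hw' := hw D₀ _ k y₁ V hV
        rw [univ_inter, ev_ev_neg] at hw'
        refine ⟨k, hk, ev f m y₁, fun n hn => hy₁ n ?_, _, hw'⟩
        have h1 : ev f (-(m : ℤ)) (ev f n (ev f m y₁)) ∈ U := hn
        rwa [← ev_add, ← ev_add, show -(m : ℤ) + (n : ℤ) + (m : ℤ) = (n : ℤ) by ring] at h1 }
  obtain ⟨δ, hδ, hSt⟩ := hStb X Y G M g S T Q (lv L m '' K₀) 𝒦 O' (lv L m '' D₀) e C a (E / 2) r
    hMH
  -- the stable walk
  obtain ⟨y, hy⟩ := hfr
  rw [hT.isOpen.frontier_eq] at hy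
  have hs' : ∀ x, h (f.symm x) = g.symm (h x) := by
    intro x
    apply g.injective
    rw [← hs, f.apply_symm_apply, g.apply_symm_apply]
  obtain ⟨r₂, hr₂, O₂, hO₂, hw₂⟩ := hWkm X Y G f.symm h L.symm g.symm T S
    (fun v => (up v⁻¹)⁻¹) (fun v => (sp v⁻¹)⁻¹) Q H.symm hs' hD.nhd (-(m : ℤ)) δ hδ univ univ_mem
  obtain ⟨N₂, hN₂⟩ := hF' r₂ hr₂ O₂ hO₂
  obtain ⟨k, -, p, hp, V, hV⟩ := hN₂ (f y) (by
    rw [mem_compl_iff, not_not, ev_symm, neg_neg, ev_one]
    exact subset_closure (hT.maps _ (subset_closure (hT.maps _ hy.1))))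
  rw [rep_dual hT] at hp
  have hW := hw₂ K₀ (f y) k p V hV
  have e1 : lv L.symm (-(m : ℤ)) = lv L m := funext fun v => by rw [lv_symm, neg_neg]
  rw [univ_inter, e1, ev_symm, ev_symm, neg_neg] at hW
  -- the points of the attractor are good
  have hgA : ∀ p ∈ Att f U', ∀ σ₀, M.Good p σ₀ := by
    intro p hp σ₀
    have key : ∀ z σ d i k, M.Rch p σ₀ z σ d i k → z ∈ Att f U' := by
      intro z σ d i k hR
      induction hR with
      | start => exact hp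
      | move z z' σ d v i k K _ hz hAd hzK _ _ _ ih =>
        exact att_sat hT' ih (R.un_tendsto (Sp_mono hEe (hAd.sub z' hzK)))
      | pass z σ d i k _ hz ih => exact att_ev hT' ih q
    intro z σ d i k hR
    exact att_sub (att_ev hT' (key z σ d i k hR) q)
  -- back along the walk
  have key : ∀ x n z V, Wk f.symm h δ (Q ∩ S) (lv L m '' K₀) x n z V →
      V ∈ lv L m '' K₀ ∧ (M.Good z V → M.Good x 1) := by
    intro x n z V hWk
    induction hWk with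
    | zero => exact ⟨⟨1, hK₀1, lv_one _⟩, fun h => h⟩
    | succ n z z' V v hWk hz' hv hhv hvV ih =>
      refine ⟨hvV, fun hG => ih.2 ?_⟩
      have h1 : z ∈ Sp f δ z' := Sp_comm hz'
      have h2 : h z = v⁻¹ • h z' := by rw [hhv, inv_smul_smul]
      have h3 := hSt z' z v⁻¹ (v * V) hG hvV h1 (hD.inv v hv.1) (S.inv_mem hv.2) h2 (by
        rw [inv_mul_cancel_left]
        exact ih.1)
      rwa [inv_mul_cancel_left] at h3
  have hpA : ev f m p ∈ Att f U' := by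
    rw [hA']
    exact att_ev hT hp m
  have hG := (key _ _ _ _ hW).2 (hgA _ hpA _)
  have h4 := hNgd X Y G M g S T Q (lv L m '' K₀) 𝒦 O' (lv L m '' D₀) e C a (E / 2) r hMH
    (ev f m (f y)) 1 ⟨1, hK₀1, lv_one _⟩ hG (ev f m (f y)) 1 0 .start hO1
  have h5 : ev f (-(m : ℤ)) (ev f (-1) (ev f m (f y))) ∈ U := h4
  rw [← ev_add, ← ev_add, ← ev_one (f := f) y, ← ev_add,
    show -(m : ℤ) + -1 + (m : ℤ) + 1 = 0 by ring, ev_zero] at h5
  exact hy.2 h5

end Pool.Agent.Lib.MP610fe3.HF
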