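import Pool.Agent.Lib.MP_610fe3_an.FT.Main

/-!
# Hyperbolic factors: definitions and simple facts

`Y` is a compact metric space with an action of a locally compact group `G`, `g` a homeomorphism of
`Y`, `L` an automorphism of `G` with `g (v • y) = L v • g y`, and `G = S T`, where `L` contracts the
subgroup `S` and `L⁻¹` contracts the subgroup `T`.  The model is a hyperbolic affine map of a compact
nilmanifold `N / Γ`, with `G = N`.  `h : X → Y` is a semiconjugacy from `f` to `g`.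
-/

open Set Filter Function
open scoped Topology Pointwise

namespace Pool.Agent.Lib.MP610fe3.HF

open TM N3 FT

universe u v w

/-- Integer powers of an automorphism. -/
def lv {G : Type*} [Group G] (L : G ≃* G) (n : ℤ) (v : G) : G := ((L : MulAut G) ^ n) v

section Lv

variable {G : Type*} [Group G] {L : G ≃* G}

@[simp] theorem lv_zero (v : G) : lv L 0 v = v := by simp [lv]

theorem lv_add (m n : ℤ) (v : G) : lv L (m + n) v = lv L m (lv L n v) := by
  simp only [lv, zpow_add, MulAut.mul_apply]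

theorem lv_one' (v : G) : lv L 1 v = L v := by simp [lv]

@[simp] theorem lv_mul (n : ℤ) (v w : G) : lv L n (v * w) = lv L n v * lv L n w := by
  simp only [lv, map_mul]

@[simp] theorem lv_one (n : ℤ) : lv L n 1 = 1 := by simp only [lv, map_one]

@[simp] theorem lv_inv (n : ℤ) (v : G) : lv L n v⁻¹ = (lv L n v)⁻¹ := by simp only [lv, map_inv]

theorem lv_symm (n : ℤ) (v : G) : lv L.symm n v = lv L (-n) v := by
  have : (L.symm : MulAut G) = (L : MulAut G)⁻¹ := rfl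
  simp only [lv, this, inv_zpow, zpow_neg]

@[simp] theorem lv_neg_lv (n : ℤ) (v : G) : lv L (-n) (lv L n v) = v := by
  rw [← lv_add]; simp

@[simp] theorem lv_lv_neg (n : ℤ) (v : G) : lv L n (lv L (-n) v) = v := by
  rw [← lv_add]; simp

theorem lv_nat (n : ℕ) (v : G) : lv L n v = L^[n] v := by
  induction n with
  | zero => simp
  | succ n ih =>
    rw [iterate_succ_apply', ← ih, Nat.cast_succ, add_comm, lv_add, lv_one']

theorem lv_neg_nat (n : ℕ) (v : G) : lv L (-(n : ℤ)) v = L.symm^[n] v := by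
  rw [← lv_symm, lv_nat]

theorem lv_injective (n : ℤ) : Injective (lv L n) := ((L : MulAut G) ^ n).injective

end Lv

/-- Every element of `G` is `sp v * up v` with `sp v ∈ S`, `up v ∈ T`, in a unique way. -/
structure Fact {G : Type*} [Group G] (S T : Subgroup G) (sp up : G → G) : Prop where
  mem_s : ∀ v, sp v ∈ S
  mem_t : ∀ v, up v ∈ T
  mul : ∀ v, sp v * up v = v
  disj : ∀ v, v ∈ S → v ∈ T → v = 1

section Fact

variable {G : Type*} [Group G] {S T : Subgroup G} {sp up : G → G}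

theorem Fact.uniq (F : Fact S T sp up) {s t v : G} (hs : s ∈ S) (ht : t ∈ T) (h : s * t = v) :
    sp v = s ∧ up v = t := by
  have h1 : s⁻¹ * sp v = t * (up v)⁻¹ := by
    have h2 := F.mul v
    rw [← h] at h2 ⊢
    rw [inv_mul_eq_iff_eq_mul, ← mul_assoc, eq_mul_inv_iff_mul_eq, h2]
  have h3 : s⁻¹ * sp v = 1 := F.disj _ (S.mul_mem (S.inv_mem hs) (F.mem_s v))
    (by rw [h1]; exact T.mul_mem ht (T.inv_mem (F.mem_t v)))
  refine ⟨(inv_mul_eq_one.1 h3).symm, ?_⟩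
  rw [h1] at h3
  exact (mul_inv_eq_one.1 h3).symm

theorem Fact.sp_s (F : Fact S T sp up) {s : G} (hs : s ∈ S) : sp s = s :=
  (F.uniq hs T.one_mem (mul_one s)).1

theorem Fact.up_s (F : Fact S T sp up) {s : G} (hs : s ∈ S) : up s = 1 :=
  (F.uniq hs T.one_mem (mul_one s)).2

theorem Fact.sp_t (F : Fact S T sp up) {t : G} (ht : t ∈ T) : sp t = 1 :=
  (F.uniq S.one_mem ht (one_mul t)).1

theorem Fact.up_t (F : Fact S T sp up) {t : G} (ht : t ∈ T) : up t = t :=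
  (F.uniq S.one_mem ht (one_mul t)).2

theorem Fact.sp_smul (F : Fact S T sp up) {s : G} (hs : s ∈ S) (v : G) : sp (s * v) = s * sp v :=
  (F.uniq (S.mul_mem hs (F.mem_s v)) (F.mem_t v) (by rw [mul_assoc, F.mul])).1

theorem Fact.up_smul (F : Fact S T sp up) {s : G} (hs : s ∈ S) (v : G) : up (s * v) = up v :=
  (F.uniq (S.mul_mem hs (F.mem_s v)) (F.mem_t v) (by rw [mul_assoc, F.mul])).2

theorem Fact.sp_mult (F : Fact S T sp up) {t : G} (ht : t ∈ T) (v : G) : sp (v * t) = sp v :=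
  (F.uniq (F.mem_s v) (T.mul_mem (F.mem_t v) ht) (by rw [← mul_assoc, F.mul])).1

theorem Fact.up_mult (F : Fact S T sp up) {t : G} (ht : t ∈ T) (v : G) : up (v * t) = up v * t :=
  (F.uniq (F.mem_s v) (T.mul_mem (F.mem_t v) ht) (by rw [← mul_assoc, F.mul])).2

theorem Fact.symm (F : Fact S T sp up) : Fact T S (fun v => (up v⁻¹)⁻¹) (fun v => (sp v⁻¹)⁻¹) where
  mem_s v := T.inv_mem (F.mem_t _)
  mem_t v := S.inv_mem (F.mem_s _)
  mul v := by rw [← mul_inv_rev, F.mul, inv_inv]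
  disj v h1 h2 := F.disj v h2 h1

theorem Fact.mem_S_iff (F : Fact S T sp up) (v : G) : v ∈ S ↔ up v = 1 := by
  refine ⟨fun h => F.up_s h, fun h => ?_⟩
  have h1 := F.mul v
  rw [h, mul_one] at h1
  rw [← h1]
  exact F.mem_s v

theorem Fact.mem_T_iff (F : Fact S T sp up) (v : G) : v ∈ T ↔ sp v = 1 := by
  refine ⟨fun h => F.sp_t h, fun h => ?_⟩
  have h1 := F.mul v
  rw [h, one_mul] at h1
  rw [← h1]
  exact F.mem_t v

end Fact

/-- Hyperbolic actions. -/
structure Hyp {G : Type*} [Group G] [TopologicalSpace G] {Y : Type*} [MetricSpace Y]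
    [MulAction G Y] (L : G ≃* G) (g : Y ≃ₜ Y) (S T : Subgroup G) (sp up : G → G) : Prop extends
    Fact S T sp up where
  cL : Continuous L
  cL' : Continuous L.symm
  csp : Continuous sp
  cup : Continuous up
  act : ∀ (v : G) (y : Y), g (v • y) = L v • g y
  free : ∃ O ∈ 𝓝 (1 : G), ∀ v ∈ O, ∀ y : Y, v • y = y → v = 1
  trans : ∀ O ∈ 𝓝 (1 : G), ∃ δ : ℝ, 0 < δ ∧ ∀ y y' : Y, dist y y' < δ → ∃ v ∈ O, v • y = y'
  LS : ∀ v, v ∈ S ↔ L v ∈ S
  LT : ∀ v, v ∈ T ↔ L v ∈ T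
  conS : ∀ K : Set G, IsCompact K → K ⊆ S → ∀ O ∈ 𝓝 (1 : G), ∀ᶠ n : ℕ in atTop, ∀ v ∈ K,
    lv L n v ∈ O
  conT : ∀ K : Set G, IsCompact K → K ⊆ T → ∀ O ∈ 𝓝 (1 : G), ∀ᶠ n : ℕ in atTop, ∀ v ∈ K,
    lv L (-(n : ℤ)) v ∈ O

section Hyp

variable {G : Type*} [Group G] [TopologicalSpace G] {Y : Type*} [MetricSpace Y] [MulAction G Y]
  {L : G ≃* G} {g : Y ≃ₜ Y} {S T : Subgroup G} {sp up : G → G}

theorem Hyp.continuous_lv (H : Hyp L g S T sp up) (n : ℤ) : Continuous (lv L n) := by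
  rcases Int.eq_nat_or_neg n with ⟨n, rfl | rfl⟩
  · have h1 : lv L n = L^[n] := funext fun v => lv_nat n v
    rw [h1]
    exact H.cL.iterate n
  · have h1 : lv L (-(n : ℤ)) = L.symm^[n] := funext fun v => lv_neg_nat n v
    rw [h1]
    exact H.cL'.iterate n

theorem Hyp.lv_S (H : Hyp L g S T sp up) (n : ℤ) (v : G) : v ∈ S ↔ lv L n v ∈ S := by
  have key : ∀ (n : ℕ) (v : G), v ∈ S ↔ lv L n v ∈ S := by
    intro n
    induction n with
    | zero => intro v; simp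
    | succ n ih =>
      intro v
      rw [ih v, H.LS (lv L n v), ← lv_one' (L := L), ← lv_add, Nat.cast_succ, add_comm]
  rcases Int.eq_nat_or_neg n with ⟨n, rfl | rfl⟩
  · exact key n v
  · rw [key n (lv L (-(n : ℤ)) v), lv_lv_neg]

theorem Hyp.lv_T (H : Hyp L g S T sp up) (n : ℤ) (v : G) : v ∈ T ↔ lv L n v ∈ T := by
  have key : ∀ (n : ℕ) (v : G), v ∈ T ↔ lv L n v ∈ T := by
    intro n
    induction n with
    | zero => intro v; simp
    | succ n ih =>
      intro v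
      rw [ih v, H.LT (lv L n v), ← lv_one' (L := L), ← lv_add, Nat.cast_succ, add_comm]
  rcases Int.eq_nat_or_neg n with ⟨n, rfl | rfl⟩
  · exact key n v
  · rw [key n (lv L (-(n : ℤ)) v), lv_lv_neg]

theorem Hyp.lv_sp (H : Hyp L g S T sp up) (n : ℤ) (v : G) :
    sp (lv L n v) = lv L n (sp v) ∧ up (lv L n v) = lv L n (up v) :=
  H.uniq ((H.lv_S n _).1 (H.mem_s v)) ((H.lv_T n _).1 (H.mem_t v)) (by rw [← lv_mul, H.mul])

theorem Hyp.ev_smul (H : Hyp L g S T sp up) (n : ℤ) (v : G) (y : Y) :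
    ev g n (v • y) = lv L n v • ev g n y := by
  have key : ∀ (n : ℕ) (v : G) (y : Y), ev g n (v • y) = lv L n v • ev g n y := by
    intro n
    induction n with
    | zero => intro v y; simp
    | succ n ih =>
      intro v y
      rw [Nat.cast_succ, add_comm, ev_add, ev_add, lv_add, ih, ev_one, ev_one, H.act, lv_one']
  rcases Int.eq_nat_or_neg n with ⟨n, rfl | rfl⟩
  · exact key n v y
  · apply ev_injective (f := g) (n : ℤ)
    rw [ev_ev_neg, key, lv_lv_neg, ev_ev_neg]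

/-- The same system with time reversed. -/
theorem Hyp.symm [IsTopologicalGroup G] (H : Hyp L g S T sp up) :
    Hyp L.symm g.symm T S (fun v => (up v⁻¹)⁻¹) (fun v => (sp v⁻¹)⁻¹) where
  toFact := H.toFact.symm
  cL := H.cL'
  cL' := H.cL
  csp := (H.cup.comp continuous_inv).inv
  cup := (H.csp.comp continuous_inv).inv
  act v y := by
    apply g.injective
    rw [g.apply_symm_apply, H.act, L.apply_symm_apply, g.apply_symm_apply]
  free := H.free
  trans := H.trans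
  LS v := by
    rw [H.LT (L.symm v), L.apply_symm_apply]
  LT v := by
    rw [H.LS (L.symm v), L.apply_symm_apply]
  conS K hK hKT O hO := by
    filter_upwards [H.conT K hK hKT O hO] with n hn v hv
    rw [lv_symm]
    exact hn v hv
  conT K hK hKS O hO := by
    filter_upwards [H.conS K hK hKS O hO] with n hn v hv
    rw [lv_symm, neg_neg]
    exact hn v hv

end Hyp

/-- Displacements: close points on a stable (unstable) set have images which differ by a small element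
of `S` (of `T`); small elements are determined by their action on a point. -/
structure HD {X : Type*} [MetricSpace X] {Y : Type*} {G : Type*} [Group G] [TopologicalSpace G]
    [MulAction G Y] (f : X ≃ₜ X) (h : X → Y) (Q : Set G) (S T : Subgroup G) : Prop where
  cpt : IsCompact Q
  nhd : Q ∈ 𝓝 (1 : G)
  inv : ∀ v ∈ Q, v⁻¹ ∈ Q
  uniq : ∀ v ∈ Q * Q, ∀ w ∈ Q * Q, ∀ y : Y, v • y = w • y → v = w
  st : ∀ O ∈ 𝓝 (1 : G), ∃ ρ : ℝ, 0 < ρ ∧ ∀ z y : X, y ∈ Sp f ρ z →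
    ∃ v ∈ O, v ∈ Q ∧ v ∈ S ∧ h y = v • h z
  un : ∀ O ∈ 𝓝 (1 : G), ∃ ρ : ℝ, 0 < ρ ∧ ∀ z y : X, y ∈ Sp f.symm ρ z →
    ∃ v ∈ O, v ∈ Q ∧ v ∈ T ∧ h y = v • h z

section HD

variable {X : Type*} [MetricSpace X] {Y : Type*} {G : Type*} [Group G] [TopologicalSpace G]
  [MulAction G Y] {f : X ≃ₜ X} {h : X → Y} {Q : Set G} {S T : Subgroup G}

theorem HD.symm (H : HD f h Q S T) : HD f.symm h Q T S where
  cpt := H.cpt
  nhd := H.nhd
  inv := H.inv
  uniq := H.uniq
  st := H.un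
  un := H.st

theorem HD.one (H : HD f h Q S T) : (1 : G) ∈ Q := mem_of_mem_nhds H.nhd

theorem HD.sub (H : HD f h Q S T) {v : G} (hv : v ∈ Q) : v ∈ Q * Q :=
  ⟨v, hv, 1, H.one, mul_one v⟩

theorem HD.uniq' (H : HD f h Q S T) {v w : G} (hv : v ∈ Q) (hw : w ∈ Q) {y : Y}
    (h1 : v • y = w • y) : v = w := H.uniq v (H.sub hv) w (H.sub hw) y h1

end HD

/-- A walk of `n` steps in the local unstable sets; `V` is the total displacement. `O` is the set of the
displacements of the steps and `D` a set which contains the partial displacements. -/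
inductive Wk {X : Type*} [MetricSpace X] {Y : Type*} {G : Type*} [Group G] [MulAction G Y]
    (f : X ≃ₜ X) (h : X → Y) (r : ℝ) (O D : Set G) (x : X) : ℕ → X → G → Prop
  | zero : Wk f h r O D x 0 x 1
  | succ (n : ℕ) (y y' : X) (V v : G) : Wk f h r O D x n y V → y' ∈ Sp f.symm r y → v ∈ O →
      h y' = v • h y → v * V ∈ D → Wk f h r O D x (n + 1) y' (v * V)

/-- The products `L⁻ᵍ⁽ᵏ⁻¹⁾ a (k - 1) * ... * L⁻ᵍ (a 1) * a 0` (with `q` instead of `g`). -/
inductive Pr {G : Type*} [Group G] (L : G ≃* G) (q : ℕ) (D : Set G) : ℕ → G → Prop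
  | zero : Pr L q D 0 1
  | succ (k : ℕ) (P d : G) : Pr L q D k P → d ∈ D → Pr L q D (k + 1) (lv L (-((q * k : ℕ) : ℤ)) d * P)

/-- The data of the machine. -/
structure Mach (X : Type u) [MetricSpace X] (Y : Type v) (G : Type w) [Group G] where
  f : X ≃ₜ X
  h : X → Y
  L : G ≃* G
  sp : G → G
  up : G → G
  U : Set X
  T₁ : Set G
  B : Set G
  D : Set G
  E : ℝ
  N : ℕ
  q : ℕ

section Mach

variable {X : Type u} [MetricSpace X] {Y : Type v} {G : Type w} [Group G] [MulAction G Y]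

/-- `K` is a continuum in the plaque of `z`, whose displacements are small as seen from `σ`. -/
structure Mach.Ad (M : Mach X Y G) (σ : G) (z : X) (K : Set X) : Prop where
  cpt : IsCompact K
  conn : IsConnected K
  mem : z ∈ K
  sub : ∀ w ∈ K, w ∈ Sp M.f.symm M.E z
  disp : ∀ w ∈ K, ∃ u ∈ M.T₁, M.h w = u • M.h z ∧ M.up (u * σ) ∈ M.B

/-- `M.Rch x σ₀ z σ d i k`: the state `(z, σ, d)` can be reached from `(x, σ₀, 1)` with `k` passages to
the image under `f^q`; `i` moves remain before the next passage. -/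
inductive Mach.Rch (M : Mach X Y G) (x : X) (σ₀ : G) : X → G → G → ℕ → ℕ → Prop
  | start : M.Rch x σ₀ x σ₀ 1 M.N 0
  | move (z z' : X) (σ d v : G) (i k : ℕ) (K : Set X) : M.Rch x σ₀ z σ d (i + 1) k →
      ev M.f M.q z ∈ M.U → M.Ad σ z K → z' ∈ K → v ∈ M.T₁ → M.h z' = v • M.h z →
      M.up (v * σ) * d ∈ M.D → M.Rch x σ₀ z' (M.sp (v * σ)) (M.up (v * σ) * d) i k
  | pass (z : X) (σ d : G) (i k : ℕ) : M.Rch x σ₀ z σ d i k → ev M.f M.q z ∈ M.U →
      M.Rch x σ₀ (ev M.f M.q z) (lv M.L M.q σ) 1 M.N (k + 1)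

/-- The pairs from which one never leaves `f^(-q) U`. -/
def Mach.Good (M : Mach X Y G) (x : X) (σ₀ : G) : Prop :=
  ∀ z σ d i k, M.Rch x σ₀ z σ d i k → ev M.f M.q z ∈ M.U

/-- The hypotheses of the modules NGD and STB. -/
structure MH [TopologicalSpace G] [MetricSpace Y] (M : Mach X Y G) (g : Y ≃ₜ Y) (S T : Subgroup G)
    (Q K₀ 𝒦 O' D₀ : Set G) (e C a ε₁ r : ℝ) : Prop where
  hyp : Hyp M.L g S T M.sp M.up
  sc : ∀ x, M.h (M.f x) = g (M.h x)
  trap : Trap M.f M.U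
  rates : Rates M.f M.U e C a a a
  hd : HD M.f M.h Q S T
  t₁ : M.T₁ = Q ∩ T
  q1 : 1 ≤ M.q
  E0 : 0 < M.E
  Ee : M.E ≤ e
  EQ : ∀ z y, y ∈ Sp M.f.symm M.E z → ∃ v ∈ M.T₁, M.h y = v • M.h z
  ε0 : 0 < ε₁
  εE : 2 * ε₁ ≤ M.E
  one_D : (1 : G) ∈ M.D
  one_O : (1 : G) ∈ O'
  one_K : (1 : G) ∈ K₀
  K₀S : K₀ ⊆ S
  /-- displacements near `D₀`, seen from `O'` -/
  cm1 : ∀ V ∈ D₀, ∀ σ ∈ O', σ ∈ S → M.up (V * σ) ∈ M.D
  /-- the bound for `σ` -/
  cm3 : ∀ k P, Pr M.L M.q M.D k P → ∀ d ∈ M.D, ∀ σ ∈ S, ∀ σ₀ ∈ K₀,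
    lv M.L (-((M.q * k : ℕ) : ℤ)) (σ * d) * P * σ₀⁻¹ ∈ T → σ ∈ 𝒦 ∧ lv M.L M.q σ ∈ O'
  /-- no plateau -/
  hup : ∀ σ ∈ 𝒦, ∀ z K, ev M.f M.q z ∈ M.U → M.Ad σ z K → ∀ w ∈ K, w ∈ Sp M.f.symm ε₁ z
  /-- small plaques -/
  hlo : ∀ σ ∈ 𝒦, ∀ z, ∀ y ∈ Sp M.f.symm r z, ∃ K, y ∈ K ∧ M.Ad σ z K
  /-- the walks to the repeller -/
  hF2 : ∀ x, ev M.f (-1) x ∉ M.U → ∃ k ≤ M.N, ∃ y ∈ Rep M.f M.U, ∃ V, Wk M.f M.h r M.T₁ D₀ x k y V

end Mach

end Pool.Agent.Lib.MP610fe3.HF
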