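import Pool.Agent.Lib.MP_610fe3_an.HF.Spec

/-!
# Hyperbolic factors: module DEN (helper53), from an attractor to its basin
-/

open Set Filter Function
open scoped Topology

namespace Pool.Agent.Lib.MP610fe3.HF

open TM N3 FT

universe u v

namespace DENM

theorem small {C a E η : ℝ} (ha : 0 < a) (hη : 0 < η) :
    ∃ N : ℕ, C * Real.exp (-(a * N)) * E < η := by
  have h2 : Tendsto (fun n : ℕ => a * (n : ℝ)) atTop atTop :=
    Tendsto.const_mul_atTop ha tendsto_natCast_atTop_atTop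
  have h3 := (Real.tendsto_exp_neg_atTop_nhds_zero.comp h2)
  have h4 : Tendsto (fun n : ℕ => C * Real.exp (-(a * n)) * E) atTop (𝓝 (C * 0 * E)) :=
    (h3.const_mul C).mul_const E
  rw [mul_zero, zero_mul] at h4
  exact (h4.eventually (gt_mem_nhds hη)).exists

variable {X : Type u} [MetricSpace X] [CompactSpace X] {f : X ≃ₜ X} {U : Set X}
  {e C a c c' ε₃ : ℝ} {Y : Type v} [MetricSpace Y] {g : Y ≃ₜ Y} {h : X → Y}

/-- transport of a collapsed continuum to a nearby local unstable set -/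
theorem transport (R : Rates f U e C a a a) (hg : ExpConst g c')
    (hev : ∀ (x : X) (n : ℤ), h (ev f n x) = ev g n (h x)) (hε₃ : 0 < ε₃) (he : 8 * ε₃ ≤ e)
    (hF : ∀ x y, dist x y ≤ ε₃ → dist (h x) (h y) < c' / 2)
    {K₀ : Set X} (hc : IsCompact K₀) (hconn : IsConnected K₀)
    (hsz : ∀ x ∈ K₀, ∀ y ∈ K₀, y ∈ Sp f.symm (ε₃ + ε₃) x) (hnt : K₀.Nontrivial)
    (hh : ∀ x ∈ K₀, ∀ y ∈ K₀, h x = h y) {v : X}
    (hbr : ∀ k ∈ K₀, ∃ z, z ∈ Sp f ε₃ k ∧ z ∈ Sp f.symm ε₃ v) :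
    ∃ K₁ : Set X, IsCompact K₁ ∧ IsConnected K₁ ∧ K₁.Nontrivial ∧
      (∀ y ∈ K₁, y ∈ Sp f.symm ε₃ v) ∧ ∀ y ∈ K₁, ∀ z ∈ K₁, h y = h z := by
  classical
  have hb' : ∀ k, ∃ z, k ∈ K₀ → z ∈ Sp f ε₃ k ∧ z ∈ Sp f.symm ε₃ v := by
    intro k
    by_cases hk : k ∈ K₀
    · obtain ⟨z, hz⟩ := hbr k hk
      exact ⟨z, fun _ => hz⟩
    · exact ⟨k, fun h => absurd h hk⟩
  choose b hb using hb'
  have hcont : ContinuousOn b K₀ := by
    intro y hy
    refine (tendsto_iff_ultrafilter _ _ _).2 fun G hG => ?_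
    obtain ⟨hG1, hG2⟩ := le_inf_iff.1 hG
    have hGK : ∀ᶠ x in (G : Filter X), x ∈ K₀ := hG2 (mem_principal_self K₀)
    obtain ⟨z, -, hz⟩ := isCompact_univ.ultrafilter_le_nhds (G.map b) (by simp)
    have hz' : Tendsto b G (𝓝 z) := hz
    have h1 : z ∈ Sp f ε₃ y := by
      have h2 : Tendsto (fun x : X => x) G (𝓝 y) := hG1
      exact (isClosed_rel f ε₃).mem_of_tendsto (h2.prodMk_nhds hz')
        (hGK.mono fun x hx => (hb x hx).1)
    have h2 : z ∈ Sp f.symm ε₃ v :=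
      (isClosed_Sp f.symm ε₃ v).mem_of_tendsto hz' (hGK.mono fun x hx => (hb x hx).2)
    have h3 : z = b y := EQ.uni R
      (Sp_mono (ε := ε₃ + ε₃) (by linarith) (Sp_trans (Sp_comm (hb y hy).1) h1))
      (Sp_mono (ε := ε₃ + ε₃) (by linarith) (Sp_trans (Sp_comm (hb y hy).2) h2))
    rw [← h3]
    exact hz'
  refine ⟨b '' K₀, hc.image_of_continuousOn hcont, hconn.image _ hcont, ?_, ?_, ?_⟩
  · obtain ⟨x, hx, y, hy, hxy⟩ := hnt
    refine ⟨b x, ⟨x, hx, rfl⟩, b y, ⟨y, hy, rfl⟩, fun hbb => hxy ?_⟩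
    have h1 := Sp_comm (hb y hy).1
    rw [← hbb] at h1
    exact (EQ.uni R (Sp_mono (ε := ε₃ + ε₃) (by linarith) (Sp_trans (hb x hx).1 h1))
      (Sp_mono (by linarith) (hsz x hx y hy))).symm
  · rintro _ ⟨k, hk, rfl⟩
    exact (hb k hk).2
  · rintro _ ⟨k, hk, rfl⟩ _ ⟨k', hk', rfl⟩
    apply exp_ev hg
    intro n
    rw [← hev, ← hev]
    rcases Int.eq_nat_or_neg n with ⟨i, rfl | rfl⟩
    · have h1 := hF _ _ ((hb k hk).1 i)
      have h2 := hF _ _ ((hb k' hk').1 i)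
      have h3 : h (ev f i k) = h (ev f i k') := by
        rw [hev, hev, hh k hk k' hk']
      rw [h3] at h1
      have h4 := dist_triangle_right (h (ev f i (b k))) (h (ev f i (b k'))) (h (ev f i k'))
      linarith
    · have h1 := hF _ _ (mem_Sp_symm.1 (hb k hk).2 i)
      have h2 := hF _ _ (mem_Sp_symm.1 (hb k' hk').2 i)
      have h4 := dist_triangle_right (h (ev f (-i) (b k))) (h (ev f (-i) (b k')))
        (h (ev f (-i) v))
      linarith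

/-- limit points of the orbit of a point of the basin are in the attractor -/
theorem limit (hT : Trap f U) {x : X} {n₁ : ℕ} (hx : ev f n₁ x ∈ U) :
    ∃ y ∈ Att f U, ∃ ψ : ℕ → ℕ, StrictMono ψ ∧
      Tendsto (fun k => ev f (ψ k : ℤ) x) atTop (𝓝 y) := by
  obtain ⟨y, -, ψ, hψ, hlim⟩ := (isCompact_univ (X := X)).tendsto_subseq
    (x := fun n : ℕ => ev f n x) (fun _ => mem_univ _)
  refine ⟨y, fun n => ?_, ψ, hψ, hlim⟩
  have h1 : ev f (-((n + 1 : ℕ) : ℤ)) y ∈ closure U := by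
    refine mem_closure_of_tendsto (((continuous_ev (-((n + 1 : ℕ) : ℤ))).tendsto y).comp hlim) ?_
    filter_upwards [eventually_ge_atTop (n₁ + (n + 1))] with k hk
    have h2 : n₁ + (n + 1) ≤ ψ k := hk.trans (hψ.id_le k)
    have h3 := hT.fwd hx (ψ k - (n₁ + (n + 1)))
    simp only [comp_apply]
    rw [← ev_add] at h3 ⊢
    rwa [show -((n + 1 : ℕ) : ℤ) + (ψ k : ℤ) =
      ((ψ k - (n₁ + (n + 1)) : ℕ) : ℤ) + (n₁ : ℤ) by omega]
  have h2 := hT.maps _ h1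
  rwa [← ev_succ, show -((n + 1 : ℕ) : ℤ) + 1 = -(n : ℤ) by push_cast; ring] at h2

end DENM

open DENM in
theorem specDen : SpecDen.{u, v} := by
  intro X _ _ f U e C a c Y _ g c' h B hT hc' hg hcont hfg hK x hx ε hε
  have R := B.rates U
  have he := R.e0
  have hC := R.C1
  have ha := R.a0
  have hev : ∀ (x : X) (n : ℤ), h (ev f n x) = ev g n (h x) := fun x n =>
    (⟨hcont.continuousOn, fun x _ => hfg x⟩ : Fac f univ g h).ev (fun _ _ _ => mem_univ _)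
      (mem_univ x) n
  obtain ⟨δF, hδF, hFu⟩ := Metric.uniformContinuous_iff.1
    (CompactSpace.uniformContinuous_of_continuous hcont) (c' / 2) (half_pos hc')
  obtain ⟨ε₃, hε₃, he3, hF3⟩ : ∃ ε₃ : ℝ, 0 < ε₃ ∧ 8 * ε₃ ≤ e ∧ ε₃ < δF :=
    ⟨min (e / 8) (δF / 2), lt_min (by linarith) (by linarith),
      by linarith [min_le_left (e / 8) (δF / 2)],
      (min_le_right _ _).trans_lt (by linarith)⟩
  have hF : ∀ x y, dist x y ≤ ε₃ → dist (h x) (h y) < c' / 2 :=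
    fun x y hxy => hFu (hxy.trans_lt hF3)
  obtain ⟨δ, hδ, hbr⟩ := R.br ε₃ hε₃
  obtain ⟨N, hN⟩ := small (C := C) (E := ε₃) ha hε
  obtain ⟨n₁, hn₁⟩ := hx
  obtain ⟨p, hp, ψ, hψ, hlim⟩ := limit hT hn₁
  obtain ⟨k, hk1, hk2⟩ := (((Metric.tendsto_nhds.1 hlim (δ / 2) (half_pos hδ))).and
    (eventually_ge_atTop N)).exists
  have hn : N ≤ ψ k := hk2.trans (hψ.id_le k)
  obtain ⟨ε', hε', hε'3, hε'δ⟩ : ∃ ε' : ℝ, 0 < ε' ∧ ε' ≤ ε₃ ∧ ε' ≤ δ / 4 :=
    ⟨min ε₃ (δ / 4), lt_min hε₃ (by linarith), min_le_left _ _, min_le_right _ _⟩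
  obtain ⟨K₀, hcp0, hcn0, hnt0, -, hsz0, hh0⟩ := hK p hp ε' hε'
  obtain ⟨K₁, hcp1, hcn1, hnt1, hsz1, hh1⟩ := transport R hg hev hε₃ he3 hF hcp0 hcn0
    (fun y hy z hz => Sp_mono (ε := ε' + ε') (by linarith)
      (Sp_trans (Sp_comm (hsz0 y hy)) (hsz0 z hz))) hnt0 hh0 (v := ev f (ψ k : ℤ) x)
    (fun q hq => by
      apply hbr
      have h1 := Sp_dist (hsz0 q hq)
      have h2 := dist_triangle_right q (ev f (ψ k : ℤ) x) p
      linarith)
  refine ⟨ev f (-(ψ k : ℤ)) '' K₁, hcp1.image (continuous_ev _),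
    hcn1.image _ (continuous_ev _).continuousOn, hnt1.image (ev_injective _), ?_, ?_⟩
  · rintro _ ⟨y, hy, rfl⟩
    have h1 := EQ.contr (by linarith) ha.le R.un (by linarith) (hsz1 y hy) (ψ k)
    rw [ev_neg_ev] at h1
    refine Sp_mono ?_ h1
    have h4 : Real.exp (-(a * (ψ k : ℝ))) ≤ Real.exp (-(a * N)) := by
      apply Real.exp_le_exp.2
      have : (N : ℝ) ≤ ψ k := by exact_mod_cast hn
      have := mul_le_mul_of_nonneg_left this ha.le
      linarith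
    have h5 : C * Real.exp (-(a * (ψ k : ℝ))) * ε₃ ≤ C * Real.exp (-(a * N)) * ε₃ :=
      mul_le_mul_of_nonneg_right (mul_le_mul_of_nonneg_left h4 (by linarith)) hε₃.le
    linarith
  · rintro _ ⟨y, hy, rfl⟩ _ ⟨w, hw, rfl⟩
    rw [hev, hev, hh1 y hy w hw]

end Pool.Agent.Lib.MP610fe3.HF
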