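import Pool.Agent.Lib.MP_610fe3_an.HF.Brk

/-!
# Hyperbolic factors: module DSP

Displacements in `Y`, and `g` is expansive.
-/

open Set Filter Function
open scoped Topology Pointwise

namespace Pool.Agent.Lib.MP610fe3.HF

open TM N3 FT

universe u v w

/-- The stable part. -/
theorem disp_st {G : Type*} [Group G] [TopologicalSpace G] [T2Space G] {Y : Type*} [MetricSpace Y]
    [MulAction G Y] {L : G ≃* G} {g : Y ≃ₜ Y} {S T : Subgroup G} {sp up : G → G}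
    (H : Hyp L g S T sp up) {Q : Set G} (hQc : IsCompact Q) (hQn : Q ∈ 𝓝 (1 : G))
    (huniq : ∀ v ∈ Q, ∀ w ∈ Q, ∀ y : Y, v • y = w • y → v = w) :
    ∀ O ∈ 𝓝 (1 : G), ∃ ρ : ℝ, 0 < ρ ∧ ∀ z y : Y, y ∈ Sp g ρ z →
      ∃ v ∈ O, v ∈ Q ∧ v ∈ S ∧ id y = v • id z := by
  intro O hO
  have hO₂ : O ∩ Q ∩ L ⁻¹' Q ∈ 𝓝 (1 : G) := by
    refine inter_mem (inter_mem hO hQn) (H.cL.continuousAt.preimage_mem_nhds ?_)
    rw [map_one]
    exact hQn
  obtain ⟨δ, hδ, htr⟩ := H.trans _ hO₂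
  refine ⟨δ / 2, by positivity, fun z y hy => ?_⟩
  have hex : ∀ n : ℕ, ∃ v ∈ O ∩ Q ∩ L ⁻¹' Q, v • ev g n z = ev g n y := by
    intro n
    refine htr _ _ ?_
    have h1 := hy n
    rw [dist_comm]
    linarith
  choose v hv hvy using hex
  have hstep : ∀ n : ℕ, v (n + 1) = L (v n) := by
    intro n
    refine huniq _ (hv (n + 1)).1.2 _ (hv n).2 (ev g ((n + 1 : ℕ) : ℤ) z) ?_
    rw [hvy, Nat.cast_succ, FT.ev_succ, FT.ev_succ, ← H.act, hvy]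
  have hvn : ∀ n : ℕ, v n = lv L n (v 0) := by
    intro n
    induction n with
    | zero => simp
    | succ n ih =>
      rw [hstep, ih, Nat.cast_succ, add_comm, lv_add, lv_one']
  have hup : up (v 0) = 1 := by
    by_contra hne
    have hcl : {up (v 0)}ᶜ ∈ 𝓝 (1 : G) :=
      isOpen_compl_singleton.mem_nhds (fun h => hne (mem_singleton_iff.1 h).symm)
    have hev := H.conT (up '' Q) (hQc.image H.cup) (by
      rintro _ ⟨w, hw, rfl⟩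
      exact H.mem_t w) _ hcl
    obtain ⟨n, hn⟩ := hev.exists
    have h1 := hn (up (v n)) ⟨v n, (hv n).1.2, rfl⟩
    apply h1
    rw [mem_singleton_iff, hvn n, (H.lv_sp n (v 0)).2, lv_neg_lv]
  have hS : v 0 ∈ S := (H.mem_S_iff _).2 hup
  refine ⟨v 0, (hv 0).1.1, (hv 0).1.2, hS, ?_⟩
  have h1 := hvy 0
  simp only [Nat.cast_zero, ev_zero] at h1
  exact h1.symm

/-- DSP. -/
theorem specDsp : SpecDsp.{v, w} := by
  intro Y _ _ G _ _ _ _ _ _ _ L g S T sp up H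
  obtain ⟨Of, hOf, hfree⟩ := H.free
  obtain ⟨V, hV, hVm⟩ := exists_nhds_one_split4 hOf
  have hW : V ∩ V⁻¹ ∈ 𝓝 (1 : G) := inter_mem hV (inv_mem_nhds_one G hV)
  obtain ⟨K, hK, hKW, hKc⟩ := local_compact_nhds hW
  set Q : Set G := K ∩ K⁻¹ with hQ
  have hQc : IsCompact Q := hKc.inter hKc.inv
  have hQn : Q ∈ 𝓝 (1 : G) := inter_mem hK (inv_mem_nhds_one G hK)
  have hinv : ∀ v ∈ Q, v⁻¹ ∈ Q := by
    intro v hv
    exact ⟨hv.2, by rw [Set.mem_inv, inv_inv]; exact hv.1⟩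
  have hQV : ∀ v ∈ Q, v ∈ V := fun v hv => (hKW hv.1).1
  have huniq : ∀ v ∈ Q * Q, ∀ w ∈ Q * Q, ∀ y : Y, v • y = w • y → v = w := by
    rintro _ ⟨a, ha, b, hb, rfl⟩ _ ⟨c, hc, d, hd, rfl⟩ y hy
    have h1 : ((c * d)⁻¹ * (a * b)) • y = y := by
      rw [mul_smul, hy, inv_smul_smul]
    have h2 : (c * d)⁻¹ * (a * b) ∈ Of := by
      rw [mul_inv_rev, ← mul_assoc]
      exact hVm (hQV _ (hinv d hd)) (hQV _ (hinv c hc)) (hQV _ ha) (hQV _ hb)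
    exact (inv_mul_eq_one.1 (hfree _ h2 y h1)).symm
  have h1Q : (1 : G) ∈ Q := mem_of_mem_nhds hQn
  have huniq' : ∀ v ∈ Q, ∀ w ∈ Q, ∀ y : Y, v • y = w • y → v = w := fun v hv w hw =>
    huniq v ⟨v, hv, 1, h1Q, mul_one v⟩ w ⟨w, hw, 1, h1Q, mul_one w⟩
  have hst := disp_st H hQc hQn huniq'
  have hun := disp_st H.symm hQc hQn huniq'
  refine ⟨Q, ⟨hQc, hQn, hinv, huniq, hst, hun⟩, ?_⟩
  obtain ⟨ρ₁, hρ₁, h1⟩ := hst univ univ_mem
  obtain ⟨ρ₂, hρ₂, h2⟩ := hun univ univ_mem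
  refine ⟨min ρ₁ ρ₂, lt_min hρ₁ hρ₂, fun x y hxy hxy' => ?_⟩
  obtain ⟨v, -, hvQ, hvS, hv⟩ := h1 x y (fun k => by
    rw [ev_nat, ev_nat, dist_comm]
    exact (hxy k).trans (min_le_left _ _))
  obtain ⟨w, -, hwQ, hwT, hw⟩ := h2 x y (by
    rw [mem_Sp_symm]
    intro k
    rw [ev_neg_nat, ev_neg_nat, dist_comm]
    exact (hxy' k).trans (min_le_right _ _))
  have h3 : v = w := huniq' v hvQ w hwQ x (hv.symm.trans hw)
  have h4 : v = 1 := H.disj v hvS (by rw [h3]; exact hwT)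
  rw [h4, one_smul] at hv
  exact hv.symm

end Pool.Agent.Lib.MP610fe3.HF
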