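import Pool.Agent.Lib.MP_610fe3_an.HF.Spec

/-!
# MODULE F2U (helper97)
-/

open Set Filter Function
open scoped Topology Pointwise

namespace Pool.Agent.Lib.MP610fe3.HF

open TM N3 FT

universe u v w

namespace F2UM

theorem isCompact_pow {G : Type w} [Group G] [TopologicalSpace G] [IsTopologicalGroup G]
    {P : Set G} (hP : IsCompact P) (n : ℕ) : IsCompact (P ^ n) := by
  induction n with
  | zero => rw [pow_zero]; exact isCompact_singleton
  | succ n ih => rw [pow_succ]; exact ih.mul hP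

theorem pow_sub {G : Type w} [Group G] {P : Set G} {T : Subgroup G} (hP : P ⊆ T) (n : ℕ) :
    P ^ n ⊆ T := by
  induction n with
  | zero =>
    rw [pow_zero]
    intro x hx
    rw [Set.mem_one] at hx
    rw [hx]
    exact T.one_mem
  | succ n ih =>
    rw [pow_succ]
    rintro _ ⟨x, hx, y, hy, rfl⟩
    exact T.mul_mem (ih hx) (hP hy)

/-- One link of the chain. -/
theorem step {X : Type u} [MetricSpace X] {Y : Type v} {G : Type w} [Group G] [TopologicalSpace G]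
    [MulAction G Y] {f : X ≃ₜ X} {h : X → Y} {U : Set X} {e C a ρQ η₀ δ' r ρO : ℝ} {Q O D : Set G}
    {S T : Subgroup G} (R : Rates f U e C a a a) (H : HD f h Q S T)
    (hQ : ∀ z y : X, y ∈ Sp f.symm ρQ z → ∃ v ∈ (univ : Set G), v ∈ Q ∧ v ∈ T ∧ h y = v • h z)
    (hη1 : η₀ ≤ e / 2) (hη2 : η₀ ≤ ρQ) (hδ : C * δ' ≤ min r ρO)
    (hO : ∀ z y : X, y ∈ Sp f.symm ρO z → ∃ v ∈ O, v ∈ Q ∧ v ∈ T ∧ h y = v • h z)
    {x p : X} {n i : ℕ} {V : G} (hD : ((Q ∩ T : Set G)) ^ (i + 1) ⊆ D)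
    (hV : V ∈ ((Q ∩ T : Set G)) ^ i) (hW : Wk f h r (O ∩ (Q ∩ T)) D x n p V)
    {l : ℕ} {t : ℕ → X} (ht0 : t 0 = p) (htK : ∀ j ≤ l, t j ∈ Sp f.symm η₀ p)
    (htd : ∀ j < l, dist (t j) (t (j + 1)) < δ') (j : ℕ) (hj : j ≤ l) :
    ∃ b ∈ Q, b ∈ T ∧ h (t j) = b • h p ∧
      Wk f h r (O ∩ (Q ∩ T)) D x (n + j) (t j) (b * V) := by
  induction j with
  | zero =>
    refine ⟨1, H.one, T.one_mem, ?_, ?_⟩
    · rw [ht0, one_smul]
    · rw [ht0, one_mul]
      exact hW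
  | succ j ih =>
    obtain ⟨b, hbQ, hbT, hb, hWb⟩ := ih (by omega)
    have h1 : t (j + 1) ∈ Sp f.symm (η₀ + η₀) (t j) :=
      Sp_trans (Sp_comm (htK j (by omega))) (htK (j + 1) hj)
    have h2 : t (j + 1) ∈ Sp f.symm e (t j) := Sp_mono (by linarith) h1
    have h3 : t (j + 1) ∈ Sp f.symm (min r ρO) (t j) := by
      rw [mem_Sp_symm]
      intro k
      have h4 := R.un _ _ h2 k
      have h5 : dist (t (j + 1)) (t j) < δ' := by
        rw [dist_comm]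
        exact htd j (by omega)
      have h6 : Real.exp (-(a * k)) ≤ 1 := by
        rw [Real.exp_le_one_iff]
        have := R.a0
        have : 0 ≤ a * k := by positivity
        linarith
      have hC := R.C1
      calc dist (ev f (-(k : ℤ)) (t (j + 1))) (ev f (-(k : ℤ)) (t j))
          ≤ C * Real.exp (-(a * k)) * dist (t (j + 1)) (t j) := h4
        _ ≤ C * 1 * δ' := by
            have h7 : 0 ≤ Real.exp (-(a * k)) := (Real.exp_pos _).le
            gcongr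
        _ ≤ min r ρO := by rw [mul_one]; exact hδ
    obtain ⟨v, hvO, hvQ, hvT, hv⟩ := hO _ _ (Sp_mono (min_le_right _ _) h3)
    obtain ⟨b', -, hb'Q, hb'T, hb'⟩ := hQ _ _ (Sp_mono hη2 (htK (j + 1) hj))
    have e1 : v * b = b' := by
      refine H.uniq (v * b) ⟨v, hvQ, b, hbQ, rfl⟩ b' (H.sub hb'Q) (h p) ?_
      rw [mul_smul, ← hb, ← hv, hb']
    have e2 : b' * V = v * (b * V) := by rw [← e1, mul_assoc]
    refine ⟨b', hb'Q, hb'T, hb', ?_⟩
    rw [e2]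
    refine Wk.succ (n + j) (t j) (t (j + 1)) (b * V) v hWb (Sp_mono (min_le_left _ _) h3)
      ⟨hvO, hvQ, hvT⟩ hv ?_
    rw [← e2]
    apply hD
    rw [pow_succ']
    exact mul_mem_mul ⟨hb'Q, hb'T⟩ hV

end F2UM

open F2UM in
theorem specF2u (hChs : FT.SpecChs.{u}) : SpecF2u.{u, v, w} := by
  intro X _ _ Y _ G _ _ _ _ _ f h U e C a c Q S T B hT hTc H
  have R := B.rates U
  have he := R.e0
  have hC := R.C1
  obtain ⟨ρQ, hρQ, hQ⟩ := H.un univ univ_mem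
  have hη0 : 0 < min (e / 2) ρQ := lt_min (by linarith) hρQ
  obtain ⟨r₀, hr₀, hpl⟩ := B.plaq (min (e / 2) ρQ) hη0
  obtain ⟨e₁, he₁, h0, -⟩ := B.reach
  obtain ⟨K, hK⟩ := exists_F2 hT he (fun p q hpq => R.st_tendsto hpq) R.br he₁ h0 hr₀
  have hPc : IsCompact ((Q ∩ T : Set G)) := H.cpt.inter_right hTc
  have hP1 : (1 : G) ∈ (Q ∩ T : Set G) := ⟨H.one, T.one_mem⟩
  refine ⟨((Q ∩ T : Set G)) ^ (K + 1), isCompact_pow hPc _, pow_sub inter_subset_right _,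
    Set.one_mem_pow hP1, ?_⟩
  intro r hr O hO
  obtain ⟨ρO, hρO, hO'⟩ := H.un O hO
  have hC0 : 0 < C := by linarith
  have hδ' : 0 < min r ρO / C := div_pos (lt_min hr hρO) hC0
  have hδC : C * (min r ρO / C) ≤ min r ρO := by
    rw [mul_div_cancel₀ _ hC0.ne']
  obtain ⟨Q', hQ'⟩ := hChs X _ hδ'
  refine ⟨K * Q', fun x hx => ?_⟩
  obtain ⟨k, hk, q, hq, s, hs0, hsk, hs⟩ := hK x hx
  have key : ∀ i ≤ k, ∃ n ≤ i * Q', ∃ V ∈ ((Q ∩ T : Set G)) ^ i,
      Wk f h r (O ∩ (Q ∩ T)) (((Q ∩ T : Set G)) ^ (K + 1)) x n (s i) V := by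
    intro i
    induction i with
    | zero =>
      intro _
      refine ⟨0, by omega, 1, by rw [pow_zero]; exact Set.mem_one.2 rfl, ?_⟩
      rw [hs0]
      exact Wk.zero
    | succ i ih =>
      intro hi
      obtain ⟨n, hn, V, hV, hW⟩ := ih (by omega)
      obtain ⟨Kc, -, hKc, h1, h2, h3⟩ := hpl (s i) (s (i + 1)) (hs i (by omega)).2
      obtain ⟨l, hl, t, ht0, htl, htK, htd⟩ := hQ' Kc hKc.isPreconnected _ h1 _ h2
      obtain ⟨b, hbQ, hbT, -, hWb⟩ := step (D := ((Q ∩ T : Set G)) ^ (K + 1)) R H hQ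
        (min_le_left _ _) (min_le_right _ _) hδC hO'
        (Set.pow_subset_pow_right hP1 (by omega)) hV hW ht0
        (fun j hj => h3 _ (htK j hj)) htd l (le_refl _)
      refine ⟨n + l, ?_, b * V, ?_, ?_⟩
      · rw [Nat.succ_mul]
        omega
      · rw [pow_succ']
        exact mul_mem_mul ⟨hbQ, hbT⟩ hV
      · rw [← htl]
        exact hWb
  obtain ⟨n, hn, V, hV, hW⟩ := key k (le_refl _)
  rw [hsk] at hW
  exact ⟨n, hn.trans (Nat.mul_le_mul_right _ hk), q, hq, V, hW⟩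

end Pool.Agent.Lib.MP610fe3.HF
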