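import Pool.Agent.Lib.MP_610fe3_an.HF.Brk

/-!
# Hyperbolic factors: module HDS

Displacements in `X`.
-/

open Set Filter Function
open scoped Topology Pointwise

namespace Pool.Agent.Lib.MP610fe3.HF

open TM N3 FT

universe u v w

/-- HDS. -/
theorem specHds : SpecHds.{u, v, w} := by
  intro X _ _ Y _ G _ _ _ f g h Q S T hh hs H
  have hunif : ∀ ρ : ℝ, 0 < ρ → ∃ ρ' : ℝ, 0 < ρ' ∧ ∀ x x' : X, dist x x' ≤ ρ' →
      dist (h x) (h x') ≤ ρ := by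
    intro ρ hρ
    have h1 := CompactSpace.uniformContinuous_of_continuous hh
    obtain ⟨δ, hδ, h2⟩ := Metric.uniformContinuous_iff.1 h1 ρ hρ
    refine ⟨δ / 2, by positivity, fun x x' hx => (h2 ?_).le⟩
    linarith
  refine ⟨H.cpt, H.nhd, H.inv, H.uniq, fun O hO => ?_, fun O hO => ?_⟩
  · obtain ⟨ρ, hρ, h1⟩ := H.st O hO
    obtain ⟨ρ', hρ', h2⟩ := hunif ρ hρ
    refine ⟨ρ', hρ', fun z y hy => ?_⟩
    obtain ⟨v, hv1, hv2, hv3, hv4⟩ := h1 (h z) (h y) (fun k => by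
      rw [← sc_ev hs, ← sc_ev hs]
      exact h2 _ _ (hy k))
    exact ⟨v, hv1, hv2, hv3, hv4⟩
  · obtain ⟨ρ, hρ, h1⟩ := H.un O hO
    obtain ⟨ρ', hρ', h2⟩ := hunif ρ hρ
    refine ⟨ρ', hρ', fun z y hy => ?_⟩
    obtain ⟨v, hv1, hv2, hv3, hv4⟩ := h1 (h z) (h y) (by
      rw [mem_Sp_symm]
      intro k
      rw [← sc_ev hs, ← sc_ev hs]
      exact h2 _ _ (mem_Sp_symm.1 hy k))
    exact ⟨v, hv1, hv2, hv3, hv4⟩

end Pool.Agent.Lib.MP610fe3.HF
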