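import Pool.Agent.Lib.MP_610fe3_an.HF.Brk

/-!
# Hyperbolic factors: module HUL

The hypotheses `hup` and `hlo` of the machine.
-/

open Set Filter Function
open scoped Topology Pointwise

namespace Pool.Agent.Lib.MP610fe3.HF

open TM N3 FT

universe u v w

/-- HUL. -/
theorem specHul : SpecHul.{u, v, w} := by
  intro X _ _ Y _ G _ _ _ M S T Q 𝒦 e C a c B H ht hE0 hEe
  have R := B.rates M.U
  have hC := R.C1
  have ha := R.a0
  refine ⟨?_, ?_⟩
  · intro U₀ m₀ θ c₁ ε₁ hN hU hc₁ hε₁ hB σ hσ z K hz hAd w hw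
    have hosc : ∀ w ∈ K, dist (M.h w) (M.h z) ≤ θ / 2 := by
      intro w hw
      obtain ⟨u, hu, huh, huB⟩ := hAd.disp w hw
      rw [ht] at hu
      rw [huh]
      exact hB σ hσ u hu.1 hu.2 huB (M.h z)
    have h1 : dist w z < c₁ := by
      refine hN K hAd.cpt hAd.conn (fun x hx y hy => ?_) ⟨z, hAd.mem, hU z hz⟩
        (fun x hx y hy => ?_) w hw z hAd.mem
      · refine Sp_mono (ε := M.E + M.E) (by linarith) ?_
        exact Sp_trans (Sp_comm (hAd.sub x hx)) (hAd.sub y hy)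
      · have h2 := hosc x hx
        have h3 := hosc y hy
        have h4 := dist_triangle_right (M.h x) (M.h y) (M.h z)
        linarith
    rw [mem_Sp_symm]
    intro j
    have h2 := R.un _ _ (Sp_mono hEe (hAd.sub w hw)) j
    have h3 : Real.exp (-(a * j)) ≤ 1 := by
      rw [Real.exp_le_one_iff]
      have : 0 ≤ a * (j : ℝ) := by positivity
      linarith
    calc _ ≤ C * Real.exp (-(a * j)) * dist w z := h2
      _ ≤ C * 1 * c₁ := by gcongr
      _ ≤ ε₁ := by rw [mul_one]; exact hε₁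
  · intro O hO hB
    obtain ⟨ρ, hρ, hun⟩ := H.un O hO
    obtain ⟨r, hr, hp⟩ := B.plaq (min ρ M.E) (lt_min hρ hE0)
    refine ⟨r, hr, fun σ hσ z y hy => ?_⟩
    obtain ⟨K, hK1, hK2, hzK, hyK, hK3⟩ := hp z y hy
    refine ⟨K, hyK, ⟨hK1, hK2, hzK, fun w hw => Sp_mono (min_le_right _ _) (hK3 w hw),
      fun w hw => ?_⟩⟩
    obtain ⟨v, hv1, hv2, hv3, hv4⟩ := hun z w (Sp_mono (min_le_left _ _) (hK3 w hw))
    exact ⟨v, by rw [ht]; exact ⟨hv2, hv3⟩, hv4, hB σ hσ v hv1⟩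

end Pool.Agent.Lib.MP610fe3.HF
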