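import Pool.Agent.Lib.MP_610fe3_an.HF.Spec

/-!
# Hyperbolic factors: module INV

The bound for the states.
-/

open Set Filter Function
open scoped Topology Pointwise

namespace Pool.Agent.Lib.MP610fe3.HF

open TM N3 FT

universe u v w

/-- INV. -/
theorem specInv : SpecInv.{u, v, w} := by
  intro X _ Y _ G _ _ _ _ M g S T Q K₀ 𝒦 O' D₀ e C a ε₁ r H x σ₀ hσ₀ z σ d i k hR
  have F := H.hyp.toFact
  have key : ∃ P, Pr M.L M.q M.D k P ∧ d ∈ M.D ∧ d ∈ T ∧ σ ∈ S ∧ i ≤ M.N ∧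
      lv M.L (-((M.q * k : ℕ) : ℤ)) (σ * d) * P * σ₀⁻¹ ∈ T := by
    induction hR with
    | start =>
      refine ⟨1, .zero, H.one_D, T.one_mem, H.K₀S hσ₀, le_rfl, ?_⟩
      simp
    | move z z' σ d v i k K _ _ _ _ hv _ hD ih =>
      obtain ⟨P, h1, h2, h3, h4, h5, h6⟩ := ih
      have hvT : v ∈ T := by
        rw [H.t₁] at hv
        exact hv.2
      refine ⟨P, h1, hD, T.mul_mem (F.mem_t _) h3, F.mem_s _, by omega, ?_⟩
      have e1 : M.sp (v * σ) * (M.up (v * σ) * d) = v * (σ * d) := by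
        rw [← mul_assoc, F.mul, mul_assoc]
      rw [e1, lv_mul, mul_assoc, mul_assoc, ← mul_assoc (lv M.L _ (σ * d))]
      exact T.mul_mem ((H.hyp.lv_T _ _).1 hvT) h6
    | pass z σ d i k _ _ ih =>
      obtain ⟨P, h1, h2, h3, h4, h5, h6⟩ := ih
      refine ⟨lv M.L (-((M.q * k : ℕ) : ℤ)) d * P, .succ k P d h1 h2, H.one_D, T.one_mem,
        (H.hyp.lv_S _ _).1 h4, le_rfl, ?_⟩
      have e1 : lv M.L (-((M.q * (k + 1) : ℕ) : ℤ)) (lv M.L M.q σ * 1) =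
          lv M.L (-((M.q * k : ℕ) : ℤ)) σ := by
        rw [mul_one, ← lv_add]
        congr 1
        push_cast
        ring
      rw [e1, ← mul_assoc, ← lv_mul]
      exact h6
  obtain ⟨P, h1, h2, h3, h4, h5, h6⟩ := key
  obtain ⟨h7, h8⟩ := H.cm3 k P h1 d h2 σ h4 σ₀ hσ₀ h6
  exact ⟨h4, h7, h8, h5⟩

end Pool.Agent.Lib.MP610fe3.HF
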