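import Pool.Agent.Lib.MP_610fe3_an.HF.Spec

/-!
# MP_610fe3_an, HF, module MNX: minimal classes can be reached from every point
-/

open Set Filter Function
open scoped Topology

namespace Pool.Agent.Lib.MP610fe3.HF

universe u

open TM N3 FT

theorem specMnx : SpecMnx.{u} := by
  classical
  intro X _ _ f c hc0 hc hsh x
  obtain ⟨y, hy, hxy⟩ := exists_fwdAsymp hc0 hc hsh x
  have hyA : Reach f x y := reach_of_fwdAsymp hy hxy
  obtain ⟨δ, hδ, hR⟩ := exists_reach hc0 hc hsh
  have hK : IsCompact (Om f) := (isClosed_Om f).isCompact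
  obtain ⟨t, htK, htf, htc⟩ := hK.finite_cover_balls hδ
  set F : Finset X := htf.toFinset with hF
  set N : X → ℕ := fun y => (F.filter (fun q => Reach f y q)).card with hN
  obtain ⟨y₀, hy₀, hmin⟩ := WellFounded.has_min (measure N).wf {y | y ∈ Om f ∧ Reach f x y}
    ⟨y, hy, hyA⟩
  have h3 : ∀ y' ∈ Om f, Reach f y₀ y' → Reach f y' y₀ := by
    intro y' hy' h
    have hsub : F.filter (fun q => Reach f y' q) ⊆ F.filter (fun q => Reach f y₀ q) := by
      intro q hq
      rw [Finset.mem_filter] at hq ⊢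
      exact ⟨hq.1, h.trans hq.2⟩
    have hcard : (F.filter (fun q => Reach f y₀ q)).card ≤ (F.filter (fun q => Reach f y' q)).card :=
      not_lt.1 (hmin y' ⟨hy', hy₀.2.trans h⟩)
    have heq := Finset.eq_of_subset_of_card_le hsub hcard
    have h4 := htc hy₀.1
    rw [Set.mem_iUnion₂] at h4
    obtain ⟨q, hqt, hq⟩ := h4
    rw [Metric.mem_ball] at hq
    have hqK := htK hqt
    have h5 : q ∈ F.filter (fun q => Reach f y₀ q) := by
      rw [Finset.mem_filter]
      exact ⟨htf.mem_toFinset.2 hqt, hR y₀ hy₀.1 q hqK hq⟩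
    rw [← heq, Finset.mem_filter] at h5
    exact h5.2.trans (hR q hqK y₀ hy₀.1 (by rw [dist_comm]; exact hq))
  refine ⟨y₀, hy₀.1, hy₀.2, fun z hz => ?_⟩
  obtain ⟨y', hy', hzy⟩ := exists_fwdAsymp hc0 hc hsh z
  have h6 : Reach f z y' := reach_of_fwdAsymp hy' hzy
  exact h6.trans (h3 y' hy' (hz.trans h6))

end Pool.Agent.Lib.MP610fe3.HF
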