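import Pool.Agent.Lib.MP_610fe3_an.HF.Spec

/-!
# Hyperbolic factors, module NGD: good pairs stay inside
-/

open Set Filter Function
open scoped Topology Pointwise

namespace Pool.Agent.Lib.MP610fe3.HF

open TM N3 FT

universe u v w

namespace NGDM

theorem reach_walk (hInv : SpecInv.{u, v, w}) {X : Type u} [MetricSpace X] {Y : Type v}
    [MetricSpace Y] {G : Type w} [Group G] [TopologicalSpace G] [IsTopologicalGroup G]
    [MulAction G Y] {M : Mach X Y G} {g : Y ≃ₜ Y} {S T : Subgroup G} {Q K₀ 𝒦 O' D₀ : Set G}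
    {e C a ε₁ r : ℝ} (H : MH M g S T Q K₀ 𝒦 O' D₀ e C a ε₁ r) {x : X} {σ₀ : G} (hσ₀ : σ₀ ∈ K₀)
    (hG : M.Good x σ₀) {x' : X} {σ' : G} {k : ℕ} (hR : M.Rch x σ₀ x' σ' 1 M.N k)
    (hσ' : σ' ∈ O') (hS : σ' ∈ S) :
    ∀ n y V, Wk M.f M.h r M.T₁ D₀ x' n y V → n ≤ M.N →
      M.Rch x σ₀ y (M.sp (V * σ')) (M.up (V * σ')) (M.N - n) k := by
  have F : Fact S T M.sp M.up := H.hyp.toFact
  intro n y V hW
  induction hW with
  | zero =>
    intro _
    rw [one_mul, F.sp_s hS, F.up_s hS, Nat.sub_zero]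
    exact hR
  | succ n y y' V v hw hy hv hh hD ih =>
    intro hn
    have h1 := ih (by omega)
    have h2 : M.N - n = (M.N - (n + 1)) + 1 := by omega
    rw [h2] at h1
    have h3 := hInv X Y G M g S T Q K₀ 𝒦 O' D₀ e C a ε₁ r H x σ₀ hσ₀ _ _ _ _ _ h1
    obtain ⟨K, hyK, hAd⟩ := H.hlo _ h3.2.1 y y' hy
    have h4 : v * V * σ' = v * M.sp (V * σ') * M.up (V * σ') := by
      rw [mul_assoc v V σ', mul_assoc v, F.mul]
    have h5 : M.sp (v * V * σ') = M.sp (v * M.sp (V * σ')) := by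
      rw [h4]
      exact F.sp_mult (F.mem_t _) _
    have h6 : M.up (v * V * σ') = M.up (v * M.sp (V * σ')) * M.up (V * σ') := by
      rw [h4]
      exact F.up_mult (F.mem_t _) _
    have h7 : M.up (v * V * σ') ∈ M.D := H.cm1 _ hD σ' hσ' hS
    rw [h6] at h7
    rw [h5, h6]
    exact Mach.Rch.move y y' _ _ v _ k K h1 (hG _ _ _ _ _ h1) hAd hyK hv hh h7

end NGDM

open NGDM in
theorem specNgd (hInv : SpecInv.{u, v, w}) : SpecNgd.{u, v, w} := by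
  intro X _ Y _ G _ _ _ _ M g S T Q K₀ 𝒦 O' D₀ e C a ε₁ r H x σ₀ hσ₀ hG x' σ' k hR hσ'
  by_contra hx
  obtain ⟨n, hn, y, hy, V, hW⟩ := H.hF2 x' hx
  have h1 := (hInv X Y G M g S T Q K₀ 𝒦 O' D₀ e C a ε₁ r H x σ₀ hσ₀ _ _ _ _ _ hR).1
  have h2 := reach_walk hInv H hσ₀ hG hR hσ' h1 n y V hW hn
  exact hy M.q (hG _ _ _ _ _ h2)

end Pool.Agent.Lib.MP610fe3.HF
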