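import Pool.Agent.Lib.MP_610fe3_an.HF.Spec
import Pool.Agent.Lib.MP_610fe3_an.TC.Lim

/-!
# Hyperbolic factors, module NOP: no plateaus
-/

open Set Filter Function
open scoped Topology Pointwise

namespace Pool.Agent.Lib.MP610fe3.HF

open TM N3 FT

universe u v w

open TC.LimC TD.LimM in
/-- NOP. -/
theorem specNop : SpecNop.{u, v} := by
  classical
  intro X _ _ f U e C a c Y _ h E c₁ hB hT hh hc hE hno
  by_contra hcon
  push Not at hcon
  choose K hcpt hconn hsz hz hosc hbig using fun n : ℕ => hcon (1 / ((n : ℝ) + 1)) (by positivity) n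
  choose z hzK hzU using hz
  choose x hxK y hyK hxy using hbig
  have R := hB.rates U
  obtain ⟨F, hF⟩ := Ultrafilter.exists_le (atTop : Filter ℕ)
  have hne : ∀ n, (K n).Nonempty := fun n => (hconn n).nonempty
  have hseq : ∀ y ∈ Lst F K, ∃ p : ℕ → X, (∀ n, p n ∈ K n) ∧ Tendsto p F (𝓝 y) := fun y hy =>
    exists_seq hne hcpt hy
  obtain ⟨z₀, hz₀⟩ := exists_ulim F z
  have hz₀K : z₀ ∈ Lst F K := lim_mem (Eventually.of_forall hzK) hz₀
  have hsp : ∀ x ∈ Lst F K, ∀ y ∈ Lst F K, y ∈ Sp f.symm E x := by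
    intro x hx y hy
    obtain ⟨p, hp, hpx⟩ := hseq x hx
    obtain ⟨q, hq, hqy⟩ := hseq y hy
    exact mem_lim hpx hqy (Eventually.of_forall fun n => hsz n _ (hp n) _ (hq n))
  have hzA : z₀ ∈ Att f U := by
    intro j
    have h1 : ∀ᶠ n in (F : Filter ℕ), ev f (-((j + 1 : ℕ) : ℤ)) (z n) ∈ U := by
      have h2 : ∀ᶠ n : ℕ in (F : Filter ℕ), j + 1 ≤ n := hF (eventually_ge_atTop (j + 1))
      filter_upwards [h2] with n hn
      have h3 := hT.fwd (hzU n) (n - (j + 1))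
      rw [← ev_add] at h3
      rwa [show ((n - (j + 1) : ℕ) : ℤ) + -(n : ℤ) = -((j + 1 : ℕ) : ℤ) by
        rw [Nat.cast_sub hn]; ring] at h3
    have h2 : ev f (-((j + 1 : ℕ) : ℤ)) z₀ ∈ closure U :=
      isClosed_closure.mem_of_tendsto (((continuous_ev (f := f) _).tendsto z₀).comp hz₀)
        (h1.mono fun n hn => subset_closure hn)
    have h3 := hT.maps _ h2
    rw [← ev_one, ← ev_add] at h3
    rwa [show (1 : ℤ) + -((j + 1 : ℕ) : ℤ) = -(j : ℤ) by push_cast; ring] at h3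
  refine hno ⟨Lst F K, ⟨(isClosed_lst _ _).isCompact, conn_lst F hconn, ?_, hsp, ?_⟩, ?_⟩
  · intro w hw
    exact att_sat hT hzA (R.un_tendsto (Sp_mono hE (hsp z₀ hz₀K w hw)))
  · obtain ⟨x₀, hx₀⟩ := exists_ulim F x
    obtain ⟨y₀, hy₀⟩ := exists_ulim F y
    refine ⟨x₀, lim_mem (Eventually.of_forall hxK) hx₀, y₀, lim_mem (Eventually.of_forall hyK) hy₀,
      ?_⟩
    exact ge_of_tendsto (hx₀.dist hy₀) (Eventually.of_forall hxy)
  · intro x hx y hy
    obtain ⟨p, hp, hpx⟩ := hseq x hx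
    obtain ⟨q, hq, hqy⟩ := hseq y hy
    have h1 : Tendsto (fun n => dist (h (p n)) (h (q n))) F (𝓝 (dist (h x) (h y))) :=
      ((hh.tendsto x).comp hpx).dist ((hh.tendsto y).comp hqy)
    have h2 : Tendsto (fun n : ℕ => 1 / ((n : ℝ) + 1)) F (𝓝 0) :=
      tendsto_one_div_add_atTop_nhds_zero_nat.mono_left hF
    have h3 : dist (h x) (h y) ≤ 0 :=
      le_of_tendsto_of_tendsto h1 h2 (Eventually.of_forall fun n => hosc n _ (hp n) _ (hq n))
    exact dist_le_zero.1 h3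

end Pool.Agent.Lib.MP610fe3.HF
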