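import Pool.Agent.Lib.MP_610fe3_an.HF.Spec

/-!
# Hyperbolic factors: module PRO, products of collapsed continua
-/

open Set Filter Function
open scoped Topology Pointwise

namespace Pool.Agent.Lib.MP610fe3.HF

open TM N3 FT

universe u v w

namespace PROM

/-- brackets of two compact sets -/
theorem proBrk {X : Type*} [MetricSpace X] [CompactSpace X] {f : X ≃ₜ X} {U : Set X} {e C a m : ℝ}
    (R : Rates f U e C a a a) (hme : 2 * m ≤ e) {K : Set (X × X)}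
    (hbr : ∀ p ∈ K, ∃ z, z ∈ Sp f m p.1 ∧ z ∈ Sp f.symm m p.2) :
    ∃ b : X × X → X, (∀ p ∈ K, b p ∈ Sp f m p.1 ∧ b p ∈ Sp f.symm m p.2) ∧ ContinuousOn b K := by
  classical
  have hb' : ∀ p : X × X, ∃ z, p ∈ K → z ∈ Sp f m p.1 ∧ z ∈ Sp f.symm m p.2 := by
    intro p
    by_cases hp : p ∈ K
    · obtain ⟨z, hz⟩ := hbr p hp
      exact ⟨z, fun _ => hz⟩
    · exact ⟨p.1, fun h => absurd h hp⟩
  choose b hb using hb'
  refine ⟨b, hb, fun p hp => ?_⟩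
  refine (tendsto_iff_ultrafilter _ _ _).2 fun G hG => ?_
  obtain ⟨hG1, hG2⟩ := le_inf_iff.1 hG
  have hGK : ∀ᶠ x in (G : Filter (X × X)), x ∈ K := hG2 (mem_principal_self K)
  obtain ⟨z, -, hz⟩ := isCompact_univ.ultrafilter_le_nhds (G.map b) (by simp)
  have hz' : Tendsto b G (𝓝 z) := hz
  have hid : Tendsto (fun x : X × X => x) G (𝓝 p) := hG1
  have hf1 : Tendsto (fun x : X × X => x.1) G (𝓝 p.1) :=
    (continuous_fst.tendsto p).comp hid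
  have hf2 : Tendsto (fun x : X × X => x.2) G (𝓝 p.2) :=
    (continuous_snd.tendsto p).comp hid
  have h1 : z ∈ Sp f m p.1 :=
    (isClosed_rel f m).mem_of_tendsto (hf1.prodMk_nhds hz') (hGK.mono fun x hx => (hb x hx).1)
  have h2 : z ∈ Sp f.symm m p.2 :=
    (isClosed_rel f.symm m).mem_of_tendsto (hf2.prodMk_nhds hz')
      (hGK.mono fun x hx => (hb x hx).2)
  have h3 : z = b p := EQ.uni R
    (Sp_mono (ε := m + m) (by linarith) (Sp_trans (Sp_comm (hb p hp).1) h1))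
    (Sp_mono (ε := m + m) (by linarith) (Sp_trans (Sp_comm (hb p hp).2) h2))
  rw [← h3]
  exact hz'

end PROM

open PROM in
theorem specPro : SpecPro.{u, v} := by
  intro X _ _ f e C a c Y _ g c' h B hc' hg hh hfg Hu Hs V hV hVn ε hε
  have R := B.rates univ
  have he := R.e0
  have F : Fac f univ g h := ⟨hh.continuousOn, fun x _ => hfg x⟩
  have hev : ∀ (x : X) (n : ℤ), h (ev f n x) = ev g n (h x) := fun x n =>
    F.ev (fun x _ k => mem_univ _) (mem_univ x) n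
  obtain ⟨δF, hδF, hFu⟩ := F.unif isClosed_univ (half_pos hc')
  obtain ⟨ε₃, hε₃, he3, hF3⟩ : ∃ ε₃ : ℝ, 0 < ε₃ ∧ 8 * ε₃ ≤ e ∧ ε₃ < δF :=
    ⟨min (e / 8) (δF / 2), lt_min (by linarith) (by linarith),
      by linarith [min_le_left (e / 8) (δF / 2)],
      (min_le_right _ _).trans_lt (by linarith)⟩
  have hF : ∀ x y : X, dist x y ≤ ε₃ → dist (h x) (h y) < c' / 2 :=
    fun x y hxy => hFu x (mem_univ x) y (mem_univ y) (hxy.trans_lt hF3)
  obtain ⟨x₀, hx₀⟩ := hVn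
  obtain ⟨ρ', hρ', hball⟩ := Metric.isOpen_iff.1 hV x₀ hx₀
  obtain ⟨ρ, hρ, hρρ⟩ : ∃ ρ : ℝ, 0 < ρ ∧ 4 * ρ = ρ' := ⟨ρ' / 4, by linarith, by ring⟩
  obtain ⟨m, hm, hm3, hmε, hmρ⟩ : ∃ m : ℝ, 0 < m ∧ m ≤ ε₃ ∧ m ≤ ε ∧ m ≤ ρ :=
    ⟨min ε₃ (min ε ρ), lt_min hε₃ (lt_min hε hρ), min_le_left _ _,
      (min_le_right _ _).trans (min_le_left _ _), (min_le_right _ _).trans (min_le_right _ _)⟩
  obtain ⟨δ, hδ, hbr⟩ := R.br m hm
  obtain ⟨τ, hτ, hτδ, hτρ, hτ3, hτε⟩ : ∃ τ : ℝ, 0 < τ ∧ τ ≤ δ / 4 ∧ τ ≤ ρ ∧ τ ≤ ε₃ ∧ τ ≤ ε :=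
    ⟨min (min (δ / 4) ρ) (min ε₃ ε), lt_min (lt_min (by linarith) hρ) (lt_min hε₃ hε),
      (min_le_left _ _).trans (min_le_left _ _), (min_le_left _ _).trans (min_le_right _ _),
      (min_le_right _ _).trans (min_le_left _ _), (min_le_right _ _).trans (min_le_right _ _)⟩
  obtain ⟨x₁, hx₁, hK1⟩ := Hu (Metric.ball x₀ (τ / 2)) Metric.isOpen_ball
    ⟨x₀, Metric.mem_ball_self (half_pos hτ)⟩
  obtain ⟨x₂, hx₂, hK2⟩ := Hs (Metric.ball x₀ (τ / 2)) Metric.isOpen_ball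
    ⟨x₀, Metric.mem_ball_self (half_pos hτ)⟩
  obtain ⟨Ku, hu1, hu2, hu3, hu4, hu5⟩ := hK1 (τ / 2) (half_pos hτ)
  obtain ⟨Ks, hs1, hs2, hs3, hs4, hs5⟩ := hK2 (τ / 2) (half_pos hτ)
  rw [Metric.mem_ball] at hx₁ hx₂
  have hud : ∀ y ∈ Ku, dist y x₀ < τ := fun y hy => by
    have h1 := Sp_dist (hu4 y hy)
    have h2 := dist_triangle y x₁ x₀
    linarith
  have hsd : ∀ y ∈ Ks, dist y x₀ < τ := fun y hy => by
    have h1 := Sp_dist (hs4 y hy)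
    have h2 := dist_triangle y x₂ x₀
    linarith
  have hup : ∀ y ∈ Ku, ∀ y' ∈ Ku, y' ∈ Sp f.symm τ y := fun y hy y' hy' =>
    Sp_mono (ε := τ / 2 + τ / 2) (by linarith) (Sp_trans (Sp_comm (hu4 y hy)) (hu4 y' hy'))
  have hsp : ∀ y ∈ Ks, ∀ y' ∈ Ks, y' ∈ Sp f τ y := fun y hy y' hy' =>
    Sp_mono (ε := τ / 2 + τ / 2) (by linarith) (Sp_trans (Sp_comm (hs4 y hy)) (hs4 y' hy'))
  have hm2 : 2 * m ≤ e := by linarith
  have hbr' : ∀ p ∈ Ku ×ˢ Ks, ∃ z, z ∈ Sp f m p.1 ∧ z ∈ Sp f.symm m p.2 := by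
    rintro ⟨y, w⟩ ⟨hy, hw⟩
    apply hbr
    have h1 := hud y hy
    have h2 := hsd w hw
    have h3 := dist_triangle_right y w x₀
    show dist y w < δ
    linarith
  obtain ⟨b, hb, hbc⟩ := proBrk R hm2 hbr'
  refine ⟨Ku, Ks, b, hu1, hu2, hu3, hs1, hs2, hs3, hbc, ?_, ?_, ?_, ?_, ?_⟩
  · rintro ⟨y, w⟩ hp ⟨y₁, w₁⟩ hp₁ hbb
    have h1 := hb _ hp
    have h2 := hb _ hp₁
    rw [← hbb] at h2
    have e1 : y₁ = y := EQ.uni R
      (Sp_mono (ε := m + m) (by linarith) (Sp_trans h1.1 (Sp_comm h2.1)))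
      (Sp_mono (by linarith) (hup y hp.1 y₁ hp₁.1))
    have e2 : w₁ = w := EQ.uni R
      (Sp_mono (by linarith) (hsp w hp.2 w₁ hp₁.2))
      (Sp_mono (ε := m + m) (by linarith) (Sp_trans h1.2 (Sp_comm h2.2)))
    rw [e1, e2]
  · intro p hp
    refine ⟨hball ?_, Sp_mono hmε (hb p hp).1, Sp_mono hmε (hb p hp).2⟩
    rw [Metric.mem_ball]
    have h1 := Sp_dist (hb p hp).1
    have h2 := hud p.1 hp.1
    have h3 := dist_triangle (b p) p.1 x₀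
    linarith
  · exact fun y hy y' hy' => Sp_mono hτε (hup y hy y' hy')
  · exact fun y hy y' hy' => Sp_mono hτε (hsp y hy y' hy')
  · rintro ⟨y, w⟩ hp ⟨y₁, w₁⟩ hp₁
    have h1 := hb _ hp
    have h2 := hb _ hp₁
    apply exp_ev hg
    intro n
    rw [← hev, ← hev]
    rcases Int.eq_nat_or_neg n with ⟨i, rfl | rfl⟩
    · have h3 := hF _ _ ((h1.1 i).trans hm3)
      have h4 := hF _ _ ((h2.1 i).trans hm3)
      have h5 : h (ev f i y) = h (ev f i y₁) := by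
        rw [hev, hev, hu5 y hp.1 y₁ hp₁.1]
      have h6 : dist (h (ev f i (b (y, w)))) (h (ev f i y₁)) < c' / 2 := by
        rw [← h5]
        exact h3
      have h7 := dist_triangle_right (h (ev f i (b (y, w)))) (h (ev f i (b (y₁, w₁))))
        (h (ev f i y₁))
      have h8 : dist (h (ev f i (b (y₁, w₁)))) (h (ev f i y₁)) < c' / 2 := h4
      linarith
    · have h3 := hF _ _ ((mem_Sp_symm.1 h1.2 i).trans hm3)
      have h4 := hF _ _ ((mem_Sp_symm.1 h2.2 i).trans hm3)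
      have h5 : h (ev f (-i) w) = h (ev f (-i) w₁) := by
        rw [hev, hev, hs5 w hp.2 w₁ hp₁.2]
      have h6 : dist (h (ev f (-i) (b (y, w)))) (h (ev f (-i) w₁)) < c' / 2 := by
        rw [← h5]
        exact h3
      have h7 := dist_triangle_right (h (ev f (-i) (b (y, w)))) (h (ev f (-i) (b (y₁, w₁))))
        (h (ev f (-i) w₁))
      have h8 : dist (h (ev f (-i) (b (y₁, w₁)))) (h (ev f (-i) w₁)) < c' / 2 := h4
      linarith

end Pool.Agent.Lib.MP610fe3.HF
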