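import Pool.Agent.Lib.MP_610fe3_an.HF.Spec

/-! # Module SML of HF: two tube lemmas -/

open Set Filter Function
open scoped Topology Pointwise

namespace Pool.Agent.Lib.MP610fe3.HF

open TM N3 FT

universe u v w

namespace SmlM

/-- small elements move all points a little -/
theorem small {Y : Type v} [MetricSpace Y] [CompactSpace Y] {G : Type w} [Group G]
    [TopologicalSpace G] [MulAction G Y] [ContinuousSMul G Y] {θ : ℝ} (hθ : 0 < θ) :
    ∃ O : Set G, IsOpen O ∧ (1 : G) ∈ O ∧ ∀ u ∈ O, ∀ y : Y, dist (u • y) y ≤ θ := by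
  have hc : Continuous fun p : G × Y => dist (p.1 • p.2) p.2 :=
    Continuous.dist continuous_smul continuous_snd
  have hop : IsOpen {p : G × Y | dist (p.1 • p.2) p.2 < θ} := isOpen_lt hc continuous_const
  obtain ⟨u, w, hu, -, h1, h2, h3⟩ := generalized_tube_lemma (s := ({1} : Set G))
    (t := (univ : Set Y)) isCompact_singleton isCompact_univ hop (by
      rintro ⟨v, y⟩ ⟨hv, -⟩
      have hv' : v = 1 := hv
      show dist (v • y) y < θ
      rw [hv', one_smul, dist_self]
      exact hθ)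
  exact ⟨u, hu, h1 rfl, fun v hv y => (h3 (mk_mem_prod hv (h2 (mem_univ y)))).le⟩

end SmlM

theorem specSml : SpecSml.{v, w} := by
  intro Y _ _ G _ _ _ _ _ _ _ L g S T sp up H Q 𝒦 hQ h𝒦 hS
  have hT : IsClosed (T : Set G) := by
    have h1 : (T : Set G) = sp ⁻¹' {1} := by
      ext v
      exact H.mem_T_iff v
    rw [h1]
    exact isClosed_singleton.preimage H.csp
  have hcont : Continuous fun p : G × G => up (p.1 * p.2) := H.cup.comp continuous_mul
  constructor
  · intro θ hθ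
    obtain ⟨O, hO, hO1, hO2⟩ := SmlM.small (Y := Y) (G := G) hθ
    have hC : IsCompact (((Q ∩ T) \ O) ×ˢ 𝒦) := ((hQ.inter_right hT).diff hO).prod h𝒦
    have hI : IsClosed ((fun p : G × G => up (p.1 * p.2)) '' (((Q ∩ T) \ O) ×ˢ 𝒦)) :=
      (hC.image hcont).isClosed
    refine ⟨_, hI.isOpen_compl.mem_nhds ?_, ?_⟩
    · rintro ⟨⟨u, σ⟩, ⟨⟨⟨-, hu⟩, huO⟩, hσ⟩, h1⟩
      have h2 : u * σ ∈ S := (H.mem_S_iff _).2 h1
      have h3 : u ∈ S := by
        have h4 := S.mul_mem h2 (S.inv_mem (hS hσ))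
        rwa [mul_inv_cancel_right] at h4
      have h4 : u = 1 := H.disj u h3 hu
      exact huO (by rw [h4]; exact hO1)
    · intro σ hσ u hu huT hB y
      by_contra hcon
      apply hB
      refine ⟨(u, σ), ⟨⟨⟨hu, huT⟩, fun huO => hcon (hO2 u huO y)⟩, hσ⟩, rfl⟩
  · intro B hB
    have hop : IsOpen ((fun p : G × G => up (p.1 * p.2)) ⁻¹' interior B) :=
      isOpen_interior.preimage hcont
    obtain ⟨u, w, hu, -, h1, h2, h3⟩ := generalized_tube_lemma (s := ({1} : Set G))
      (t := 𝒦) isCompact_singleton h𝒦 hop (by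
        rintro ⟨v, σ⟩ ⟨hv, hσ⟩
        have hv' : v = 1 := hv
        show up (v * σ) ∈ interior B
        rw [hv', one_mul, H.up_s (hS hσ)]
        exact mem_interior_iff_mem_nhds.2 hB)
    refine ⟨u, hu.mem_nhds (h1 rfl), fun σ hσ v hv => interior_subset ?_⟩
    exact h3 (mk_mem_prod hv (h2 hσ))

end Pool.Agent.Lib.MP610fe3.HF
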