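import Pool.Agent.Lib.MP_610fe3_an.HF.Brk

/-!
# Hyperbolic factors: module WKM

The image of a walk under `f^n`.
-/

open Set Filter Function
open scoped Topology Pointwise

namespace Pool.Agent.Lib.MP610fe3.HF

open TM N3 FT

universe u v w

/-- WKM. -/
theorem specWkm : SpecWkm.{u, v, w} := by
  intro X _ _ Y _ G _ _ _ _ f h L g S T sp up Q H hs hQ n r hr O hO
  obtain ⟨δ, hδ, hu⟩ := unif_cont f n.natAbs hr
  have hSp : ∀ y y' : X, y' ∈ Sp f.symm (min (δ / 2) r) y →
      ev f n y' ∈ Sp f.symm r (ev f n y) := by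
    intro y y' hy
    rw [mem_Sp_symm]
    intro j
    rw [← ev_add, ← ev_add]
    rcases le_or_gt (-(j : ℤ) + n) 0 with hj | hj
    · obtain ⟨t, ht⟩ := Int.exists_eq_neg_ofNat hj
      rw [ht]
      exact (mem_Sp_symm.1 hy t).trans (min_le_right _ _)
    · have h1 : dist y' y ≤ min (δ / 2) r := Sp_dist hy
      have h2 : dist y' y < δ := by
        have h3 : min (δ / 2) r ≤ δ / 2 := min_le_left _ _
        linarith
      exact (hu _ _ h2 _ (by omega) (by omega)).le
  have hnb : (lv L n) ⁻¹' (O ∩ Q) ∈ 𝓝 (1 : G) := by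
    have h1 := (H.continuous_lv n).continuousAt (x := (1 : G))
    refine h1 ?_
    rw [lv_one]
    exact inter_mem hO hQ
  refine ⟨min (δ / 2) r, by positivity, _, hnb, fun D x k y V hW => ?_⟩
  induction hW with
  | zero =>
    rw [lv_one]
    exact .zero
  | succ k y y' V v _ hy hv hhv hD ih =>
    rw [lv_mul]
    refine .succ k _ _ _ _ ih (hSp y y' hy) ⟨hv.1.1, hv.1.2, (H.lv_T _ _).1 hv.2.2⟩ ?_ ?_
    · rw [sc_ev hs, sc_ev hs, hhv, H.ev_smul]
    · exact ⟨v * V, hD, lv_mul _ _ _⟩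

end Pool.Agent.Lib.MP610fe3.HF
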