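import Pool.Agent.Lib.MP_610fe3_an.HF.Mfd
import Pool.Agent.Lib.MP_610fe3_an.HF.Dsp
import Pool.Agent.Lib.MP_610fe3_an.HF.Hds
import Pool.Agent.Lib.MP_610fe3_an.HF.Cmp
import Pool.Agent.Lib.MP_610fe3_an.HF.Sml
import Pool.Agent.Lib.MP_610fe3_an.HF.F2u
import Pool.Agent.Lib.MP_610fe3_an.HF.Wkm
import Pool.Agent.Lib.MP_610fe3_an.HF.Nop
import Pool.Agent.Lib.MP_610fe3_an.HF.Hul
import Pool.Agent.Lib.MP_610fe3_an.HF.Inv
import Pool.Agent.Lib.MP_610fe3_an.HF.Ngd
import Pool.Agent.Lib.MP_610fe3_an.HF.Stb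
import Pool.Agent.Lib.MP_610fe3_an.HF.Cor
import Pool.Agent.Lib.MP_610fe3_an.HF.Den
import Pool.Agent.Lib.MP_610fe3_an.HF.Mnx
import Pool.Agent.Lib.MP_610fe3_an.HF.Bas
import Pool.Agent.Lib.MP_610fe3_an.HF.Pro

/-!
# Hyperbolic factors: all modules
-/

open Set Filter Function Bundle
open scoped Manifold ContDiff Topology Uniformity

namespace Pool.Agent.Lib.MP610fe3.HF

open FT

universe u v w w'

theorem corAll : SpecCor.{u, v, w} :=
  specCor specDsp specHds specCmp specSml (specF2u specChs) specWkm specNop specHul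
    (specNgd specInv) (specStb specInv (specNgd specInv))

theorem absH : SpecAbsH.{u, v, w} :=
  specAbsH specDsp corAll (specDia specChs) (specHrs (specPer specTch) specSwi)
    (specDns specTch) (specGap specEnl specEnu (specDic (specCsa specSwi)
      (specCsb (specPsb (specLpl specTch)))))

theorem basAll : SpecBas.{u} := specBas specMnx specMnu specMnt

variable {V : Type*} [NormedAddCommGroup V] [NormedSpace ℝ V] [FiniteDimensional ℝ V]
  {M : Type v} [UniformSpace M] [CompactSpace M] [T2Space M] [ConnectedSpace M]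
  [ChartedSpace V M] [IsManifold 𝓘(ℝ, V) ∞ M]
  [RiemannianBundle (fun x : M => TangentSpace 𝓘(ℝ, V) x)]
  [IsContinuousRiemannianBundle V (fun x : M => TangentSpace 𝓘(ℝ, V) x)]

/-- **Hyperbolic factors.** -/
theorem mainH (f : M ≃ₘ^1⟮𝓘(ℝ, V), 𝓘(ℝ, V)⟯ M)
    (hf : Gen.IsAnosov f) (Y : Type w) [MetricSpace Y] [CompactSpace Y]
    (G : Type w') [Group G] [TopologicalSpace G] [IsTopologicalGroup G] [T2Space G]
    [LocallyCompactSpace G] [MulAction G Y] [ContinuousSMul G Y] (L : G ≃* G) (g : Y ≃ₜ Y)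
    (S T : Subgroup G) (h : M → Y) (H : HypSys L g S T) (hh : Continuous h)
    (hs : ∀ x, h (f x) = g (h x)) :
    (∀ U : Set M, IsOpen U → U.Nonempty → U ≠ univ → f '' closure U ⊆ U →
      TransOn f {x | ∀ n : ℕ, (⇑f.symm)^[n] x ∈ U} →
        Collapses f.symm {x | ∀ n : ℕ, (⇑f.symm)^[n] x ∈ U} h ∧
        Horseshoe f {x | ∀ n : ℕ, (⇑f.symm)^[n] x ∈ U} g h ∧
        Dynamics.coverEntropy g (h '' {x | ∀ n : ℕ, (⇑f.symm)^[n] x ∈ U}) <
          Dynamics.coverEntropy f {x | ∀ n : ℕ, (⇑f.symm)^[n] x ∈ U}) ∧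
    (¬ TopTransitive f → Products f f.symm h) :=
  finalH_of absH specDsp specDen basAll specPro f hf Y G L g S T h H hh hs

/-- **Group factors**: products. -/
theorem mainG (f : M ≃ₘ^1⟮𝓘(ℝ, V), 𝓘(ℝ, V)⟯ M)
    (hf : Gen.IsAnosov f) (G : Type w) [MetricSpace G] [CompactSpace G] [Group G]
    [IsTopologicalGroup G] (L : G ≃* G) (h : M → G) (hF : GroupFactor f univ L h)
    (hnt : ¬ TopTransitive f) : Products f f.symm h :=
  finalG_of absAll specGex specDen basAll specPro f hf G L h hF hnt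

end Pool.Agent.Lib.MP610fe3.HF
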