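import Pool.Agent.Lib.MP_610fe3_an.HF.Abs

/-!
# Hyperbolic factors: Anosov diffeomorphisms
-/

open Set Filter Function Bundle
open scoped Manifold ContDiff Topology Uniformity Pointwise

namespace Pool.Agent.Lib.MP610fe3.HF

open TM N3 FT

universe u v w w'

/-- Hyperbolic systems: `G` acts on `Y`, freely and transitively in the local sense, `g` is compatible
with the automorphism `L` of `G`, and `G = S T` where `L` contracts `S` and `L⁻¹` contracts `T`. -/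
structure HypSys {G : Type*} [Group G] [TopologicalSpace G] {Y : Type*} [MetricSpace Y]
    [MulAction G Y] (L : G ≃* G) (g : Y ≃ₜ Y) (S T : Subgroup G) : Prop where
  cont_L : Continuous L
  cont_L' : Continuous L.symm
  act : ∀ (v : G) (y : Y), g (v • y) = L v • g y
  free : ∃ O ∈ 𝓝 (1 : G), ∀ v ∈ O, ∀ y : Y, v • y = y → v = 1
  trans : ∀ O ∈ 𝓝 (1 : G), ∃ δ : ℝ, 0 < δ ∧ ∀ y y' : Y, dist y y' < δ → ∃ v ∈ O, v • y = y'
  inv_S : ∀ v, v ∈ S ↔ L v ∈ S
  inv_T : ∀ v, v ∈ T ↔ L v ∈ T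
  contr_S : ∀ K : Set G, IsCompact K → K ⊆ S → ∀ O ∈ 𝓝 (1 : G), ∀ᶠ n : ℕ in atTop, ∀ v ∈ K,
    L^[n] v ∈ O
  contr_T : ∀ K : Set G, IsCompact K → K ⊆ T → ∀ O ∈ 𝓝 (1 : G), ∀ᶠ n : ℕ in atTop, ∀ v ∈ K,
    L.symm^[n] v ∈ O
  inter : ∀ v, v ∈ S → v ∈ T → v = 1
  fact : ∃ s t : G → G, Continuous s ∧ Continuous t ∧ ∀ v, s v ∈ S ∧ t v ∈ T ∧ s v * t v = v

theorem HypSys.hyp {G : Type*} [Group G] [TopologicalSpace G] {Y : Type*} [MetricSpace Y]
    [MulAction G Y] {L : G ≃* G} {g : Y ≃ₜ Y} {S T : Subgroup G} (H : HypSys L g S T) :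
    ∃ sp up : G → G, Hyp L g S T sp up := by
  obtain ⟨s, t, hs, ht, hst⟩ := H.fact
  refine ⟨s, t, ?_⟩
  exact
    { mem_s := fun v => (hst v).1
      mem_t := fun v => (hst v).2.1
      mul := fun v => (hst v).2.2
      disj := H.inter
      cL := H.cont_L
      cL' := H.cont_L'
      csp := hs
      cup := ht
      act := H.act
      free := H.free
      trans := H.trans
      LS := H.inv_S
      LT := H.inv_T
      conS := fun K hK hKS O hO => by
        filter_upwards [H.contr_S K hK hKS O hO] with n hn v hv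
        rw [lv_nat]
        exact hn v hv
      conT := fun K hK hKT O hO => by
        filter_upwards [H.contr_T K hK hKT O hO] with n hn v hv
        rw [lv_neg_nat]
        exact hn v hv }

/-- `x` and `y` are asymptotic under `f`. -/
def Asy {M : Type*} [UniformSpace M] (f : M → M) (x y : M) : Prop :=
  ∀ W ∈ 𝓤 M, ∀ᶠ n : ℕ in atTop, (f^[n] x, f^[n] y) ∈ W

/-- Every nonempty open set contains a product of two nontrivial continua, `Ku` in an unstable set and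
`Ks` in a stable set, embedded by the local product structure, on which `h` is constant; `g` is the
inverse of `f`. -/
def Products {M : Type*} [UniformSpace M] (f g : M → M) {Y : Type*} (h : M → Y) : Prop :=
  ∀ V : Set M, IsOpen V → V.Nonempty → ∃ (Ku Ks : Set M) (b : M × M → M),
    (IsCompact Ku ∧ IsConnected Ku ∧ Ku.Nontrivial ∧ ∀ y ∈ Ku, ∀ y' ∈ Ku, Asy g y y') ∧
    (IsCompact Ks ∧ IsConnected Ks ∧ Ks.Nontrivial ∧ ∀ y ∈ Ks, ∀ y' ∈ Ks, Asy f y y') ∧
    ContinuousOn b (Ku ×ˢ Ks) ∧ InjOn b (Ku ×ˢ Ks) ∧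
    (∀ p ∈ Ku ×ˢ Ks, b p ∈ V ∧ Asy f (b p) p.1 ∧ Asy g (b p) p.2) ∧
    ∀ p ∈ Ku ×ˢ Ks, ∀ p' ∈ Ku ×ˢ Ks, h (b p) = h (b p')

section Metric

variable {X : Type u} [MetricSpace X] {f : X ≃ₜ X} {U : Set X} {e C a c : ℝ}

/-- The uniform form of the conclusions. -/
theorem uniform_concl (B : Base f e C a c) {Y : Type v} [MetricSpace Y] {g : Y → Y} {h : X → Y}
    (H : Concl f (Att f U) g h) : Collapses f.symm (Att f U) h ∧ Horseshoe f (Att f U) g h ∧
      Dynamics.coverEntropy g (h '' (Att f U)) < Dynamics.coverEntropy f (Att f U) := by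
  obtain ⟨h1, h2, h3⟩ := H
  refine ⟨fun x hx V hV => ?_, h2, h3⟩
  obtain ⟨ε, hε, hV'⟩ := Metric.mem_uniformity_dist.1 hV
  have R := B.rates U
  have he := R.e0
  have hC := R.C1
  have ha := R.a0
  obtain ⟨K, hK1, hK2, hK3, hK4, hK5, hK6⟩ := h1 x hx (min (ε / 2) e) (by positivity)
  refine ⟨K, hK1, hK2, hK3, hK4, fun y hy n => hV' ?_, fun W' hW' => ?_, hK6⟩
  · have h4 := mem_Sp_symm.1 (hK5 y hy) n
    rw [ev_neg_nat, ev_neg_nat] at h4
    exact lt_of_le_of_lt (h4.trans (min_le_left _ _)) (half_lt_self hε)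
  · obtain ⟨ε', hε', hW''⟩ := Metric.mem_uniformity_dist.1 hW'
    have h5 : Tendsto (fun n : ℕ => C * Real.exp (-(a * n)) * e) atTop (𝓝 0) := by
      have h6 : Tendsto (fun n : ℕ => a * (n : ℝ)) atTop atTop :=
        Tendsto.const_mul_atTop ha tendsto_natCast_atTop_atTop
      have h7 := ((Real.tendsto_exp_neg_atTop_nhds_zero.comp h6).const_mul C).mul_const e
      simpa using h7
    filter_upwards [(tendsto_order.1 h5).2 ε' hε'] with n hn y hy
    refine hW'' ?_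
    have h4 := R.un x y (Sp_mono (min_le_right _ _) (hK5 y hy)) n
    rw [ev_neg_nat, ev_neg_nat] at h4
    have h8 : dist y x ≤ e := (Sp_dist (hK5 y hy)).trans (min_le_right _ _)
    refine lt_of_le_of_lt (h4.trans ?_) hn
    gcongr

theorem asy_st (B : Base f e C a c) {p q : X} (h : q ∈ Sp f e p) : Asy f q p := by
  intro W hW
  obtain ⟨ε, hε, hW'⟩ := Metric.mem_uniformity_dist.1 hW
  have h1 := (B.rates univ).st_tendsto h
  filter_upwards [(tendsto_order.1 h1).2 ε hε] with n hn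
  refine hW' ?_
  rwa [ev_nat, ev_nat] at hn

theorem asy_un (B : Base f e C a c) {p q : X} (h : q ∈ Sp f.symm e p) : Asy f.symm q p := by
  intro W hW
  obtain ⟨ε, hε, hW'⟩ := Metric.mem_uniformity_dist.1 hW
  have h1 := (B.rates univ).un_tendsto h
  filter_upwards [(tendsto_order.1 h1).2 ε hε] with n hn
  refine hW' ?_
  rwa [ev_neg_nat, ev_neg_nat] at hn

theorem products_of (B : Base f e C a c) {Y : Type v} {h : X → Y} (H : Prods f h) :
    Products f f.symm h := by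
  intro V hV hVn
  obtain ⟨Ku, Ks, b, h1, h2, h3, h4, h5, h6, h7, h8, h9, h10, h11, h12⟩ :=
    H V hV hVn e (B.rates univ).e0
  exact ⟨Ku, Ks, b, ⟨h1, h2, h3, fun y hy y' hy' => asy_un B (h10 y' hy' y hy)⟩,
    ⟨h4, h5, h6, fun y hy y' hy' => asy_st B (h11 y' hy' y hy)⟩, h7, h8,
    fun p hp => ⟨(h9 p hp).1, asy_st B (h9 p hp).2.1, asy_un B (h9 p hp).2.2⟩, h12⟩

end Metric

section Manifold

variable {V : Type*} [NormedAddCommGroup V] [NormedSpace ℝ V] [FiniteDimensional ℝ V] {N : ℕ}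
  {M : Type v} [MetricSpace M] [CompactSpace M] [ConnectedSpace M]
  [ChartedSpace V M] [IsManifold 𝓘(ℝ, V) ∞ M]
  [RiemannianBundle (fun x : M => TangentSpace 𝓘(ℝ, V) x)]
  [IsContinuousRiemannianBundle V (fun x : M => TangentSpace 𝓘(ℝ, V) x)]

/-- The manifold version for the metric of an embedding: hyperbolic factors. -/
theorem mfdH (hAbs : SpecAbsH.{v, w, w'}) (hDsp : SpecDsp.{w, w'}) (hDen : SpecDen.{v, w})
    (hBas : SpecBas.{v}) (hPro : SpecPro.{v, w}) (e : M → EuclideanSpace ℝ (Fin N))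
    (hiso : Isometry e) (he : ContMDiff 𝓘(ℝ, V) (𝓡 N) ∞ e)
    (hinj : ∀ x, Injective (mfderiv 𝓘(ℝ, V) (𝓡 N) e x))
    (f : M ≃ₘ^1⟮𝓘(ℝ, V), 𝓘(ℝ, V)⟯ M)
    (Es Eu : ∀ x : M, Submodule ℝ (TangentSpace 𝓘(ℝ, V) x))
    (hA : Gen.IsAnosovSplitting f Es Eu) (Y : Type w) [MetricSpace Y] [CompactSpace Y]
    (G : Type w') [Group G] [TopologicalSpace G] [IsTopologicalGroup G] [T2Space G]
    [LocallyCompactSpace G] [MulAction G Y] [ContinuousSMul G Y] (L : G ≃* G) (g : Y ≃ₜ Y)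
    (S T : Subgroup G) (h : M → Y) (H : HypSys L g S T) (hh : Continuous h)
    (hs : ∀ x, h (f x) = g (h x)) :
    (∀ U : Set M, IsOpen U → U.Nonempty → U ≠ univ → f '' closure U ⊆ U →
      TransOn f {x | ∀ n : ℕ, (⇑f.symm)^[n] x ∈ U} →
        Collapses f.symm {x | ∀ n : ℕ, (⇑f.symm)^[n] x ∈ U} h ∧
        Horseshoe f {x | ∀ n : ℕ, (⇑f.symm)^[n] x ∈ U} g h ∧
        Dynamics.coverEntropy g (h '' {x | ∀ n : ℕ, (⇑f.symm)^[n] x ∈ U}) <
          Dynamics.coverEntropy f {x | ∀ n : ℕ, (⇑f.symm)^[n] x ∈ U}) ∧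
    (¬ TopTransitive f → Products f f.symm h) := by
  obtain ⟨E, hE, hEP, hr⟩ := Gen.exists_emb e hiso he hinj
  subst hE
  obtain ⟨s, hsH, hsS, hsU⟩ := Gen.exists_split E he hinj hr f Es Eu hA
  obtain ⟨e, C, a, c, B⟩ := exists_base s hsH
  obtain ⟨e', C', a', c', B'⟩ := exists_base s.swap hsH.swap
  obtain ⟨sp, up, Hy⟩ := H.hyp
  refine ⟨fun U hU hne huniv htrap hTr => ?_, fun hnt => ?_⟩
  · have hT : Trap f.toHomeomorph U := ⟨hU, fun x hx => htrap ⟨x, hx, rfl⟩⟩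
    have hAtt : {x | ∀ n : ℕ, (⇑f.symm)^[n] x ∈ U} = Att f.toHomeomorph U :=
      (att_eq f.toHomeomorph U).symm
    rw [hAtt] at hTr ⊢
    exact uniform_concl B (hAbs M Y G f.toHomeomorph h L g S T sp up U e C a c e' C' a' c' B B' Hy
      hh hs hT (H6.frontier_nonempty_of_trap hne huniv) hTr)
  · exact products_of B (prodsH hAbs hDsp hDen hBas hPro B B' Hy hh hs hnt)

/-- The manifold version for the metric of an embedding: products, group factors. -/
theorem mfdG (hAbs : SpecAbs.{v, w}) (hGex : SpecGex.{w}) (hDen : SpecDen.{v, w})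
    (hBas : SpecBas.{v}) (hPro : SpecPro.{v, w}) (e : M → EuclideanSpace ℝ (Fin N))
    (hiso : Isometry e) (he : ContMDiff 𝓘(ℝ, V) (𝓡 N) ∞ e)
    (hinj : ∀ x, Injective (mfderiv 𝓘(ℝ, V) (𝓡 N) e x))
    (f : M ≃ₘ^1⟮𝓘(ℝ, V), 𝓘(ℝ, V)⟯ M)
    (Es Eu : ∀ x : M, Submodule ℝ (TangentSpace 𝓘(ℝ, V) x))
    (hA : Gen.IsAnosovSplitting f Es Eu) (G : Type w) [MetricSpace G] [CompactSpace G] [Group G]
    [IsTopologicalGroup G] (L : G ≃* G) (h : M → G) (hF : GroupFactor f univ L h)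
    (hnt : ¬ TopTransitive f) : Products f f.symm h := by
  obtain ⟨E, hE, hEP, hr⟩ := Gen.exists_emb e hiso he hinj
  subst hE
  obtain ⟨s, hsH, hsS, hsU⟩ := Gen.exists_split E he hinj hr f Es Eu hA
  obtain ⟨e, C, a, c, B⟩ := exists_base s hsH
  obtain ⟨e', C', a', c', B'⟩ := exists_base s.swap hsH.swap
  obtain ⟨hL, ⟨W, hW, hexp⟩, hcont, heq⟩ := hF
  set L₀ : G ≃ₜ G := Continuous.homeoOfEquivCompactToT2 (f := L.toEquiv) hL with hL₀
  have e1 : ⇑L₀ = ⇑L := rfl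
  have e2 : ⇑L₀.symm = ⇑L.symm := rfl
  obtain ⟨c₀, hc₀, hball⟩ := Metric.mem_nhds_iff.1 hW
  have hexp' : ∀ u : G, (∀ n : ℤ, dist (ev L₀ n u) 1 ≤ c₀ / 2) → u = 1 := by
    intro u hu
    refine hexp u fun n => ⟨hball ?_, hball ?_⟩
    · rw [Metric.mem_ball, ← e1, ← ev_nat]
      exact (hu n).trans_lt (by linarith)
    · rw [Metric.mem_ball, ← e2, ← ev_neg_nat]
      exact (hu (-n)).trans_lt (by linarith)
  refine products_of B (prodsG (L := L₀) (c₀ := c₀ / 2) hAbs hGex hDen hBas hPro B B'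
    (fun a b => map_mul L a b) (by positivity) hexp' (continuousOn_univ.1 hcont)
    (fun x => heq x (mem_univ x)) hnt)

end Manifold

section Final

variable {V : Type*} [NormedAddCommGroup V] [NormedSpace ℝ V] [FiniteDimensional ℝ V]
  {M : Type v} [UniformSpace M] [CompactSpace M] [T2Space M] [ConnectedSpace M]
  [ChartedSpace V M] [IsManifold 𝓘(ℝ, V) ∞ M]
  [RiemannianBundle (fun x : M => TangentSpace 𝓘(ℝ, V) x)]
  [IsContinuousRiemannianBundle V (fun x : M => TangentSpace 𝓘(ℝ, V) x)]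

/-- Hyperbolic factors. -/
theorem finalH_of (hAbs : SpecAbsH.{v, w, w'}) (hDsp : SpecDsp.{w, w'}) (hDen : SpecDen.{v, w})
    (hBas : SpecBas.{v}) (hPro : SpecPro.{v, w}) (f : M ≃ₘ^1⟮𝓘(ℝ, V), 𝓘(ℝ, V)⟯ M)
    (hf : Gen.IsAnosov f) (Y : Type w) [MetricSpace Y] [CompactSpace Y]
    (G : Type w') [Group G] [TopologicalSpace G] [IsTopologicalGroup G] [T2Space G]
    [LocallyCompactSpace G] [MulAction G Y] [ContinuousSMul G Y] (L : G ≃* G) (g : Y ≃ₜ Y)
    (S T : Subgroup G) (h : M → Y) (H : HypSys L g S T) (hh : Continuous h)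
    (hs : ∀ x, h (f x) = g (h x)) :
    (∀ U : Set M, IsOpen U → U.Nonempty → U ≠ univ → f '' closure U ⊆ U →
      TransOn f {x | ∀ n : ℕ, (⇑f.symm)^[n] x ∈ U} →
        Collapses f.symm {x | ∀ n : ℕ, (⇑f.symm)^[n] x ∈ U} h ∧
        Horseshoe f {x | ∀ n : ℕ, (⇑f.symm)^[n] x ∈ U} g h ∧
        Dynamics.coverEntropy g (h '' {x | ∀ n : ℕ, (⇑f.symm)^[n] x ∈ U}) <
          Dynamics.coverEntropy f {x | ∀ n : ℕ, (⇑f.symm)^[n] x ∈ U}) ∧
    (¬ TopTransitive f → Products f f.symm h) := by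
  obtain ⟨Es, Eu, hA⟩ := hf
  obtain ⟨N, e, he, hemb, hinj⟩ := exists_embedding_euclidean_of_compact (I := 𝓘(ℝ, V)) (M := M)
  have hue : IsUniformEmbedding e := TD.isUniformEmbedding_of_compact hemb.isEmbedding
  let _ : MetricSpace M := hue.comapMetricSpace e
  have hiso : Isometry e := Isometry.of_dist_eq fun x y => rfl
  exact mfdH hAbs hDsp hDen hBas hPro e hiso he hinj f Es Eu hA Y G L g S T h H hh hs

/-- Group factors: products. -/
theorem finalG_of (hAbs : SpecAbs.{v, w}) (hGex : SpecGex.{w}) (hDen : SpecDen.{v, w})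
    (hBas : SpecBas.{v}) (hPro : SpecPro.{v, w}) (f : M ≃ₘ^1⟮𝓘(ℝ, V), 𝓘(ℝ, V)⟯ M)
    (hf : Gen.IsAnosov f) (G : Type w) [MetricSpace G] [CompactSpace G] [Group G]
    [IsTopologicalGroup G] (L : G ≃* G) (h : M → G) (hF : GroupFactor f univ L h)
    (hnt : ¬ TopTransitive f) : Products f f.symm h := by
  obtain ⟨Es, Eu, hA⟩ := hf
  obtain ⟨N, e, he, hemb, hinj⟩ := exists_embedding_euclidean_of_compact (I := 𝓘(ℝ, V)) (M := M)
  have hue : IsUniformEmbedding e := TD.isUniformEmbedding_of_compact hemb.isEmbedding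
  let _ : MetricSpace M := hue.comapMetricSpace e
  have hiso : Isometry e := Isometry.of_dist_eq fun x y => rfl
  exact mfdG hAbs hGex hDen hBas hPro e hiso he hinj f Es Eu hA G L h hF hnt

end Final

end Pool.Agent.Lib.MP610fe3.HF
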