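import Pool.Agent.Lib.MP_610fe3_an.HF.Defs

/-!
# Hyperbolic factors: statements of the modules, with complete proofs

**Theorem.** `f` an Anosov diffeomorphism of a closed connected manifold, `h f = g h`, `h` continuous on
the whole manifold, `g` a hyperbolic system in the sense of `Hyp` (for instance a hyperbolic affine map
of a nilmanifold). Let `U` be a proper attracting region, `A` its attractor. Then there is a
nontrivial continuum in an unstable plaque of `A` on which `h` is constant.  (With the modules DIA,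
HRS, DNS, GAP of `FT/Spec.lean` this gives horseshoes in the fibres and the entropy gap.)  If `f` is not
transitive then `h` is constant on products of two nontrivial continua in every nonempty open set.

**Idea.** Suppose there is no such continuum.  Then (NOP) there are `θ, m₀, c₁` such that a continuum in a
plaque of a point of `f^m₀ U₀` on which `h` oscillates by at most `θ` has diameter `< c₁`. So a
continuum in a plaque can be measured by its image under `h`, and, because `h y = v • h z` with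
`v ∈ T` along unstable sets and `h z' = s • h z` with `s ∈ S` along stable sets, by a quantity that
is invariant under stable holonomy: if the point `z` carries the element `σ ∈ S` and
`z' ∈ Sp f ε z`, `h z' = s • h z`, carries `s * σ` then `up (v' * (s * σ)) = up (v * σ)`, as
`v' * s = s' * v`.  `EQ/Core.lean` can now be repeated: the machine moves a point `z` along continua
whose displacements `v` satisfy `up (v * σ) ∈ B`, at most `N` times, then it replaces `z, σ` by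
`f^q z, L^q σ`. `d` is the product of the `up (v * σ)` since the last passage; it is not allowed
to leave `D`, which makes `σ` stay in a compact set (`cm3`, INV).  The good pairs `(x, σ)`
(from which one never leaves `f^(-q) U`) contain all `(x, σ)` with `x` in the attractor, are uniformly open
along stable sets (STB), and contain no `(x, 1)` with `x ∉ f U` (NGD). A stable chain from a point
outside `f U` to the attractor with displacements in a compact set gives a contradiction (COR).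

Notation: `ev f n x = f^n x`, `lv L n v = L^n v` (`n` an integer); `Sp f ε x`: local stable set;
`Sp f.symm ε x`: local unstable set; `Att`, `Rep`, `Trap`: `N3/Chain.lean`; `Base`: `FT/Defs.lean`.
Every module proves `theorem specNAME (dependencies) : SpecNAME`.  Universes: write
`theorem specNAME : SpecNAME.{u, v, w}`.  File: `HF/NAME.lean`, namespace `Pool.Agent.Lib.MP610fe3.HF`.
-/

open Set Filter Function
open scoped Topology Pointwise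

namespace Pool.Agent.Lib.MP610fe3.HF

open TM N3 FT

universe u v w

/-! ### Part 1: the group -/

/-- MODULE DSP. Displacements in `Y`, and `g` is expansive.

Proof. Let `O_f` be the neighbourhood of `free`. There is a compact `Q ∈ 𝓝 1` with `Q⁻¹ = Q` and
`a⁻¹ * b ∈ O_f` for `a, b ∈ Q * Q` (`exists_nhds_one_split4` or continuity of
`(a, b, c, d) ↦ (a * b)⁻¹ * (c * d)`, local compactness, intersection of a compact neighbourhood with its
inverse). `uniq`: if `v • y = w • y` then `(w⁻¹ * v) • y = y` and `w⁻¹ * v ∈ O_f`.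
`st`: let `O ∈ 𝓝 1` and `O₂ = O ∩ Q ∩ L ⁻¹' Q ∈ 𝓝 1`, `δ` from `trans O₂`, `ρ = δ / 2`. Let
`y' ∈ Sp g ρ y`. For `n : ℕ` choose `v n ∈ O₂` with `v n • ev g n y = ev g n y'`. Then
`L (v n) • ev g (n + 1) y = g (v n • ev g n y) = v (n + 1) • ev g (n + 1) y`, and `L (v n)`,
`v (n + 1)` are in `Q`, so `v (n + 1) = L (v n)`; `v n = lv L n (v 0)`. So
`lv L n (up (v 0)) = up (v n) ∈ K' := up '' Q`, a compact subset of `T`, and
`up (v 0) = lv L (-n) (up (v n))`. By `conT` for `K'`, `up (v 0)` is in every neighbourhood of `1`, so it is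
`1` (`T2Space`) and `v 0 = sp (v 0) ∈ S`.
`un`: in the same way, or by `Hyp.symm` (the proof of `st` for the symmetric system, with the same `Q`:
state `st` as a lemma with `Q` given, for all systems `Hyp L g S T sp up`).
Expansive: `c'` = the minimum of the two `ρ` for `O = univ` (`c' / 1`; note `ExpConst` speaks about
`g^[k]`, `g.symm^[k]`: `ev_nat`, `ev_neg_nat`). Then `y' = v • y = w • y` with `v ∈ Q ∩ S`,
`w ∈ Q ∩ T`, so `v = w = 1`. -/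
def SpecDsp : Prop := ∀ (Y : Type v) [MetricSpace Y] [CompactSpace Y] (G : Type w) [Group G]
  [TopologicalSpace G] [IsTopologicalGroup G] [T2Space G] [LocallyCompactSpace G] [MulAction G Y]
  [ContinuousSMul G Y] (L : G ≃* G) (g : Y ≃ₜ Y) (S T : Subgroup G) (sp up : G → G),
  Hyp L g S T sp up → ∃ Q : Set G, HD g id Q S T ∧ ∃ c' : ℝ, 0 < c' ∧ ExpConst g c'

/-- MODULE HDS. Displacements in `X`.

Proof. `cpt, nhd, inv, uniq` are the same. `st`: `ρ` from the hypothesis, `ρ' > 0` such that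
`dist x x' ≤ ρ'` implies `dist (h x) (h x') ≤ ρ` (uniform continuity). If `y ∈ Sp f ρ' z` then
`h y ∈ Sp g ρ (h z)`, because `ev g n (h z) = h (ev f n z)` for all integers `n`. `un`: the same with
negative `n` (`mem_Sp_symm`). -/
def SpecHds : Prop := ∀ (X : Type u) [MetricSpace X] [CompactSpace X] (Y : Type v) [MetricSpace Y]
  (G : Type w) [Group G] [TopologicalSpace G] [MulAction G Y] (f : X ≃ₜ X) (g : Y ≃ₜ Y) (h : X → Y)
  (Q : Set G) (S T : Subgroup G), Continuous h → (∀ x, h (f x) = g (h x)) → HD g id Q S T →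
  HD f h Q S T

/-- MODULE CMP. The choice of `q` and of the compact sets.

Proof. `S` and `T` are closed (`Fact.mem_S_iff`, `Fact.mem_T_iff`, `csp`, `cup`). Let `O₁` be a compact
neighbourhood of `1`, `𝒟 = (D₀ * O₁) ∩ T`, `O_T = O₁ ∩ T`, `𝒱 = O_T * 𝒟`: compact subsets of `T`,
`D₀ ⊆ 𝒟 ⊆ 𝒱`. Let `O_s` be a compact neighbourhood of `1` such that `V⁻¹ * up (V * σ) ∈ O₁` for `V ∈ D₀`,
`σ ∈ O_s` (tube lemma: it is `1` for `σ = 1`, because `up V = V`); so `up (V * σ) ∈ 𝒟`.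
`K₁ = {(sp (V * σ⁻¹))⁻¹ | V ∈ 𝒱, σ ∈ K₀}`, a compact subset of `S`. `q ≥ 1`: `lv L (-q) V ∈ O₁` for
`V ∈ 𝒱` and `lv L n σ ∈ O_s` for `σ ∈ K₁` and all `n ≥ q` (`conT`, `conS`).
Given `m`: `D = lv L m '' 𝒟`, `O' = lv L m '' O_s`, `𝒦 = lv L m '' (K₁ ∪ (O_s ∩ S))`.
First property: `up (lv L m V * lv L m σ) = lv L m (up (V * σ))` (`Hyp.lv_sp`).
(a) `Pr L q (lv L m '' 𝒟) k P` implies `P = lv L m P₁`, `Pr L q 𝒟 k P₁` (induction).
(b) `Pr L q 𝒟 (k + 1) P` implies `P = lv L (-q) P' * d` with `d ∈ 𝒟`, `Pr L q 𝒟 k P'`. Induction: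
`k = 0`: `P = d`, `P' = 1`. If `P = lv L (-(q (k + 1))) d' * P₁` with `Pr L q 𝒟 (k + 1) P₁`,
`P₁ = lv L (-q) P₁' * d`, then `P = lv L (-q) (lv L (-(q k)) d' * P₁') * d`.
(c) `Pr L q 𝒟 (k + 1) P` implies `P ∈ 𝒱` (induction with (b): `P'` is `1` or in `𝒱`, so
`lv L (-q) P' ∈ O_T`).
Second property: let `σ₀ = lv L m σ₁`, `d = lv L m d₁`, `P = lv L m P₁`, `σ' = lv L (-m) σ ∈ S`,
`s = lv L (-(q k)) σ' ∈ S`, `V = lv L (-(q k)) d₁ * P₁`, which is in `𝒱` by (c). Applying `lv L (-m)`: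
`s * V * σ₁⁻¹ ∈ T`, so `sp (V * σ₁⁻¹) = s⁻¹` and `s ∈ K₁`. `σ' = lv L (q k) s` is in `K₁` (`k = 0`) or
in `O_s ∩ S` (`k ≥ 1`, `q k ≥ q`), and `lv L q σ' = lv L (q (k + 1)) s ∈ O_s`. Apply `lv L m`. -/
def SpecCmp : Prop := ∀ (Y : Type v) [MetricSpace Y] (G : Type w) [Group G] [TopologicalSpace G]
  [IsTopologicalGroup G] [T2Space G] [LocallyCompactSpace G] [MulAction G Y] (L : G ≃* G)
  (g : Y ≃ₜ Y) (S T : Subgroup G) (sp up : G → G), Hyp L g S T sp up → ∀ D₀ K₀ : Set G,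
  IsCompact D₀ → D₀ ⊆ T → 1 ∈ D₀ → IsCompact K₀ → K₀ ⊆ S → 1 ∈ K₀ →
  ∃ q : ℕ, 1 ≤ q ∧ ∀ m : ℕ, ∃ D O' 𝒦 : Set G, 1 ∈ D ∧ 1 ∈ O' ∧ IsCompact 𝒦 ∧ 𝒦 ⊆ S ∧
    (∀ V ∈ lv L m '' D₀, ∀ σ ∈ O', up (V * σ) ∈ D) ∧
    ∀ k P, Pr L q D k P → ∀ d ∈ D, ∀ σ ∈ S, ∀ σ₀ ∈ lv L m '' K₀,
      lv L (-((q * k : ℕ) : ℤ)) (σ * d) * P * σ₀⁻¹ ∈ T → σ ∈ 𝒦 ∧ lv L q σ ∈ O'

/-- MODULE SML. Two compactness statements.

Proof. First: there is `O ∈ 𝓝 1` with `dist (u • y) y ≤ θ` for `u ∈ O`, `y : Y` (tube lemma, `Y`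
compact). The set `C = {(u, σ) | u ∈ Q, u ∈ T, u ∉ interior O, σ ∈ 𝒦}` is compact (`T` is closed), and
`up (u * σ) ≠ 1` on `C`: if `up (u * σ) = 1` then `u * σ ∈ S`, `u ∈ S ∩ T`, `u = 1 ∈ interior O`. So
the complement of the compact image of `C` is a neighbourhood `B` of `1`.
Second: tube lemma for `{1} × 𝒦` and the open set `{(u, σ) | up (u * σ) ∈ interior B}`
(`up (1 * σ) = 1` for `σ ∈ S`). -/
def SpecSml : Prop := ∀ (Y : Type v) [MetricSpace Y] [CompactSpace Y] (G : Type w) [Group G]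
  [TopologicalSpace G] [IsTopologicalGroup G] [T2Space G] [LocallyCompactSpace G] [MulAction G Y]
  [ContinuousSMul G Y] (L : G ≃* G) (g : Y ≃ₜ Y) (S T : Subgroup G) (sp up : G → G),
  Hyp L g S T sp up → ∀ Q 𝒦 : Set G, IsCompact Q → IsCompact 𝒦 → 𝒦 ⊆ S →
  (∀ θ : ℝ, 0 < θ → ∃ B ∈ 𝓝 (1 : G), ∀ σ ∈ 𝒦, ∀ u ∈ Q, u ∈ T → up (u * σ) ∈ B →
    ∀ y : Y, dist (u • y) y ≤ θ) ∧
  ∀ B ∈ 𝓝 (1 : G), ∃ O ∈ 𝓝 (1 : G), ∀ σ ∈ 𝒦, ∀ u ∈ O, up (u * σ) ∈ B

/-! ### Part 2: walks -/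

/-- MODULE F2U (uses `FT.SpecChs`, `N3.exists_F2`). Walks to the repeller with arbitrarily small steps,
whose displacements stay in a compact set which does not depend on the size of the steps.

Proof. Let `R = B.rates U`, `ρ_Q` from `H.un univ`, `η₀ = min (e / 2) ρ_Q`, `r₀` from `B.plaq η₀`,
`K` from `exists_F2 hT R.e0 (R.st_tendsto) R.br he₁ h0` (`B.reach`) for `min r₀ e`: every `x` with
`ev f (-1) x ∉ U` is joined to a `q ∈ Rep f U` by a chain `Chn f r₀ r₀ k x q`, `k ≤ K`. Let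
`P = Q ∩ T`, compact, `1 ∈ P`, and `D₀ = P ^ (K + 1)` (or define `D₀` by recursion on `K`, or as the
set of the products; it is compact, contained in `T`, and `P ^ i ⊆ D₀` for `i ≤ K + 1`). Given `r, O`:
`ρ_O` from `H.un O`, `δ'` with `C * δ' ≤ min r ρ_O`, `Q'` from CHS for `δ'`; `N = K * Q'`.
Let `s i`, `i ≤ k`, be the points of the chain. Claim: for `i ≤ k` there are `n ≤ i * Q'` and
`V ∈ P ^ i` with `Wk f h r (O ∩ (Q ∩ T)) D₀ x n (s i) V`. Step: the continuum of `B.plaq` for `s i`,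
`s (i + 1)` is in `Sp f.symm η₀ (s i)`; CHS gives `t 0 = s i, ..., t l = s (i + 1)`, `l ≤ Q'`, in the
continuum, with `dist (t j) (t (j + 1)) < δ'`. For each `j` let `a j ∈ Q ∩ T`,
`h (t j) = a j • h (s i)` (`H.un`), `a 0 = 1` by `H.uniq'`. `t (j + 1) ∈ Sp f.symm (2 η₀) (t j)`,
`2 η₀ ≤ e`, so by `R.un` `t (j + 1) ∈ Sp f.symm (C * δ') (t j)`, and there is
`v ∈ O ∩ Q ∩ T` with `h (t (j + 1)) = v • h (t j) = (v * a j) • h (s i)`; so
`a (j + 1) = v * a j` (`H.uniq`). By induction on `j` there is a walk from `x` to `t j` with the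
displacement `a j * V ∈ P ^ (i + 1) ⊆ D₀`. -/
def SpecF2u : Prop := ∀ (X : Type u) [MetricSpace X] [CompactSpace X] (Y : Type v) [MetricSpace Y]
  (G : Type w) [Group G] [TopologicalSpace G] [IsTopologicalGroup G] [T2Space G] [MulAction G Y]
  (f : X ≃ₜ X) (h : X → Y) (U : Set X) (e C a c : ℝ) (Q : Set G) (S T : Subgroup G),
  Base f e C a c → Trap f U → IsClosed (T : Set G) → HD f h Q S T →
  ∃ D₀ : Set G, IsCompact D₀ ∧ D₀ ⊆ T ∧ 1 ∈ D₀ ∧ ∀ r : ℝ, 0 < r → ∀ O ∈ 𝓝 (1 : G), ∃ N : ℕ, ∀ x,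
    ev f (-1) x ∉ U → ∃ k ≤ N, ∃ y ∈ Rep f U, ∃ V, Wk f h r (O ∩ (Q ∩ T)) D₀ x k y V

/-- MODULE WKM. The image of a walk under `f^n`.

Proof. Let `i = |n|`. By `unif_cont` there is `r' ≤ r` such that `dist x x' ≤ r'` implies
`dist (ev f j x) (ev f j x') ≤ r` for all `|j| ≤ i`. Then `y' ∈ Sp f.symm r' y` implies
`ev f n y' ∈ Sp f.symm r (ev f n y)`: for `j : ℕ`, `-j + n` is either `≤ 0` (use the definition of
`Sp f.symm r' y`, `r' ≤ r`) or in `[0, |n|]` (use `dist y y' ≤ r'`). `O' = (lv L n)⁻¹' (O ∩ Q)`. Induction on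
the walk; `h (ev f n y) = ev g n (h y)`, `Hyp.ev_smul`, `Hyp.lv_T`, `lv_mul`. -/
def SpecWkm : Prop := ∀ (X : Type u) [MetricSpace X] [CompactSpace X] (Y : Type v) [MetricSpace Y]
  (G : Type w) [Group G] [TopologicalSpace G] [IsTopologicalGroup G] [MulAction G Y] (f : X ≃ₜ X)
  (h : X → Y) (L : G ≃* G) (g : Y ≃ₜ Y) (S T : Subgroup G) (sp up : G → G) (Q : Set G),
  Hyp L g S T sp up → (∀ x, h (f x) = g (h x)) → Q ∈ 𝓝 (1 : G) → ∀ (n : ℤ) (r : ℝ), 0 < r →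
  ∀ O ∈ 𝓝 (1 : G), ∃ r' : ℝ, 0 < r' ∧ ∃ O' ∈ 𝓝 (1 : G), ∀ D x k y V,
    Wk f h r' (O' ∩ (Q ∩ T)) D x k y V →
    Wk f h r (O ∩ (Q ∩ T)) (lv L n '' D) (ev f n x) k (ev f n y) (lv L n V)

/-! ### Part 3: no plateaus -/

/-- MODULE NOP. If there is no large continuum in the attractor on which `h` is constant, then continua
close to the attractor on which `h` is almost constant are small.

Proof. If not, for every `n : ℕ` there are a continuum `K n`, pairwise in `Sp f.symm E`,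
`z n ∈ K n` with `ev f (-n) (z n) ∈ U`, and `x n, y n ∈ K n`, `c₁ ≤ dist (x n) (y n)`, and the
oscillation of `h` on `K n` is at most `1 / (n + 1)`. Let `F ≤ atTop` be an ultrafilter and
`K = TD.LimM.Lst F K`. As in `FT/LimA.lean` (read it): `K` is compact, connected, pairwise in
`Sp f.symm E`, contains points at distance `≥ c₁`, and `h` is constant on `K` by continuity. Let
`z = lim_F z n ∈ K`. For every `j : ℕ`, `ev f (-(j + 1)) (z n) ∈ U` if `n ≥ j + 1` (`hT.fwd`), so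
`ev f (-(j + 1)) z ∈ closure U` and `ev f (-j) z ∈ U` (`hT.maps`). So `z ∈ Att f U`, and
`K ⊆ Sp f.symm E z ⊆ Att f U` (`att_sat`, `R.un_tendsto`, `E ≤ e`). -/
def SpecNop : Prop := ∀ (X : Type u) [MetricSpace X] [CompactSpace X] (f : X ≃ₜ X) (U : Set X)
  (e C a c : ℝ) (Y : Type v) [MetricSpace Y] (h : X → Y) (E c₁ : ℝ), Base f e C a c → Trap f U →
  Continuous h → 0 < c₁ → E ≤ e →
  (¬ ∃ K : Set X, TC.Cl f (Att f U) c₁ E K ∧ ∀ x ∈ K, ∀ y ∈ K, h x = h y) →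
  ∃ θ : ℝ, 0 < θ ∧ ∃ m₀ : ℕ, ∀ K : Set X, IsCompact K → IsConnected K →
    (∀ x ∈ K, ∀ y ∈ K, y ∈ Sp f.symm E x) → (∃ z ∈ K, ev f (-(m₀ : ℤ)) z ∈ U) →
    (∀ x ∈ K, ∀ y ∈ K, dist (h x) (h y) ≤ θ) → ∀ x ∈ K, ∀ y ∈ K, dist x y < c₁

/-- MODULE HUL. The hypotheses `hup` and `hlo` of the machine.

Proof. (hup) `K ⊆ Sp f.symm M.E z`, so `K` is pairwise in `Sp f.symm (2 * M.E)`; for `w ∈ K`,
`h w = u • h z` with `up (u * σ) ∈ B`, so `dist (h w) (h z) ≤ θ / 2`, and the oscillation of `h` on `K` is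
`≤ θ`. So `dist w z < c₁` and by `R.un` (`M.E ≤ e`), for `j : ℕ`,
`dist (ev f (-j) w) (ev f (-j) z) ≤ C * exp (-(a j)) * c₁ ≤ ε₁`.
(hlo) `ρ` from `HD.un O`, `η = min ρ M.E`, `r` from `B.plaq η`. -/
def SpecHul : Prop := ∀ (X : Type u) [MetricSpace X] [CompactSpace X] (Y : Type v) [MetricSpace Y]
  (G : Type w) [Group G] [TopologicalSpace G] [MulAction G Y] (M : Mach X Y G) (S T : Subgroup G)
  (Q 𝒦 : Set G) (e C a c : ℝ), Base M.f e C a c → HD M.f M.h Q S T → M.T₁ = Q ∩ T → 0 < M.E →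
  M.E ≤ e →
  (∀ (U₀ : Set X) (m₀ : ℕ) (θ c₁ ε₁ : ℝ),
    (∀ K : Set X, IsCompact K → IsConnected K →
      (∀ x ∈ K, ∀ y ∈ K, y ∈ Sp M.f.symm (2 * M.E) x) → (∃ z ∈ K, ev M.f (-(m₀ : ℤ)) z ∈ U₀) →
      (∀ x ∈ K, ∀ y ∈ K, dist (M.h x) (M.h y) ≤ θ) → ∀ x ∈ K, ∀ y ∈ K, dist x y < c₁) →
    (∀ z, ev M.f M.q z ∈ M.U → ev M.f (-(m₀ : ℤ)) z ∈ U₀) → 0 < c₁ → C * c₁ ≤ ε₁ →
    (∀ σ ∈ 𝒦, ∀ u ∈ Q, u ∈ T → M.up (u * σ) ∈ M.B → ∀ y : Y, dist (u • y) y ≤ θ / 2) →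
    ∀ σ ∈ 𝒦, ∀ z K, ev M.f M.q z ∈ M.U → M.Ad σ z K → ∀ w ∈ K, w ∈ Sp M.f.symm ε₁ z) ∧
  ∀ O ∈ 𝓝 (1 : G), (∀ σ ∈ 𝒦, ∀ u ∈ O, M.up (u * σ) ∈ M.B) →
    ∃ r : ℝ, 0 < r ∧ ∀ σ ∈ 𝒦, ∀ z, ∀ y ∈ Sp M.f.symm r z, ∃ K, y ∈ K ∧ M.Ad σ z K

/-! ### Part 4: the machine -/

/-- MODULE INV. The bound for the states.

Proof. By induction on `Rch` show: there is `P` with `Pr L q D k P`, `d ∈ D`, `d ∈ T`, `σ ∈ S`,
`i ≤ N` and `lv L (-(q k)) (σ * d) * P * σ₀⁻¹ ∈ T`. Start: `P = 1`, the element is `1`. Move: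
`sp (v * σ) * (up (v * σ) * d) = v * (σ * d)`, so the new element is `lv L (-(q k)) v` times the old one, and
`v ∈ T`. Pass: `P' = lv L (-(q k)) d * P`, and the new element
`lv L (-(q (k + 1))) (lv L q σ * 1) * P' * σ₀⁻¹` is equal to the old one. Then `cm3`. -/
def SpecInv : Prop := ∀ (X : Type u) [MetricSpace X] (Y : Type v) [MetricSpace Y]
  (G : Type w) [Group G] [TopologicalSpace G] [IsTopologicalGroup G] [MulAction G Y]
  (M : Mach X Y G) (g : Y ≃ₜ Y) (S T : Subgroup G) (Q K₀ 𝒦 O' D₀ : Set G) (e C a ε₁ r : ℝ),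
  MH M g S T Q K₀ 𝒦 O' D₀ e C a ε₁ r → ∀ x, ∀ σ₀ ∈ K₀, ∀ z σ d i k, M.Rch x σ₀ z σ d i k →
  σ ∈ S ∧ σ ∈ 𝒦 ∧ lv M.L M.q σ ∈ O' ∧ i ≤ M.N

/-- MODULE NGD (uses INV). Good pairs stay inside.

Proof. Suppose `ev f (-1) x' ∉ U`; let `k' ≤ N`, `y ∈ Rep f U`, `V`, `Wk f h r T₁ D₀ x' k' y V` be
from `hF2`. By induction on the walk (for `n ≤ N`): if `Wk f h r T₁ D₀ x' n y V` then
`M.Rch x σ₀ y (sp (V * σ')) (up (V * σ')) (N - n) k`. Start: `V = 1`, `sp σ' = σ'`, `up σ' = 1`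
(`σ' ∈ S` by INV). Step (`v * V`, with `n + 1 ≤ N`): the state `(y, sp (V * σ'), ..)` is reached, so
`ev f q y ∈ U` (good), `sp (V * σ') ∈ 𝒦` (INV), `hlo` gives the continuum, the displacement is `v ∈ T₁`,
and with `V * σ' = sp (V * σ') * up (V * σ')`: `sp (v * sp (V * σ')) = sp (v * V * σ')` (`Fact.sp_mult`),
`up (v * sp (V * σ')) * up (V * σ') = up (v * V * σ')` (`Fact.up_mult`), which is in `D` by `cm1`
(`v * V ∈ D₀`, `σ' ∈ O'`). At the end `y ∈ Rep f U`, so `ev f q y ∉ U`, a contradiction to good. -/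
def SpecNgd : Prop := ∀ (X : Type u) [MetricSpace X] (Y : Type v) [MetricSpace Y]
  (G : Type w) [Group G] [TopologicalSpace G] [IsTopologicalGroup G] [MulAction G Y]
  (M : Mach X Y G) (g : Y ≃ₜ Y) (S T : Subgroup G) (Q K₀ 𝒦 O' D₀ : Set G) (e C a ε₁ r : ℝ),
  MH M g S T Q K₀ 𝒦 O' D₀ e C a ε₁ r → ∀ x, ∀ σ₀ ∈ K₀, M.Good x σ₀ → ∀ x' σ' k,
  M.Rch x σ₀ x' σ' 1 M.N k → σ' ∈ O' → ev M.f (-1) x' ∈ M.U

/-- MODULE STB (uses INV, NGD). **Good pairs are uniformly open along stable sets.**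

Proof. This is the proof of `EQ.stab` (`EQ/Core.lean`; read it first) for the larger states.
Constants: `η_m` from `trap.exists_margin`; `ρ_s` from `hd.st` for `(lv L q)⁻¹' Q` (a neighbourhood
of `1`); `0 < ε₂ < η_m`, `ε₂ ≤ ρ_s`, `ε₁ + 2 ε₂ ≤ M.E`, `2 ε₂ ≤ e`; `δB` from `rates.br ε₂`;
`η = min (δB / 4) ε₂`; `θ = exp (-(a q)) < 1`; `k₀` with `ε₁ C N / (1 - θ) * exp (-(a k₀)) ≤ η`;
`c = ε₁ C exp (-(a k₀))`, `σσ k i = c (N ∑ j < k, θ ^ j + (N - i) θ ^ k) ≤ η`; `δ₁` from `unif_cont f k₀`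
for `η`, `δ = min (δ₁ / 2) η`. Let `v = ev f (-k₀) x`, `v' = ev f (-k₀) x'`, `v' ∈ Sp f η v`.
(*) If `z' ∈ Sp f ε₂ z`, `t ∈ Q ∩ S`, `h z' = t • h z`, then `lv L q t ∈ Q`
(`hd.st` and `hd.uniq'`).
Claim: if `Rch x' (s * σ₀) z' σ' d i k` there are `z, σ, t` with `Rch x σ₀ z σ d i k`, `t ∈ Q ∩ S`,
`h z' = t • h z`, `σ' = t * σ`, and with `κ = q k + k₀`: `ev f (-κ) z' ∈ Sp f ε₂ (ev f (-κ) z)`,
`ev f (-κ) z ∈ Sp f.symm (σσ k i) v`, `ev f (-κ) z' ∈ Sp f.symm (σσ k i) v'`.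
Start: `z = x`, `t = s`. Pass: `z' ∈ Sp f ε₂ z` (`Sp_ev`), the new `t` is `lv L q t` by (*);
`Hyp.ev_smul`, `lv_S`.
Move `z' → y'` along `K'` with the displacement `v'' ∈ T₁`: `ev f q z ∈ U` (good),
`ev f q z' ∈ U`; `σ' ∈ 𝒦` (INV for `(x', s * σ₀)`, `s * σ₀ ∈ K₀`), so `K' ⊆ Sp f.symm ε₁ z'` (`hup`).
For `w' ∈ K'`, `ev f (-κ) w' ∈ Sp f.symm (σσ k i) v'` (contraction of the plaque, as `h5`, `h6` in
`EQ.stab`, `Sp_trans`), so it is at distance `< δB` from `v`: let `b w'` be the point of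
`Sp f ε₂ (ev f (-κ) w') ∩ Sp f.symm ε₂ v`, unique by `EQ.uni` (`2 ε₂ ≤ e`), so continuous in `w'` on
`K'` (ultrafilters, as `TC.StpC.contOn_lift`), `W w' = ev f κ (b w')`. `W z' = z` by uniqueness
(`ev f (-κ) z` has the two properties, `σσ ≤ η ≤ ε₂`). `W w' ∈ Sp f ε₂ w'` and
`W w' ∈ Sp f.symm (ε₁ + 2 ε₂) z` (as `h8`, `h9` in `EQ.stab`; both `ev f (-κ) z` and `b w'` are in
`Sp f.symm ε₂ v`). Let `K = W '' K'`; it is a continuum, `z ∈ K ⊆ Sp f.symm M.E z`. Displacements: let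
`w' ∈ K'`, `w = W w'`, `u' ∈ T₁` with `h w' = u' • h z'`, `up (u' * σ') ∈ B` (from `Ad`), `u ∈ T₁` with
`h w = u • h z` (`EQ`), `t_w ∈ Q ∩ S` with `h w' = t_w • h w` (`hd.st`, `ε₂ ≤ ρ_s`). Then
`(t_w * u) • h z = h w' = (u' * t) • h z`, so `t_w * u = u' * t` (`hd.uniq`) and
`u' * σ' = u' * t * σ = t_w * (u * σ)`, so `up (u' * σ') = up (u * σ)`,
`sp (u' * σ') = t_w * sp (u * σ)` (`Fact.up_smul`, `Fact.sp_smul`). So `K` satisfies `Ad σ z`.
For `w' = y'` (with `u' = v''` by `hd.uniq'`; `y = W y'`): `up (u * σ) * d = up (v'' * σ') * d ∈ D`,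
so `Rch x σ₀ y (sp (u * σ)) (up (u * σ) * d) i k`, the new `t` is `t_w`. The two estimates: `y' ` as
above; `K ⊆ Sp f.symm ε₁ z` by `hup` (`σ ∈ 𝒦` by INV for `(x, σ₀)`) and contraction;
`σσ k (i + 1) + c θ ^ k = σσ k i` (`i + 1 ≤ N` by INV).
End: let `Rch x' (s * σ₀) z' σ' d i k`; `ev f (q - 1) z ∈ U` by NGD for `ev f q z` (reached by `pass`, and
`lv L q σ ∈ O'` by INV), `z' ∈ Sp f ε₂ z`, so `ev f q z'` is at distance `≤ ε₂ < η_m` from
`f (ev f (q - 1) z)` and it is in `U`. -/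
def SpecStb : Prop := ∀ (X : Type u) [MetricSpace X] [CompactSpace X] (Y : Type v) [MetricSpace Y]
  (G : Type w) [Group G] [TopologicalSpace G] [IsTopologicalGroup G] [MulAction G Y]
  (M : Mach X Y G) (g : Y ≃ₜ Y) (S T : Subgroup G) (Q K₀ 𝒦 O' D₀ : Set G) (e C a ε₁ r : ℝ),
  MH M g S T Q K₀ 𝒦 O' D₀ e C a ε₁ r → ∃ δ : ℝ, 0 < δ ∧ ∀ x x' s σ₀, M.Good x σ₀ → σ₀ ∈ K₀ →
  x' ∈ Sp M.f δ x → s ∈ Q → s ∈ S → M.h x' = s • M.h x → s * σ₀ ∈ K₀ → M.Good x' (s * σ₀)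

/-- MODULE COR (uses all the modules above). A continuum on which `h` is constant.

Proof. `S`, `T` are closed. `Q` and `HD g id Q S T` from DSP, `H : HD f h Q S T` from HDS. `D₀` from F2U
for `f`, `U`; `K₀` from F2U for `f.symm`, `(closure U)ᶜ` (`hT.dual`), `H.symm`, `Base f.symm`. `q` from
CMP. `ρ_Q` from `H.un univ`, `E = min (e / 8) ρ_Q`, `c₁ = E / (2 C)`. Suppose that there is no `K` with
`TC.Cl f (Att f U) c₁ (2 E) K` on which `h` is constant; NOP (with `2 E`) gives `θ, m₀`. `m = q + m₀`,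
`U' = {x | ev f (-m) x ∈ U}` (`EQ.trap_iter`, `EQ.att_iter`, `B.rates U'`). CMP for `m`: `D, O', 𝒦`.
SML (first) for `Q, 𝒦, θ / 2`: `B`; SML (second) for `B`: `O`. HUL (second, with any `N`): `r`. WKM with
`n = m`, `r`, `univ`: `r', O''`; F2U (for `f`) with `r', O''`: `N`. The machine
`M = ⟨f, h, L, sp, up, U', Q ∩ T, B, D, E, N, q⟩`, `ε₁ = C c₁ = E / 2`; the hypotheses `MH` with the sets
`lv L m '' K₀`, `𝒦`, `O'`, `lv L m '' D₀`: `hup` from HUL (`ev f q z ∈ U'` means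
`ev f (-m₀) z ∈ U`); `hF2`: if `ev f (-1) x ∉ U'` then `x₁ = ev f (-m) x` satisfies
`ev f (-1) x₁ ∉ U`, take the walk of F2U from `x₁` and its image under `f^m` (WKM); `Rep f U'` is the
image of `Rep f U`. (`Wk` with `univ ∩ (Q ∩ T)`: `univ_inter`.) `δ` from STB.
Let `y ∈ frontier U`, so `y ∉ U`, `f y ∈ U`; `x₀ = f y`. F2U for `f.symm` and WKM (for `f.symm`,
`g.symm`, `L.symm`, `H.symm`, `Hyp.symm`, `n = -m`, `r = δ`, `O = univ`; `ev f.symm (-m) = ev f m`,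
`lv L.symm (-m) = lv L m`) give a walk `Wk f.symm h δ (Q ∩ S) (lv L m '' K₀) (ev f m x₀) k y' V` with
`y' ∈ ev f m '' (Att f U) = Att f U` (`rep_dual`; the condition is `f x₀ ∈ closure U`).
(i) `M.Good y' V`, even `M.Good p σ` for all `p ∈ Att f U'` and `σ ∈ lv L m '' K₀`: all states reached have
their point in `Att f U'` (`hup` or `M.E ≤ e`, `R.un_tendsto`, `att_sat`, `att_ev`).
(ii) By induction on the walk: if `Wk f.symm h δ (Q ∩ S) (lv L m '' K₀) x n y V` and `M.Good y V` then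
`M.Good x 1`: in the step from `y` to `y'`, `h y' = v • h y`, so `h y = v⁻¹ • h y'`,
`y ∈ Sp f δ y'` (`Sp_comm`; `f.symm.symm = f`), `v⁻¹ ∈ Q ∩ S`, and STB for `(y', v * V)` gives
`M.Good y (v⁻¹ * (v * V))`. (The elements `V` of a walk are in `lv L m '' K₀`, also `1`.)
(iii) `M.Good (ev f m x₀) 1` contradicts NGD (`M.Rch.start`, `1 ∈ O'`):
`ev f (-1) (ev f m x₀) ∈ U'` means `y ∈ U`. -/
def SpecCor : Prop := ∀ (X : Type u) [MetricSpace X] [CompactSpace X] (Y : Type v) [MetricSpace Y]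
  [CompactSpace Y] (G : Type w) [Group G] [TopologicalSpace G] [IsTopologicalGroup G] [T2Space G]
  [LocallyCompactSpace G] [MulAction G Y] [ContinuousSMul G Y] (f : X ≃ₜ X) (h : X → Y)
  (L : G ≃* G) (g : Y ≃ₜ Y) (S T : Subgroup G) (sp up : G → G) (U : Set X)
  (e C a c e' C' a' c' : ℝ), Base f e C a c → Base f.symm e' C' a' c' → Hyp L g S T sp up →
  Continuous h → (∀ x, h (f x) = g (h x)) → Trap f U → (frontier U).Nonempty →
  ∃ E c₁ : ℝ, 0 < c₁ ∧ E ≤ e ∧ ∃ K : Set X, TC.Cl f (Att f U) c₁ E K ∧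
    ∀ x ∈ K, ∀ y ∈ K, h x = h y

/-! ### Part 5: collapsed continua are everywhere -/

/-- MODULE DEN. From an attractor to its basin: if `h` is constant on nontrivial continua in all
unstable plaques of the attractor, then the same holds for all points of the basin.

Proof. `R = B.rates U`. `dist (h x) (h x') ≤ c' / 2` if `dist x x' ≤ ε₃`, with `ε₃ ≤ e / 4`
(uniform continuity of `h`). `δ` from `R.br ε₃`. Let `N` be such that `C * exp (-(a n)) * ε₃ ≤ ε` for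
`n ≥ N`. There are `n ≥ N` and `p ∈ Att f U` with `dist (ev f n x) p < δ / 2` (the orbit of `x` tends to
the attractor: a limit point of `ev f n x`, `n → ∞`, is in `Att f U`, see `FT.att_nonempty`). Let `K` be
the continuum of the hypothesis for `p` and `min (δ / 4) ε₃`. For `k ∈ K`, `dist k (ev f n x) < δ`, so there is
`b k ∈ Sp f ε₃ k ∩ Sp f.symm ε₃ (ev f n x)`, unique by `EQ.uni` and continuous in `k` (as
`TC.StpC.contOn_lift`, or (ii) of `FT.SpecDns`, `FT/Dns.lean`). `K₁ = b '' K` is a continuum,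
nontrivial because `b k = b k'` implies `k' ∈ Sp f (2 ε₃) k`, `k' ∈ Sp f.symm (2 ε₃) k`, `k = k'`.
`h (b k) = h (b k')` by `exp_ev`: for `n' ≥ 0`, `h (ev f n' (b k))` is at distance `≤ c' / 2` from
`h (ev f n' k) = ev g n' (h k) = ev g n' (h k') = h (ev f n' k')`; for `n' ≤ 0` it is at distance
`≤ c' / 2` from `h (ev f n' (ev f n x))`. `K' = ev f (-n) '' K₁ ⊆ Sp f.symm ε x` (`R.un`; as
`EQ.contr`). -/
def SpecDen : Prop := ∀ (X : Type u) [MetricSpace X] [CompactSpace X] (f : X ≃ₜ X) (U : Set X)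
  (e C a c : ℝ) (Y : Type v) [MetricSpace Y] (g : Y ≃ₜ Y) (c' : ℝ) (h : X → Y),
  Base f e C a c → Trap f U → 0 < c' → ExpConst g c' → Continuous h → (∀ x, h (f x) = g (h x)) →
  (∀ x ∈ Att f U, ∀ ε : ℝ, 0 < ε → ∃ K : Set X, IsCompact K ∧ IsConnected K ∧ K.Nontrivial ∧
    K ⊆ Att f U ∧ (∀ y ∈ K, y ∈ Sp f.symm ε x) ∧ ∀ y ∈ K, ∀ z ∈ K, h y = h z) →
  ∀ x, (∃ n : ℕ, ev f n x ∈ U) → ∀ ε : ℝ, 0 < ε → ∃ K : Set X, IsCompact K ∧ IsConnected K ∧
    K.Nontrivial ∧ (∀ y ∈ K, y ∈ Sp f.symm ε x) ∧ ∀ y ∈ K, ∀ z ∈ K, h y = h z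

/-- MODULE MNX. Minimal classes can be reached from every point.

Proof. As (iii), (iv) of `FT.SpecMnr` (`FT/Mnr.lean`), with `{y ∈ Om f | Reach f x y}`, which is not
empty (`exists_fwdAsymp`, `reach_of_fwdAsymp`), in place of `Om f ∩ Att f U`: let `δ` be the constant of
`exists_reach` and `F` a finite subset of `Om f` such that every point of `Om f` is at distance
`< δ` from a point of `F`. Choose `y₀ ∈ Om f` with `Reach f x y₀` such that the number of `q ∈ F` with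
`Reach f y₀ q` is minimal. If `y' ∈ Om f`, `Reach f y₀ y'`, then the set of `y'` is contained in the set
of `y₀`, so they are equal; the `q ∈ F` close to `y₀` satisfies `Reach f y₀ q`, so `Reach f y' q`,
and `Reach f q y₀`; so `Reach f y' y₀`. If `Reach f y₀ z`, take `y' ∈ Om f` with `FwdAsymp f z y'`;
`Reach f z y'`, `Reach f y' y₀`, so `Reach f z y₀`. -/
def SpecMnx : Prop := ∀ (X : Type u) [MetricSpace X] [CompactSpace X] (f : X ≃ₜ X) (c : ℝ), 0 < c →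
  ExpConst f c → Shadowing f → ∀ x : X, ∃ y₀ : X, y₀ ∈ Om f ∧ Reach f x y₀ ∧
  ∀ z, Reach f y₀ z → Reach f z y₀

/-- MODULE BAS (uses MNX, `FT.SpecMnu`, `FT.SpecMnt`). The basins of the transitive attractors are dense.

Proof. Suppose that `f` is not transitive. Let `x ∈ V`, `y₀` from MNX. `FT.SpecMnu` for `U = univ`
(`Trap f univ`, `Att f univ = univ`) gives `U'`, `Trap f U'`, `Att f U' = {z | Reach f y₀ z}`, and
`FT.SpecMnt` gives `TransOn f (Att f U')` (as in `FT.specMin`). `y₀ ∈ Att f U'` (`reach_self_of_mem_Om`). If `frontier U'`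
is empty then `U'` is clopen and not empty, so it is `univ` (connected), `Att f U' = univ` and `f` is
transitive (unfold `TopTransitive`). Otherwise: shadowing with `ε` such that the balls of radius `ε`
about `x`, `y₀` are in `V`, `U'`, for a chain from `x` to `y₀` (as in `FT/Mnt.lean`), gives
`z ∈ V`, `ev f m z ∈ U'`. -/
def SpecBas : Prop := ∀ (X : Type u) [MetricSpace X] [CompactSpace X] [ConnectedSpace X]
  (f : X ≃ₜ X) (c : ℝ), 0 < c → ExpConst f c → Shadowing f → ¬ TopTransitive f →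
  ∀ V : Set X, IsOpen V → V.Nonempty → ∃ U : Set X, Trap f U ∧ U.Nonempty ∧ (frontier U).Nonempty ∧
    TransOn f (Att f U) ∧ ∃ z ∈ V, ∃ n : ℕ, ev f n z ∈ U

/-- MODULE PRO. Products of collapsed continua.

Proof. `dist (h x) (h x') ≤ c' / 2` if `dist x x' ≤ ε₃`, `ε₃ ≤ e / 4`. Let `x₀ ∈ V`,
`ball x₀ (4 ρ) ⊆ V`, `δ` from `R.br (min ε₃ (min ε ρ))`, `τ = min (min (δ / 4) ρ) ε₃`. `Hu` for
`ball x₀ (τ / 2)`: `x₁`, and a continuum `Ku ⊆ Sp f.symm (τ / 2) x₁`; `Hs`: `x₂`,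
`Ks ⊆ Sp f (τ / 2) x₂`. All points of `Ku`, `Ks` are at distance `≤ τ` from `x₀`. For
`(y, w) ∈ Ku × Ks`, `dist y w < δ`: `b (y, w)` is the point of
`Sp f (min ..) y ∩ Sp f.symm (min ..) w`, unique by `EQ.uni`, so continuous on
`Ku ×ˢ Ks` (ultrafilters). `b (y, w) ∈ ball x₀ (4 ρ)`. Injective: if `b (y, w) = b (y₁, w₁)` then
`y₁ ∈ Sp f (2 ε₃) y`, and `y₁ ∈ Sp f.symm τ y`, so `y = y₁`; the same for `w`. `h (b (y, w)) =
h (b (y₁, w))` by `exp_ev`: for `n ≥ 0`, `h (ev f n (b (y, w)))` is `c' / 2`-close to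
`ev g n (h y) = ev g n (h y₁)`, for `n ≤ 0` it is `c' / 2`-close to `h (ev f n w)`. In the same way
`h (b (y₁, w)) = h (b (y₁, w₁))`. -/
def SpecPro : Prop := ∀ (X : Type u) [MetricSpace X] [CompactSpace X] (f : X ≃ₜ X)
  (e C a c : ℝ) (Y : Type v) [MetricSpace Y] (g : Y ≃ₜ Y) (c' : ℝ) (h : X → Y),
  Base f e C a c → 0 < c' → ExpConst g c' → Continuous h → (∀ x, h (f x) = g (h x)) →
  (∀ V : Set X, IsOpen V → V.Nonempty → ∃ x ∈ V, ∀ ε : ℝ, 0 < ε → ∃ K : Set X, IsCompact K ∧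
    IsConnected K ∧ K.Nontrivial ∧ (∀ y ∈ K, y ∈ Sp f.symm ε x) ∧ ∀ y ∈ K, ∀ z ∈ K, h y = h z) →
  (∀ V : Set X, IsOpen V → V.Nonempty → ∃ x ∈ V, ∀ ε : ℝ, 0 < ε → ∃ K : Set X, IsCompact K ∧
    IsConnected K ∧ K.Nontrivial ∧ (∀ y ∈ K, y ∈ Sp f ε x) ∧ ∀ y ∈ K, ∀ z ∈ K, h y = h z) →
  ∀ V : Set X, IsOpen V → V.Nonempty → ∀ ε : ℝ, 0 < ε → ∃ (Ku Ks : Set X) (b : X × X → X),
    IsCompact Ku ∧ IsConnected Ku ∧ Ku.Nontrivial ∧ IsCompact Ks ∧ IsConnected Ks ∧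
    Ks.Nontrivial ∧ ContinuousOn b (Ku ×ˢ Ks) ∧ InjOn b (Ku ×ˢ Ks) ∧
    (∀ p ∈ Ku ×ˢ Ks, b p ∈ V ∧ b p ∈ Sp f ε p.1 ∧ b p ∈ Sp f.symm ε p.2) ∧
    (∀ y ∈ Ku, ∀ y' ∈ Ku, y' ∈ Sp f.symm ε y) ∧ (∀ y ∈ Ks, ∀ y' ∈ Ks, y' ∈ Sp f ε y) ∧
    ∀ p ∈ Ku ×ˢ Ks, ∀ p' ∈ Ku ×ˢ Ks, h (b p) = h (b p')

end Pool.Agent.Lib.MP610fe3.HF
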