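import Pool.Agent.Lib.MP_610fe3_an.HF.Brk

/-!
# Hyperbolic factors: module STB

The set of good pairs is uniformly open along stable sets.
-/

open Set Filter Function
open scoped Topology Pointwise

namespace Pool.Agent.Lib.MP610fe3.HF

open TM N3 FT

universe u v w

/-- STB. -/
theorem specStb (hInv : SpecInv.{u, v, w}) (hNgd : SpecNgd.{u, v, w}) : SpecStb.{u, v, w} := by
  intro X _ _ Y _ G _ _ _ _ M g S T Q K₀ 𝒦 O' D₀ e C a ε₁ r H
  have R := H.rates
  have hC := R.C1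
  have ha := R.a0
  have he := R.e0
  have hq := H.q1
  have hε₁ := H.ε0
  have hE := H.Ee
  have hεE := H.εE
  have hE0 := H.E0
  obtain ⟨ηm, hηm, hmar⟩ := H.trap.exists_margin
  have hnb : (lv M.L M.q) ⁻¹' Q ∈ 𝓝 (1 : G) := by
    have h1 := (H.hyp.continuous_lv (M.q : ℤ)).continuousAt (x := (1 : G))
    refine h1 ?_
    rw [lv_one]
    exact H.hd.nhd
  obtain ⟨ρs, hρs, hst⟩ := H.hd.st _ hnb
  obtain ⟨ε₂, hε₂, hε₂a, hε₂b, hε₂c⟩ : ∃ ε₂ : ℝ, 0 < ε₂ ∧ ε₂ < ηm ∧ ε₂ ≤ ρs ∧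
      ε₁ + 2 * ε₂ ≤ M.E := by
    refine ⟨min (min (ηm / 2) ρs) (M.E / 4), by positivity, ?_, ?_, ?_⟩
    · exact lt_of_le_of_lt ((min_le_left _ _).trans (min_le_left _ _)) (half_lt_self hηm)
    · exact (min_le_left _ _).trans (min_le_right _ _)
    · have h1 : min (min (ηm / 2) ρs) (M.E / 4) ≤ M.E / 4 := min_le_right _ _
      linarith
  have h2e : 2 * ε₂ ≤ e := by linarith
  have hε₁e : ε₁ ≤ e := by linarith
  obtain ⟨δB, hδB, hbr⟩ := R.br ε₂ hε₂
  set η : ℝ := min (δB / 4) ε₂ with hη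
  have hη0 : 0 < η := by positivity
  have hqa : 0 < a * (M.q : ℝ) := by
    have : (0 : ℝ) < M.q := by exact_mod_cast hq
    positivity
  set θ : ℝ := Real.exp (-(a * M.q)) with hθ
  have hθ0 : 0 < θ := Real.exp_pos _
  have hθ1 : θ < 1 := by rw [hθ, Real.exp_lt_one_iff]; linarith
  have hpow : ∀ k k₀ : ℕ, Real.exp (-(a * ((M.q * k + k₀ : ℕ) : ℝ))) =
      θ ^ k * Real.exp (-(a * k₀)) := by
    intro k k₀
    rw [hθ, ← Real.exp_nat_mul, ← Real.exp_add]
    congr 1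
    push_cast
    ring
  -- the time `k₀`
  obtain ⟨k₀, hk₀⟩ : ∃ k₀ : ℕ, ε₁ * C * M.N / (1 - θ) * Real.exp (-(a * k₀)) ≤ η := by
    have h0 : Tendsto (fun n : ℕ => Real.exp (-(a * (n : ℝ)))) atTop (𝓝 0) := by
      have h6 : Tendsto (fun n : ℕ => a * (n : ℝ)) atTop atTop :=
        Tendsto.const_mul_atTop ha tendsto_natCast_atTop_atTop
      exact Real.tendsto_exp_neg_atTop_nhds_zero.comp h6
    have h1 := h0.const_mul (ε₁ * C * M.N / (1 - θ))
    rw [mul_zero] at h1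
    exact (h1.eventually_le_const hη0).exists
  set c : ℝ := ε₁ * C * Real.exp (-(a * k₀)) with hc
  have hc0 : 0 ≤ c := by positivity
  set σσ : ℕ → ℕ → ℝ := fun k i =>
    c * (M.N * ∑ j ∈ Finset.range k, θ ^ j + (M.N - i) * θ ^ k) with hσσ
  have hσ0 : ∀ k i : ℕ, i ≤ M.N → 0 ≤ σσ k i := by
    intro k i hi
    have h1 : (0 : ℝ) ≤ (M.N : ℝ) - i := by
      have : (i : ℝ) ≤ M.N := by exact_mod_cast hi
      linarith
    have h2 : 0 ≤ ∑ j ∈ Finset.range k, θ ^ j := Finset.sum_nonneg fun j _ => by positivity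
    simp only [hσσ]
    positivity
  have hσ1 : ∀ k i : ℕ, σσ k i ≤ η := by
    intro k i
    have h1 : (∑ j ∈ Finset.range (k + 1), θ ^ j) ≤ 1 / (1 - θ) := by
      have h2 := Summable.sum_le_tsum (f := fun j : ℕ => θ ^ j) (Finset.range (k + 1))
        (fun j _ => by positivity) (summable_geometric_of_lt_one hθ0.le hθ1)
      rw [tsum_geometric_of_lt_one hθ0.le hθ1] at h2
      rwa [one_div]
    calc σσ k i ≤ c * (M.N * ∑ j ∈ Finset.range (k + 1), θ ^ j) := by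
          simp only [hσσ]
          rw [Finset.sum_range_succ]
          have h2 : 0 ≤ (i : ℝ) * θ ^ k := by positivity
          apply mul_le_mul_of_nonneg_left _ hc0
          nlinarith
      _ ≤ c * (M.N * (1 / (1 - θ))) := by gcongr
      _ = ε₁ * C * M.N / (1 - θ) * Real.exp (-(a * k₀)) := by rw [hc]; ring
      _ ≤ η := hk₀
  have hηε : η ≤ ε₂ := min_le_right _ _
  -- the choice of `δ`
  obtain ⟨δ₁, hδ₁, hu⟩ := unif_cont M.f k₀ hη0
  refine ⟨min (δ₁ / 2) η, by positivity, fun x x' s σ₀ hG hσ₀ hx' hsQ hsS hsx hsσ => ?_⟩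
  set v : X := ev M.f (-(k₀ : ℤ)) x with hv
  set v' : X := ev M.f (-(k₀ : ℤ)) x' with hv'
  have hvv : v' ∈ Sp M.f η v := by
    intro j
    rw [hv, hv', ← ev_add, ← ev_add]
    rcases le_or_gt k₀ j with hj | hj
    · obtain ⟨t, rfl⟩ := Nat.exists_eq_add_of_le hj
      have h1 := hx' t
      rw [show ((k₀ + t : ℕ) : ℤ) + -(k₀ : ℤ) = (t : ℤ) by push_cast; ring]
      exact h1.trans (min_le_right _ _)
    · have h1 : dist x' x ≤ min (δ₁ / 2) η := Sp_dist hx'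
      have h2 : dist x' x < δ₁ := by
        have h3 : min (δ₁ / 2) η ≤ δ₁ / 2 := min_le_left _ _
        linarith
      exact (hu _ _ h2 _ (by omega) (by omega)).le
  have hT₁ : ∀ u ∈ M.T₁, u ∈ Q := by
    intro u hu
    rw [H.t₁] at hu
    exact hu.1
  -- the displacement stays small for `q` steps
  have hstar : ∀ z z' t, z' ∈ Sp M.f ε₂ z → t ∈ Q → M.h z' = t • M.h z → lv M.L M.q t ∈ Q := by
    intro z z' t h1 h2 h3
    obtain ⟨t₁, h4, h5, -, h6⟩ := hst z z' (Sp_mono hε₂b h1)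
    have h7 : t = t₁ := H.hd.uniq' h2 h5 (h3.symm.trans h6)
    rw [h7]
    exact h4
  have key : ∀ z' σ' d i k, M.Rch x' (s * σ₀) z' σ' d i k → ∃ z σ t, M.Rch x σ₀ z σ d i k ∧
      t ∈ Q ∧ t ∈ S ∧ M.h z' = t • M.h z ∧ σ' = t * σ ∧
      ev M.f (-((M.q * k + k₀ : ℕ) : ℤ)) z' ∈ Sp M.f ε₂ (ev M.f (-((M.q * k + k₀ : ℕ) : ℤ)) z) ∧
      ev M.f (-((M.q * k + k₀ : ℕ) : ℤ)) z ∈ Sp M.f.symm (σσ k i) v ∧
      ev M.f (-((M.q * k + k₀ : ℕ) : ℤ)) z' ∈ Sp M.f.symm (σσ k i) v' := by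
    intro z' σ' d i k h
    induction h with
    | start =>
      refine ⟨x, σ₀, s, .start, hsQ, hsS, hsx, rfl, ?_, ?_, ?_⟩
      · rw [mul_zero, zero_add]
        exact Sp_mono hηε hvv
      · rw [mul_zero, zero_add]
        exact Sp_self (hσ0 0 M.N le_rfl) _
      · rw [mul_zero, zero_add]
        exact Sp_self (hσ0 0 M.N le_rfl) _
    | pass z' σ' d i k h hz' ih =>
      obtain ⟨z, σ, t, h1, htQ, htS, hth, hσ', h2, h3, h4⟩ := ih
      have e1 : ∀ w : X, ev M.f (-((M.q * (k + 1) + k₀ : ℕ) : ℤ)) (ev M.f M.q w) =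
          ev M.f (-((M.q * k + k₀ : ℕ) : ℤ)) w := by
        intro w
        rw [← ev_add]
        congr 1
        push_cast
        ring
      have e2 : σσ k i ≤ σσ (k + 1) M.N := by
        simp only [hσσ]
        rw [Finset.sum_range_succ]
        have h5 : 0 ≤ (i : ℝ) * θ ^ k := by positivity
        apply mul_le_mul_of_nonneg_left _ hc0
        nlinarith
      have h5 : z' ∈ Sp M.f ε₂ z := by
        have h6 := Sp_ev h2 (M.q * k + k₀)
        rwa [ev_ev_neg, ev_ev_neg] at h6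
      refine ⟨ev M.f M.q z, lv M.L M.q σ, lv M.L M.q t, .pass _ _ _ _ _ h1 (hG _ _ _ _ _ h1),
        hstar z z' t h5 htQ hth, (H.hyp.lv_S _ _).1 htS, ?_, ?_, ?_, ?_, ?_⟩
      · rw [sc_ev H.sc, sc_ev H.sc, hth, H.hyp.ev_smul]
      · rw [hσ', lv_mul]
      · rw [e1, e1]
        exact h2
      · rw [e1]
        exact Sp_mono e2 h3
      · rw [e1]
        exact Sp_mono e2 h4
    | move z' y' σ' d v'' i k K' h hz' hAd hyK hv'' hvh hD ih =>
      obtain ⟨z, σ, t, h1, htQ, htS, hth, hσ', h2, h3, h4⟩ := ih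
      set κ : ℕ := M.q * k + k₀ with hκ
      have hzU : ev M.f M.q z ∈ M.U := hG _ _ _ _ _ h1
      obtain ⟨-, hσK, -, hiN⟩ := hInv X Y G M g S T Q K₀ 𝒦 O' D₀ e C a ε₁ r H x σ₀ hσ₀ _ _ _ _ _ h1
      obtain ⟨-, hσK', -, -⟩ :=
        hInv X Y G M g S T Q K₀ 𝒦 O' D₀ e C a ε₁ r H x' (s * σ₀) hsσ _ _ _ _ _ h
      have hK'₁ : ∀ w' ∈ K', w' ∈ Sp M.f.symm ε₁ z' := H.hup σ' hσK' z' K' hz' hAd
      have hcθ : C * Real.exp (-(a * κ)) * ε₁ = c * θ ^ k := by
        rw [hκ, hpow, hc]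
        ring
      have hσs : σσ k (i + 1) + c * θ ^ k = σσ k i := by
        simp only [hσσ]
        push_cast
        ring
      have hpb : ∀ w' ∈ K', ev M.f (-(κ : ℤ)) w' ∈ Sp M.f.symm (σσ k i) v' := by
        intro w' hw'
        have h5 := EQ.contr (by linarith) ha.le R.un hε₁e (hK'₁ w' hw') κ
        rw [hcθ] at h5
        rw [← hσs]
        exact Sp_trans h4 h5
      have hbk : ∀ w' : X, ∃ b : X, w' ∈ K' →
          b ∈ Sp M.f ε₂ (ev M.f (-(κ : ℤ)) w') ∧ b ∈ Sp M.f.symm ε₂ v := by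
        intro w'
        by_cases hw' : w' ∈ K'
        · have h7 : dist (ev M.f (-(κ : ℤ)) w') v < δB := by
            have h8 : dist (ev M.f (-(κ : ℤ)) w') v' ≤ σσ k i := Sp_dist (hpb w' hw')
            have h9 : dist v' v ≤ η := Sp_dist hvv
            have h10 := dist_triangle (ev M.f (-(κ : ℤ)) w') v' v
            have h11 := hσ1 k i
            have h12 : η ≤ δB / 4 := min_le_left _ _
            linarith
          obtain ⟨b, hb1, hb2⟩ := hbr _ _ h7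
          exact ⟨b, fun _ => ⟨hb1, hb2⟩⟩
        · exact ⟨w', fun hw => absurd hw hw'⟩
      choose b hb using hbk
      have hbc : ContinuousOn b K' := contOn_bracket R h2e
        (φ := fun w' => ev M.f (-(κ : ℤ)) w') (ψ := fun _ => v)
        (continuous_ev _).continuousOn continuousOn_const hb
      set W : X → X := fun w' => ev M.f κ (b w') with hW
      have hWc : ContinuousOn W K' := (continuous_ev (κ : ℤ)).comp_continuousOn hbc
      have hWb : ∀ w', ev M.f (-(κ : ℤ)) (W w') = b w' := fun w' => by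
        rw [hW]
        exact ev_neg_ev _ _
      have hW1 : ∀ w' ∈ K', W w' ∈ Sp M.f ε₂ w' := by
        intro w' hw'
        have h9 := Sp_ev (hb w' hw').1 κ
        rwa [ev_ev_neg] at h9
      have hW2 : ∀ w' ∈ K', W w' ∈ Sp M.f.symm (ε₁ + 2 * ε₂) z := by
        intro w' hw'
        rw [mem_Sp_symm]
        intro j
        rcases le_or_gt j κ with hj | hj
        · obtain ⟨t', ht'⟩ := Nat.exists_eq_add_of_le hj
          have e1 : ∀ w : X, ev M.f (-(j : ℤ)) w = ev M.f t' (ev M.f (-(κ : ℤ)) w) := by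
            intro w
            rw [← ev_add]
            congr 1
            omega
          have h10 := mem_Sp_symm.1 (hK'₁ w' hw') j
          rw [e1 w', e1 z'] at h10
          have h11 := (hb w' hw').1 t'
          have h12 := h2 t'
          rw [e1 (W w'), e1 z, hWb]
          have h13 := dist_triangle4 (ev M.f t' (b w')) (ev M.f t' (ev M.f (-(κ : ℤ)) w'))
            (ev M.f t' (ev M.f (-(κ : ℤ)) z')) (ev M.f t' (ev M.f (-(κ : ℤ)) z))
          linarith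
        · obtain ⟨t', ht'⟩ := Nat.exists_eq_add_of_le hj.le
          have e1 : ∀ w : X, ev M.f (-(j : ℤ)) w = ev M.f (-(t' : ℤ)) (ev M.f (-(κ : ℤ)) w) := by
            intro w
            rw [← ev_add]
            congr 1
            omega
          rw [e1 (W w'), e1 z, hWb]
          have h10 := mem_Sp_symm.1 (hb w' hw').2 t'
          have h11 := mem_Sp_symm.1 h3 t'
          have h12 := dist_triangle_right (ev M.f (-(t' : ℤ)) (b w'))
            (ev M.f (-(t' : ℤ)) (ev M.f (-(κ : ℤ)) z)) (ev M.f (-(t' : ℤ)) v)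
          have h13 := hσ1 k (i + 1)
          linarith
      have hWz : W z' = z := by
        have h5 : b z' = ev M.f (-(κ : ℤ)) z :=
          bracket_unique R h2e (hb z' hAd.mem).1 (hb z' hAd.mem).2 (Sp_comm h2)
            (Sp_mono ((hσ1 k (i + 1)).trans hηε) h3)
        rw [hW]
        show ev M.f κ (b z') = z
        rw [h5, ev_ev_neg]
      have hdisp : ∀ w' ∈ K', ∀ u' ∈ M.T₁, M.h w' = u' • M.h z' → ∃ u ∈ M.T₁, ∃ τ, τ ∈ Q ∧
          τ ∈ S ∧ M.h (W w') = u • M.h z ∧ M.h w' = τ • M.h (W w') ∧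
          M.up (u' * σ') = M.up (u * σ) ∧ M.sp (u' * σ') = τ * M.sp (u * σ) := by
        intro w' hw' u' hu' hh'
        obtain ⟨u, hu, huh⟩ := H.EQ z (W w') (Sp_mono hε₂c (hW2 w' hw'))
        obtain ⟨τ, -, hτQ, hτS, hτh⟩ := hst (W w') w' (Sp_mono hε₂b (Sp_comm (hW1 w' hw')))
        have e1 : τ * u = u' * t := by
          refine H.hd.uniq _ ⟨τ, hτQ, u, hT₁ u hu, rfl⟩ _ ⟨u', hT₁ u' hu', t, htQ, rfl⟩ (M.h z) ?_
          rw [mul_smul, mul_smul, ← huh, ← hτh, ← hth, ← hh']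
        have e2 : u' * σ' = τ * (u * σ) := by
          rw [hσ', ← mul_assoc, ← e1, mul_assoc]
        exact ⟨u, hu, τ, hτQ, hτS, huh, hτh, by rw [e2, H.hyp.up_smul hτS],
          by rw [e2, H.hyp.sp_smul hτS]⟩
      have hAd' : M.Ad σ z (W '' K') := by
        refine ⟨hAd.cpt.image_of_continuousOn hWc, hAd.conn.image _ hWc, ⟨z', hAd.mem, hWz⟩, ?_, ?_⟩
        · rintro _ ⟨w', hw', rfl⟩
          exact Sp_mono hε₂c (hW2 w' hw')
        · rintro _ ⟨w', hw', rfl⟩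
          obtain ⟨u', hu', hh', hB⟩ := hAd.disp w' hw'
          obtain ⟨u, hu, τ, -, -, huh, -, hup, -⟩ := hdisp w' hw' u' hu' hh'
          exact ⟨u, hu, huh, by rw [← hup]; exact hB⟩
      obtain ⟨u, hu, τ, hτQ, hτS, huh, hτh, hup, hsp⟩ := hdisp y' hyK v'' hv'' hvh
      have hR : M.Rch x σ₀ (W y') (M.sp (u * σ)) (M.up (v'' * σ') * d) i k := by
        rw [hup] at hD ⊢
        exact .move z (W y') σ d u i k (W '' K') h1 hzU hAd' ⟨y', hyK, rfl⟩ hu huh hD
      refine ⟨W y', M.sp (u * σ), τ, hR, hτQ, hτS, hτh, hsp, ?_, ?_, hpb y' hyK⟩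
      · rw [hWb]
        exact Sp_comm (hb y' hyK).1
      · have h11 := EQ.contr (by linarith) ha.le R.un hε₁e
          (H.hup σ hσK z (W '' K') hzU hAd' (W y') ⟨y', hyK, rfl⟩) κ
        rw [hcθ] at h11
        rw [← hσs]
        exact Sp_trans h3 h11
  intro z' σ' d i k h
  obtain ⟨z, σ, t, h1, -, -, -, -, h2, -, -⟩ := key _ _ _ _ _ h
  have hzU := hG _ _ _ _ _ h1
  have h3 : M.Rch x σ₀ (ev M.f M.q z) (lv M.L M.q σ) 1 M.N (k + 1) := .pass _ _ _ _ _ h1 hzU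
  have hI := hInv X Y G M g S T Q K₀ 𝒦 O' D₀ e C a ε₁ r H x σ₀ hσ₀ _ _ _ _ _ h1
  have h4 := hNgd X Y G M g S T Q K₀ 𝒦 O' D₀ e C a ε₁ r H x σ₀ hσ₀ hG _ _ _ h3 hI.2.2.1
  have h5 : z' ∈ Sp M.f ε₂ z := by
    have h6 := Sp_ev h2 (M.q * k + k₀)
    rwa [ev_ev_neg, ev_ev_neg] at h6
  refine hmar _ h4 _ ?_
  rw [← ev_one (f := M.f), ev_ev_neg]
  exact (h5 M.q).trans_lt hε₂a

end Pool.Agent.Lib.MP610fe3.HF
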